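import Pool.Agent.Lib.MP_c86c76_al.J.All

/-!
Discs, crosscuts and isotopies: definitions and statements.
-/

set_option autoImplicit false

namespace Pool.Agent.PT

open Set Metric Complex Filter Topology
open scoped unitInterval

noncomputable section

/-- An arc, parametrised by the unit interval. -/
def IsArc (κ : ℝ → ℂ) : Prop := ContinuousOn κ (Icc 0 1) ∧ InjOn κ (Icc 0 1)

/-- The segment from `p` to `q`. -/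
def seg (p q : ℂ) (t : ℝ) : ℂ := p + t * (q - p)

/-- Concatenation. -/
def cat (a b : ℝ → ℂ) (t : ℝ) : ℂ := if t ≤ 1 / 2 then a (2 * t) else b (2 * t - 1)

/-- The closed curve made of two arcs with the same ends. -/
def jor (a b : ℝ → ℂ) (z : ℂ) : ℂ := if 0 ≤ z.im then a ((1 - z.re) / 2) else b ((1 - z.re) / 2)

/-- `J` is the union of two arcs that meet at their ends only. -/
structure Two (J : Set ℂ) (a b : ℝ → ℂ) : Prop where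
  arc1 : IsArc a
  arc2 : IsArc b
  e0 : a 0 = b 0
  e1 : a 1 = b 1
  un : a '' Icc 0 1 ∪ b '' Icc 0 1 = J
  ne : ∀ s ∈ Ioo (0 : ℝ) 1, ∀ t ∈ Icc (0 : ℝ) 1, a s ≠ b t

/-- A parametrisation of the closure of `U` by the closed unit disc. -/
structure DChart (Φ : ℂ → ℂ) (U : Set ℂ) : Prop where
  op : IsOpen U
  cont : ContinuousOn Φ (closedBall 0 1)
  inj : InjOn Φ (closedBall 0 1)
  im : Φ '' ball 0 1 = U

/-- A Jordan domain. -/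
def Disc (U : Set ℂ) : Prop := ∃ Φ, DChart Φ U

/-- A crosscut. -/
structure Cut (U : Set ℂ) (κ : ℝ → ℂ) : Prop where
  arc : IsArc κ
  f0 : κ 0 ∈ frontier U
  f1 : κ 1 ∈ frontier U
  mid : MapsTo κ (Ioo 0 1) U

/-- A homeomorphism of the closure of `U` that fixes the frontier. -/
structure Rel (U : Set ℂ) (h : ℂ → ℂ) : Prop where
  cont : ContinuousOn h (closure U)
  bij : BijOn h U U
  fix : ∀ z ∈ frontier U, h z = z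

/-- An isotopy of the closure of `U` relative to the frontier that starts at the identity. -/
structure Iso (U : Set ℂ) (η : unitInterval → ℂ → ℂ) : Prop where
  cont : ContinuousOn (fun p : unitInterval × ℂ => η p.1 p.2) (univ ×ˢ closure U)
  rel : ∀ t, Rel U (η t)
  zero : ∀ z ∈ closure U, η 0 z = z

/-- `q` embeds `U` as an open set and extends continuously to the closure. -/
structure Chart {S : Type} [TopologicalSpace S] (q : ℂ → S) (U : Set ℂ) : Prop where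
  cont : ContinuousOn q (closure U)
  inj : InjOn q U
  op : IsOpen (q '' U)
  dis : Disjoint (q '' U) (q '' frontier U)

/-! ### Basic facts -/

def ArcBasSt : Prop :=
  (∀ p q : ℂ, p ≠ q → IsArc (seg p q)) ∧ (∀ p q : ℂ, seg p q '' Icc 0 1 = segment ℝ p q) ∧
  (∀ p q : ℂ, seg p q '' Ioo 0 1 = openSegment ℝ p q) ∧
  (∀ a b : ℝ → ℂ, IsArc a → IsArc b → a 1 = b 0 →
    (∀ s ∈ Icc (0 : ℝ) 1, ∀ t ∈ Icc (0 : ℝ) 1, a s = b t → s = 1) → IsArc (cat a b)) ∧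
  (∀ a b : ℝ → ℂ, a 1 = b 0 → cat a b '' Icc 0 1 = a '' Icc 0 1 ∪ b '' Icc 0 1 ∧
    cat a b '' Ioo 0 1 = a '' Ioc 0 1 ∪ b '' Ico 0 1 ∧ cat a b 0 = a 0 ∧ cat a b 1 = b 1 ∧
    ∀ t ∈ Icc (0 : ℝ) 1, cat a b (t / 2) = a t ∧ cat a b ((t + 1) / 2) = b t) ∧
  (∀ (a : ℝ → ℂ) (p q : ℂ), IsArc a → p ∉ a '' Icc 0 1 → q ∉ a '' Icc 0 1 →
    NSep (a '' Icc 0 1) p q) ∧
  ∀ (J : Set ℂ) (a b : ℝ → ℂ), Two J a b → Two J b a ∧ ContinuousOn (jor a b) (sphere 0 1) ∧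
    InjOn (jor a b) (sphere 0 1) ∧ jor a b '' sphere 0 1 = J

def DiscSt : Prop :=
  (∀ (Φ : ℂ → ℂ) (U : Set ℂ), DChart Φ U → closure U = Φ '' closedBall 0 1 ∧
    frontier U = Φ '' sphere 0 1 ∧ IsCompact (closure U) ∧ IsJ (frontier U) ∧
    Ins (frontier U) U ∧ (∀ V ⊆ ball (0 : ℂ) 1, IsOpen V → IsOpen (Φ '' V)) ∧
    ∃ Ψ : ℂ → ℂ, ContinuousOn Ψ (closure U) ∧ ∀ z ∈ closedBall (0 : ℂ) 1, Ψ (Φ z) = z) ∧
  (∀ J U : Set ℂ, IsJ J → Ins J U → Disc U ∧ frontier U = J) ∧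
  (∀ ρ : ℝ, 0 < ρ → DChart (fun z => ρ * z) (ball 0 ρ)) ∧
  ∀ N : ℂ → ℝ, Continuous N → (∀ s : ℝ, 0 ≤ s → ∀ z, N (s * z) = s * N z) →
    (∀ z, z ≠ 0 → 0 < N z) → (∃ Φ, DChart Φ {z | N z < 1} ∧ Φ 0 = 0) ∧
      closure {z | N z < 1} = {z | N z ≤ 1}

def RelSt : Prop :=
  (∀ (U : Set ℂ) (h : ℂ → ℂ), Rel U h → MapsTo h (closure U) (closure U)) ∧
  (∀ (U : Set ℂ) (h h' : ℂ → ℂ), Rel U h → Rel U h' → Rel U (h' ∘ h)) ∧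
  (∀ (U : Set ℂ) (h : ℂ → ℂ), IsOpen U → Bornology.IsBounded U → Rel U h →
    ∃ h', Rel U h' ∧ ∀ z ∈ closure U, h' (h z) = z ∧ h (h' z) = z) ∧
  (∀ (U V : Set ℂ) (h : ℂ → ℂ), IsOpen U → IsOpen V → V ⊆ U → Rel V h →
    ∃ h', Rel U h' ∧ EqOn h' h (closure V) ∧ ∀ z ∉ V, h' z = z) ∧
  (∀ (ρ : ℝ) (ν : ℝ → ℝ), 0 < ρ → Continuous ν → Monotone ν → (∀ s, 0 < ν s) → ν ρ = 1 →
    Rel (ball 0 ρ) fun z => ν ‖z‖ * z) ∧
  (∀ (ρ : ℝ) (ν : ℝ → ℝ), 0 < ρ → Continuous ν → ν ρ = 0 →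
    Rel (ball 0 ρ) fun z => z * exp (ν ‖z‖ * Complex.I)) ∧
  ∀ (ρ : ℝ) (x : ℂ), ‖x‖ < ρ → ∃ h, Rel (ball 0 ρ) h ∧ h 0 = x

/-- The Alexander trick. -/
def AlexSt : Prop := ∀ (Φ : ℂ → ℂ) (U : Set ℂ) (h : ℂ → ℂ), DChart Φ U → Rel U h →
  ∃ η, Iso U η ∧ (∀ z ∈ closure U, η 1 z = h z) ∧ (h (Φ 0) = Φ 0 → ∀ t, η t (Φ 0) = Φ 0)

/-! ### Crosscuts -/

def ArcSt : Prop := ∀ (V : Set ℂ) (a b p q : ℂ), IsOpen V → IsPreconnected V → a ∉ V → b ∉ V →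
  a ≠ b → p ∈ V → q ∈ V → openSegment ℝ a p ⊆ V → openSegment ℝ b q ⊆ V →
  ∃ κ, IsArc κ ∧ κ 0 = a ∧ κ 1 = b ∧ MapsTo κ (Ioo 0 1) V

def FrontSt : Prop := ∀ J : Set ℂ, IsJ J →
  (∀ p ∈ J, ∀ q ∈ J, p ≠ q → ∃ a b, Two J a b ∧ a 0 = p ∧ a 1 = q) ∧
  ∀ a : ℝ → ℂ, IsArc a → a '' Icc 0 1 ⊆ J → ∃ b, Two J a b

def SplitSt : Prop := ∀ (U : Set ℂ) (a b κ : ℝ → ℂ), Disc U → Two (frontier U) a b → Cut U κ →
  κ 0 = a 0 → κ 1 = a 1 → ∃ U₁ U₂ : Set ℂ, Ins (κ '' Icc 0 1 ∪ a '' Icc 0 1) U₁ ∧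
    Ins (κ '' Icc 0 1 ∪ b '' Icc 0 1) U₂ ∧ Disjoint U₁ U₂ ∧ U₁ ∪ U₂ = U \ κ '' Icc 0 1

def MoveSt : Prop := ∀ (U : Set ℂ) (κ κ' : ℝ → ℂ), Disc U → Cut U κ → Cut U κ' → κ 0 = κ' 0 →
  κ 1 = κ' 1 → ∃ h, Rel U h ∧ ∀ t ∈ Icc (0 : ℝ) 1, h (κ t) = κ' t

def CutSt : Prop := ∀ (U A B : Set ℂ) (a : ℝ → ℂ), Disc U → IsArc a → a '' Icc 0 1 ⊆ frontier U →
  IsCompact A → IsCompact B → Disjoint A B → A ∩ frontier U ⊆ a '' Ioo 0 1 →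
  Disjoint B (a '' Icc 0 1) →
  ∃ κ, Cut U κ ∧ κ 0 = a 0 ∧ κ 1 = a 1 ∧ ∀ t ∈ Icc (0 : ℝ) 1, κ t ∉ A ∪ B

/-- A quarter turn, possibly after a reflection. -/
def qt (k : ℕ) (s : Bool) (z : ℂ) : ℂ := Complex.I ^ k * cond s ((starRingEnd ℂ) z) z

/-- An embedded disc can be moved to standard position on some small ball. -/
def GermSt : Prop := ∀ (φ : ℂ → ℂ) (ε ρ : ℝ), 0 < ε → ε < ρ → ContinuousOn φ (closedBall 0 ε) →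
  InjOn φ (closedBall 0 ε) → MapsTo φ (closedBall 0 ε) (ball 0 ρ) →
  (∀ V ⊆ ball (0 : ℂ) ε, IsOpen V → IsOpen (φ '' V)) →
  ∃ (k : ℕ) (s : Bool) (h : ℂ → ℂ) (x : ℂ) (r : ℝ), Rel (ball 0 ρ) h ∧ 0 < r ∧
    ball x r ⊆ ball 0 ε ∧ ∀ z ∈ ball x r, h (φ (qt k s z)) = z

/-! ### Transfer to a space with a chart -/

def TransSt : Prop := ∀ (S : Type) [TopologicalSpace S] [CompactSpace S] [T2Space S]
  (q : ℂ → S) (U : Set ℂ), IsOpen U → Bornology.IsBounded U → Chart q U →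
  (∀ η, Iso U η → ∃ H : unitInterval → S ≃ₜ S,
    Continuous (fun p : unitInterval × S => H p.1 p.2) ∧ H 0 = 1 ∧
    ∀ t, (∀ x ∉ q '' U, H t x = x) ∧ ∀ z ∈ closure U, H t (q z) = q (η t z)) ∧
  ∀ f : S ≃ₜ S, InjOn q (closure U) → (∀ x ∉ q '' U, f x = x) →
    ∃ h, Rel U h ∧ ∀ z ∈ closure U, f (q z) = q (h z)

end

end Pool.Agent.PT
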