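import Pool.Agent.Lib.MP_c86c76_al.J.St2

/-!
The Alexander trick.
-/

set_option autoImplicit false

namespace Pool.Agent.PT

open Set Metric Complex Filter Topology

noncomputable section

/-- The cone isotopy. -/
def alexTh (k : ℂ → ℂ) (t : ℝ) (z : ℂ) : ℂ := if ‖z‖ < t then t * k (z / t) else z

theorem alex_div {t : ℝ} {z : ℂ} (h : ‖z‖ < t) : z / t ∈ ball (0 : ℂ) 1 := by
  have ht : 0 < t := (norm_nonneg z).trans_lt h
  rw [mem_ball_zero_iff, norm_div, norm_real, Real.norm_of_nonneg ht.le, div_lt_one ht]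
  exact h

theorem alex_mul {t : ℝ} {u : ℂ} (ht : 0 < t) (h : u ∈ ball (0 : ℂ) 1) : ‖t * u‖ < t := by
  rw [norm_mul, norm_real, Real.norm_of_nonneg ht.le]
  exact mul_lt_of_lt_one_right ht (mem_ball_zero_iff.1 h)

theorem alex_bij {k : ℂ → ℂ} (hb : BijOn k (ball 0 1) (ball 0 1)) {t : ℝ} (h1 : t ≤ 1) :
    BijOn (alexTh k t) (ball 0 1) (ball 0 1) := by
  have a : ∀ z, ‖z‖ < t → ‖t * k (z / t)‖ < t := fun z h =>
    alex_mul ((norm_nonneg z).trans_lt h) (hb.1 (alex_div h))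
  refine ⟨fun z hz => ?_, fun x _ y _ e => ?_, fun w hw => ?_⟩
  · unfold alexTh
    split_ifs with c
    · exact mem_ball_zero_iff.2 ((a z c).trans_le h1)
    · exact hz
  · unfold alexTh at e
    split_ifs at e with c d d
    · have ht : (t : ℂ) ≠ 0 := ofReal_ne_zero.2 ((norm_nonneg x).trans_lt c).ne'
      exact (div_left_inj' ht).1 (hb.2.1 (alex_div c) (alex_div d) (mul_left_cancel₀ ht e))
    · exact absurd (e ▸ a x c) d
    · exact absurd (e ▸ a y d) c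
    · exact e
  · by_cases c : ‖w‖ < t
    · have ht : 0 < t := (norm_nonneg w).trans_lt c
      have ht' : (t : ℂ) ≠ 0 := ofReal_ne_zero.2 ht.ne'
      obtain ⟨u, hu, e⟩ := hb.2.2 (alex_div c)
      refine ⟨t * u, mem_ball_zero_iff.2 ((alex_mul ht hu).trans_le h1), ?_⟩
      rw [alexTh, if_pos (alex_mul ht hu), mul_div_cancel_left₀ _ ht', e, mul_div_cancel₀ _ ht']
    · exact ⟨w, hw, if_neg c⟩

theorem alex_cont {k : ℂ → ℂ} (hc : ContinuousOn k (closedBall 0 1))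
    (hm : MapsTo k (ball 0 1) (ball 0 1)) (hf : ∀ z ∈ sphere (0 : ℂ) 1, k z = z) :
    Continuous fun p : ℝ × ℂ => alexTh k p.1 p.2 := by
  have hk : ∀ z ∈ closedBall (0 : ℂ) 1, ‖k z‖ ≤ 1 := fun z hz => by
    rcases (mem_closedBall_zero_iff.1 hz).lt_or_eq with c | c
    · exact (mem_ball_zero_iff.1 (hm (mem_ball_zero_iff.2 c))).le
    · rw [hf z (mem_sphere_zero_iff_norm.2 c), c]
  have hd : MapsTo (fun p : ℝ × ℂ => p.2 / p.1) {p | ‖p.2‖ ≤ p.1} (closedBall 0 1) := fun p hp => by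
    have h0 : 0 ≤ p.1 := (norm_nonneg _).trans hp
    rw [mem_closedBall_zero_iff, norm_div, norm_real, Real.norm_of_nonneg h0]
    exact div_le_one_of_le₀ hp h0
  have hA : ContinuousOn (fun p : ℝ × ℂ => p.1 * k (p.2 / p.1)) {p | ‖p.2‖ ≤ p.1} := by
    intro p hp
    rcases ((norm_nonneg _).trans hp : 0 ≤ p.1).eq_or_lt with c | c
    · have e : (p.1 : ℂ) * k (p.2 / p.1) = 0 := by rw [← c]; simp
      rw [ContinuousWithinAt, e]
      refine squeeze_zero_norm' (a := fun q : ℝ × ℂ => q.1) ?_ ?_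
      · filter_upwards [self_mem_nhdsWithin] with q hq
        have h0 : 0 ≤ q.1 := (norm_nonneg _).trans hq
        rw [norm_mul, norm_real, Real.norm_of_nonneg h0]
        exact mul_le_of_le_one_right h0 (hk _ (hd hq))
      · rw [c]
        exact continuous_fst.continuousWithinAt
    · have h1 : ContinuousAt (fun p : ℝ × ℂ => (p.1 : ℂ)) p := by fun_prop
      exact h1.continuousWithinAt.mul (ContinuousWithinAt.comp (f := fun p : ℝ × ℂ => p.2 / p.1)
        (hc _ (hd hp)) (continuousAt_snd.div h1 (ofReal_ne_zero.2 c.ne')).continuousWithinAt hd)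
  have hA' : ContinuousOn (fun p : ℝ × ℂ => alexTh k p.1 p.2) {p | ‖p.2‖ ≤ p.1} := by
    refine hA.congr fun p hp => ?_
    show alexTh k p.1 p.2 = p.1 * k (p.2 / p.1)
    unfold alexTh
    split_ifs with c
    · rfl
    · have e : ‖p.2‖ = p.1 := le_antisymm hp (not_lt.1 c)
      rcases ((norm_nonneg _).trans hp : 0 ≤ p.1).eq_or_lt with d | d
      · rw [norm_eq_zero.1 (e.trans d.symm), ← d]
        simp
      · rw [hf, mul_div_cancel₀ _ (ofReal_ne_zero.2 d.ne')]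
        rw [mem_sphere_zero_iff_norm, norm_div, norm_real, Real.norm_of_nonneg d.le, e,
          div_self d.ne']
  have hB : ContinuousOn (fun p : ℝ × ℂ => alexTh k p.1 p.2) {p | p.1 ≤ ‖p.2‖} :=
    continuous_snd.continuousOn.congr fun p hp => if_neg (not_lt.2 hp)
  have h := hA'.union_of_isClosed hB (isClosed_le (by fun_prop) (by fun_prop))
    (isClosed_le (by fun_prop) (by fun_prop))
  rw [← continuousOn_univ]
  exact h.mono fun p _ => le_total ‖p.2‖ p.1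

theorem alexSt (hD : DiscSt) (hR : RelSt) : AlexSt := by
  intro Φ U h hΦ hh
  obtain ⟨d1, d2, -, -, -, -, Ψ, p1, p2⟩ := hD.1 Φ U hΦ
  have m1 : MapsTo Φ (closedBall 0 1) (closure U) := d1 ▸ mapsTo_image _ _
  have m2 : MapsTo Ψ (closure U) (closedBall 0 1) := by
    rw [d1]
    rintro _ ⟨w, hw, rfl⟩
    rwa [p2 w hw]
  have p3 : ∀ z ∈ closure U, Φ (Ψ z) = z := by
    rw [d1]
    rintro _ ⟨w, hw, rfl⟩
    rw [p2 w hw]
  have b1 : BijOn Φ (ball 0 1) U := hΦ.im ▸ (hΦ.inj.mono ball_subset_closedBall).bijOn_image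
  have b2 : BijOn Ψ U (ball 0 1) :=
    BijOn.symm ⟨fun z hz => p3 z (subset_closure hz), fun w hw => p2 w (ball_subset_closedBall hw)⟩ b1
  have m3 := hR.1 U h hh
  have kc : ContinuousOn (Ψ ∘ h ∘ Φ) (closedBall 0 1) :=
    p1.comp (hh.cont.comp hΦ.cont m1) (m3.comp m1)
  have kb : BijOn (Ψ ∘ h ∘ Φ) (ball 0 1) (ball 0 1) := b2.comp (hh.bij.comp b1)
  have kf : ∀ z ∈ sphere (0 : ℂ) 1, (Ψ ∘ h ∘ Φ) z = z := fun z hz => by
    show Ψ (h (Φ z)) = z
    rw [hh.fix _ (d2 ▸ mem_image_of_mem Φ hz), p2 z (sphere_subset_closedBall hz)]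
  have tc := alex_cont kc kb.1 kf
  have ts : ∀ t : unitInterval, ∀ z ∈ sphere (0 : ℂ) 1, alexTh (Ψ ∘ h ∘ Φ) t z = z := fun t z hz =>
    if_neg (not_lt.2 ((mem_sphere_zero_iff_norm.1 hz).symm ▸ t.2.2))
  have tm : ∀ t : unitInterval,
      MapsTo (alexTh (Ψ ∘ h ∘ Φ) t) (closedBall 0 1) (closedBall 0 1) := fun t z hz => by
    rcases (mem_closedBall_zero_iff.1 hz).lt_or_eq with c | c
    · exact ball_subset_closedBall ((alex_bij kb t.2.2).1 (mem_ball_zero_iff.2 c))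
    · rwa [ts t z (mem_sphere_zero_iff_norm.2 c)]
  have ec : ContinuousOn (fun p : unitInterval × ℂ => Φ (alexTh (Ψ ∘ h ∘ Φ) p.1 (Ψ p.2)))
      (univ ×ˢ closure U) :=
    hΦ.cont.comp (tc.comp_continuousOn (f := fun p : unitInterval × ℂ => ((p.1 : ℝ), Ψ p.2))
      ((continuous_subtype_val.comp continuous_fst).continuousOn.prodMk
        (p1.comp continuous_snd.continuousOn fun _ hp => hp.2)))
      fun p hp => tm p.1 (m2 hp.2)
  refine ⟨fun t z => Φ (alexTh (Ψ ∘ h ∘ Φ) t (Ψ z)), ⟨ec, fun t => ⟨?_, ?_, ?_⟩, fun z hz => ?_⟩,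
    fun z hz => ?_, fun e t => ?_⟩
  · exact ec.comp (f := fun z => (t, z)) (by fun_prop) fun z hz => ⟨mem_univ _, hz⟩
  · exact b1.comp ((alex_bij kb t.2.2).comp b2)
  · rw [d2]
    rintro _ ⟨w, hw, rfl⟩
    rw [p2 w (sphere_subset_closedBall hw), ts t w hw]
  · rw [alexTh, if_neg (show ¬‖Ψ z‖ < ((0 : unitInterval) : ℝ) from not_lt.2 (norm_nonneg _)),
      p3 z hz]
  · have e : alexTh (Ψ ∘ h ∘ Φ) (1 : unitInterval) (Ψ z) = (Ψ ∘ h ∘ Φ) (Ψ z) := by
      rcases (mem_closedBall_zero_iff.1 (m2 hz)).lt_or_eq with c | c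
      · rw [alexTh, if_pos (show ‖Ψ z‖ < ((1 : unitInterval) : ℝ) from c)]
        simp
      · rw [ts 1 _ (mem_sphere_zero_iff_norm.2 c), kf _ (mem_sphere_zero_iff_norm.2 c)]
    show Φ (alexTh (Ψ ∘ h ∘ Φ) (1 : unitInterval) (Ψ z)) = h z
    rw [e]
    show Φ (Ψ (h (Φ (Ψ z)))) = h z
    rw [p3 z hz, p3 _ (m3 hz)]
  · have z0 : (0 : ℂ) ∈ closedBall (0 : ℂ) 1 := mem_closedBall_self zero_le_one
    show Φ (alexTh (Ψ ∘ h ∘ Φ) t (Ψ (Φ 0))) = Φ 0
    rw [p2 0 z0, alexTh]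
    split_ifs
    · rw [zero_div, show (Ψ ∘ h ∘ Φ) 0 = 0 from (congrArg Ψ e).trans (p2 0 z0), mul_zero]
    · rfl

end

end Pool.Agent.PT
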