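import Pool.Agent.Lib.MP_c86c76_al.J.St

/-!
A conformal map onto the inside of a locally connected curve extends continuously.
-/

set_option autoImplicit false

namespace Pool.Agent.PT

open Set Metric Complex Filter Topology

theorem car_rank : 1 < Module.rank ℝ ℂ := by
  rw [Complex.rank_real_complex]
  norm_num

theorem car_out (p : ℂ) {η : ℝ} (hη : 0 < η) : IsPreconnected (closedBall p η)ᶜ := by
  have h : (closedBall p η)ᶜ =
      (fun x : ℝ × ℂ => p + (x.1 : ℂ) * x.2) '' (Ioi η ×ˢ sphere (0 : ℂ) 1) := by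
    ext z
    simp only [mem_compl_iff, mem_closedBall, not_le, mem_image, mem_prod, mem_Ioi,
      mem_sphere_zero_iff_norm, dist_eq_norm]
    constructor
    · intro hz
      have h0 : ‖z - p‖ ≠ 0 := (hη.trans hz).ne'
      have h1 : ((‖z - p‖ : ℝ) : ℂ) ≠ 0 := by exact_mod_cast h0
      refine ⟨(‖z - p‖, (z - p) / (‖z - p‖ : ℝ)), ⟨hz, ?_⟩, ?_⟩
      · simp [h0]
      · show p + (‖z - p‖ : ℝ) * ((z - p) / (‖z - p‖ : ℝ)) = z
        field_simp
        ring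
    · rintro ⟨⟨t, u⟩, ⟨h1, h2⟩, rfl⟩
      simp only [add_sub_cancel_left, norm_mul, Complex.norm_real, Real.norm_eq_abs] at *
      rw [h2, mul_one, abs_of_pos (hη.trans h1)]
      exact h1
  rw [h]
  exact (isPreconnected_Ioi.prod (isPreconnected_sphere car_rank 0 1)).image _
    (Continuous.continuousOn (by fun_prop))

theorem car_clos {J U : Set ℂ} (hU : Ins J U) {y : ℂ} (hy : y ∈ closure U) (hJ : y ∉ J) :
    y ∈ U := by
  by_contra h
  exact hJ (hU.fr ⟨hy, by rwa [hU.op.interior_eq]⟩)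

theorem car_proper {J U : Set ℂ} {F : ℂ → ℂ} (hU : Ins J U) (hF : Conf F U) {l : Filter ℂ}
    [l.NeBot] {ζ y : ℂ} (hζ : ‖ζ‖ = 1) (hl : l ≤ 𝓝[ball 0 1] ζ) (hy : Tendsto F l (𝓝 y)) :
    y ∈ J := by
  obtain ⟨G, hG, hGF⟩ := hF.inv
  have hb : ∀ᶠ z in l, z ∈ ball (0 : ℂ) 1 := hl self_mem_nhdsWithin
  by_contra hJ
  have hyU : y ∈ U := car_clos hU
    (mem_closure_of_tendsto hy (hb.mono fun z hz => hF.im ▸ mem_image_of_mem F hz)) hJ
  have h1 : Tendsto (fun z => G (F z)) l (𝓝 (G y)) :=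
    (hG.continuousAt (hU.op.mem_nhds hyU)).tendsto.comp hy
  have h2 : Tendsto (fun z => G (F z)) l (𝓝 ζ) :=
    (tendsto_id'.2 (hl.trans nhdsWithin_le_nhds)).congr' (hb.mono fun z hz => (hGF z hz).symm)
  have h3 := tendsto_nhds_unique h1 h2
  rw [← hF.im] at hyU
  obtain ⟨w, hw, rfl⟩ := hyU
  rw [hGF w hw] at h3
  rw [h3, mem_ball_zero_iff, hζ] at hw
  exact lt_irrefl _ hw

theorem car_acc {ζ : ℂ} {r : ℝ} (hζ : ‖ζ‖ = 1) (h0 : 0 < r) (h1 : r < 1) :
    ∃ ξ ∈ closure (ball (0 : ℂ) 1 ∩ sphere ζ r), ‖ξ‖ = 1 := by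
  have hs : ∀ t : ℝ, |t| = r → ((1 + t : ℝ) : ℂ) * ζ ∈ sphere ζ r := by
    intro t ht
    rw [mem_sphere, dist_eq_norm, show ((1 + t : ℝ) : ℂ) * ζ - ζ = (t : ℂ) * ζ by push_cast; ring,
      norm_mul, hζ, mul_one, Complex.norm_real, Real.norm_eq_abs, ht]
  have hn : ∀ t : ℝ, 0 ≤ 1 + t → ‖((1 + t : ℝ) : ℂ) * ζ‖ = 1 + t := by
    intro t ht
    rw [norm_mul, hζ, mul_one, Complex.norm_real, Real.norm_eq_abs, abs_of_nonneg ht]
  obtain ⟨ξ, -, h2, h3⟩ := isPreconnected_closed_iff.1 (isPreconnected_sphere car_rank ζ r)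
    (closure (ball (0 : ℂ) 1 ∩ sphere ζ r)) (ball (0 : ℂ) 1)ᶜ isClosed_closure
    isOpen_ball.isClosed_compl
    (fun z hz => by
      by_cases h : z ∈ ball (0 : ℂ) 1
      · exact Or.inl (subset_closure ⟨h, hz⟩)
      · exact Or.inr h)
    ⟨_, hs (-r) (by rw [abs_neg, abs_of_pos h0]), subset_closure
      ⟨by rw [mem_ball_zero_iff, hn _ (by linarith)]; linarith,
        hs (-r) (by rw [abs_neg, abs_of_pos h0])⟩⟩
    ⟨_, hs r (abs_of_pos h0), by
      rw [mem_compl_iff, mem_ball_zero_iff, hn _ (by linarith)]; linarith⟩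
  refine ⟨ξ, h2, le_antisymm ?_ (by simpa using h3)⟩
  have h4 := closure_mono inter_subset_left h2
  rw [closure_ball _ one_ne_zero] at h4
  simpa using h4

theorem car_small (h1 : JanSt) (h2 : LenSt) {J U : Set ℂ} {F : ℂ → ℂ} (hJ : IsCompact J)
    (hL : ULC J) (hU : Ins J U) (hF : Conf F U) {η : ℝ} (hη : 0 < η) :
    ∃ δ > 0, ∀ ζ : ℂ, ‖ζ‖ = 1 → ∃ p : ℂ, ∀ z ∈ ball (0 : ℂ) 1 ∩ ball ζ δ,
      F z ∈ closedBall p η := by
  have hFU : ∀ z ∈ ball (0 : ℂ) 1, F z ∈ U := fun z hz => hF.im ▸ mem_image_of_mem F hz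
  have h00 : (0 : ℂ) ∈ ball (0 : ℂ) 1 := mem_ball_self one_pos
  obtain ⟨ρ, hρ, hρU⟩ := Metric.isOpen_iff.1 hU.op _ (hFU 0 h00)
  set η' := min η (ρ / 2) with hη'
  have hη0 : 0 < η' := lt_min hη (by linarith)
  obtain ⟨ε0, hε0, hα⟩ := hL η' hη0
  obtain ⟨δ, hδ, hlen⟩ := h2 F hF.hol hF.inj (hF.im ▸ hU.bd) (min ε0 η') (lt_min hε0 hη0)
  refine ⟨δ, hδ, fun ζ hζ => ?_⟩
  obtain ⟨r, hδr, hr1, ⟨p, q, hpq⟩, hd⟩ := hlen ζ hζ
  set C := ball (0 : ℂ) 1 ∩ sphere ζ r with hC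
  have hCU : F '' C ⊆ U := by
    rintro _ ⟨z, hz, rfl⟩
    exact hFU z hz.1
  have hK : IsCompact (closure (F '' C)) := (hU.bd.subset hCU).isCompact_closure
  have hdc : ∀ a ∈ closure (F '' C), ∀ b ∈ closure (F '' C), dist a b ≤ min ε0 η' := by
    have k1 : ∀ b ∈ F '' C, closure (F '' C) ⊆ closedBall b (min ε0 η') := by
      rintro _ ⟨w, hw, rfl⟩
      refine closure_minimal ?_ isClosed_closedBall
      rintro _ ⟨z, hz, rfl⟩
      exact hd z hz w hw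
    intro a ha b hb
    have k2 : closure (F '' C) ⊆ closedBall a (min ε0 η') :=
      closure_minimal (fun b hb => mem_closedBall'.2 (k1 b hb ha)) isClosed_closedBall
    exact mem_closedBall'.1 (k2 hb)
  obtain ⟨p0, hp0, hp0J⟩ : ∃ y ∈ closure (F '' C), y ∈ J := by
    obtain ⟨ξ, hξ, hξ1⟩ := car_acc hζ (hδ.trans hδr) hr1
    have : (𝓝[C] ξ).NeBot := mem_closure_iff_nhdsWithin_neBot.1 hξ
    have hl : (Ultrafilter.of (𝓝[C] ξ) : Filter ℂ) ≤ 𝓝[C] ξ := Ultrafilter.of_le _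
    obtain ⟨y, hy, hyl⟩ := hK.ultrafilter_le_nhds ((Ultrafilter.of (𝓝[C] ξ)).map F) (by
      rw [le_principal_iff, Ultrafilter.coe_map, mem_map]
      exact mem_of_superset (hl self_mem_nhdsWithin) fun z hz =>
        subset_closure (mem_image_of_mem F hz))
    exact ⟨y, hy, car_proper hU hF hξ1 (hl.trans (nhdsWithin_mono _ inter_subset_left)) hyl⟩
  have hT : ∀ y ∈ closure (F '' C), y ∈ J → y = p ∨ y = q := by
    intro y hy hyJ
    rcases hpq hy with h | h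
    · exact absurd hyJ (disjoint_left.1 hU.dis (hCU h))
    · exact h
  obtain ⟨q0, hq0, hq0J, hT0⟩ : ∃ q0 ∈ closure (F '' C), q0 ∈ J ∧
      ∀ y ∈ closure (F '' C), y ∈ J → y = p0 ∨ y = q0 := by
    by_cases h : ∀ y ∈ closure (F '' C), y ∈ J → y = p0
    · exact ⟨p0, hp0, hp0J, fun y a b => Or.inl (h y a b)⟩
    · push Not at h
      obtain ⟨q0, a, b, c⟩ := h
      refine ⟨q0, a, b, fun y hy hyJ => ?_⟩
      have e1 := hT p0 hp0 hp0J
      have e2 := hT q0 a b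
      have e3 := hT y hy hyJ
      grind
  obtain ⟨α, hαJ, hαc, hαp, hpα, hqα, hαb⟩ :=
    hα p0 hp0J q0 hq0J ((hdc p0 hp0 q0 hq0).trans (min_le_left _ _))
  refine ⟨p0, fun z hz => ?_⟩
  refine closedBall_subset_closedBall (min_le_left η (ρ / 2)) ?_
  by_contra hz'
  have hX : closure (F '' C) ∪ α ⊆ closedBall p0 η' := by
    rintro y (hy | hy)
    · exact (hdc y hy p0 hp0).trans (min_le_right _ _)
    · exact ball_subset_closedBall (hαb hy)
  have hXJ : (closure (F '' C) ∪ α) ∩ J = α := by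
    refine Subset.antisymm ?_ fun y hy => ⟨Or.inr hy, hαJ hy⟩
    rintro y ⟨hy | hy, hyJ⟩
    · rcases hT0 y hy hyJ with rfl | rfl
      exacts [hpα, hqα]
    · exact hy
  have h0' : F 0 ∉ closedBall p0 η' := by
    intro h
    refine disjoint_left.1 hU.dis (hρU ?_) hp0J
    rw [mem_ball']
    exact lt_of_le_of_lt (le_trans h (min_le_right _ _)) (by linarith)
  have hUJ : U ⊆ Jᶜ := fun y hy => disjoint_left.1 hU.dis hy
  have hW := h1 (closure (F '' C) ∪ α) J (F 0) (F z) (hK.union hαc) hJ (hXJ.symm ▸ hαp)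
    ((car_out p0 hη0).subset_connectedComponentIn h0' (compl_subset_compl.2 hX) hz')
    (hU.con.subset_connectedComponentIn (hFU 0 h00) hUJ (hFU z hz.1))
  have hW0 : F 0 ∈ connectedComponentIn (closure (F '' C) ∪ α ∪ J)ᶜ (F 0) := by
    refine mem_connectedComponentIn ?_
    rintro (h | h)
    · exact h0' (hX h)
    · exact hUJ (hFU 0 h00) h
  have hWs := connectedComponentIn_subset (closure (F '' C) ∪ α ∪ J)ᶜ (F 0)
  have hWc : IsPreconnected (connectedComponentIn (closure (F '' C) ∪ α ∪ J)ᶜ (F 0)) :=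
    isPreconnected_connectedComponentIn
  have hWU : connectedComponentIn (closure (F '' C) ∪ α ∪ J)ᶜ (F 0) ⊆ U :=
    hWc.subset_of_closure_inter_subset hU.op ⟨_, hW0, hFU 0 h00⟩
      fun y hy => car_clos hU hy.1 fun h => hWs hy.2 (Or.inr h)
  obtain ⟨G, hG, hGF⟩ := hF.inv
  have hc : ContinuousOn (fun y => dist (G y) ζ)
      (connectedComponentIn (closure (F '' C) ∪ α ∪ J)ᶜ (F 0)) :=
    (continuous_id.dist continuous_const).comp_continuousOn (hG.mono hWU)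
  obtain ⟨y, hy, hyr⟩ := hWc.intermediate_value hW hW0 hc (show r ∈ Icc _ _ from
    ⟨by rw [hGF z hz.1]; exact (lt_trans hz.2 hδr).le,
      by rw [hGF 0 h00, dist_zero_left, hζ]; exact hr1.le⟩)
  have hyU := hWU hy
  rw [← hF.im] at hyU
  obtain ⟨w, hw, rfl⟩ := hyU
  simp only [hGF w hw] at hyr
  exact hWs hy (Or.inl (Or.inl (subset_closure ⟨w, ⟨hw, hyr⟩, rfl⟩)))

theorem carContSt (h1 : JanSt) (h2 : LenSt) : CarContSt := by
  intro J U F hJ hL hU hF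
  have hcl : closedBall (0 : ℂ) 1 ⊆ closure (ball 0 1) := (closure_ball _ one_ne_zero).ge
  have hlim : ∀ ζ ∈ closedBall (0 : ℂ) 1, ∃ y, Tendsto F (𝓝[ball 0 1] ζ) (𝓝 y) := by
    intro ζ hζ
    have : (𝓝[ball (0 : ℂ) 1] ζ).NeBot := mem_closure_iff_nhdsWithin_neBot.1 (hcl hζ)
    rcases (mem_closedBall_zero_iff.1 hζ).lt_or_eq with h | h
    · exact ⟨F ζ, hF.hol.continuousOn ζ (mem_ball_zero_iff.2 h)⟩
    · refine cauchy_map_iff_exists_tendsto.1 (Metric.cauchy_iff.2 ⟨inferInstance, fun ε hε => ?_⟩)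
      obtain ⟨δ, hδ, hs⟩ := car_small h1 h2 hJ hL hU hF (show 0 < ε / 3 by linarith)
      obtain ⟨p, hp⟩ := hs ζ h
      refine ⟨closedBall p (ε / 3), mem_map.2 (mem_of_superset
        (inter_mem_nhdsWithin _ (ball_mem_nhds ζ hδ)) hp), fun x hx y hy => ?_⟩
      have a := dist_triangle_right x y p
      have b : dist x p ≤ ε / 3 := hx
      have c : dist y p ≤ ε / 3 := hy
      linarith
  refine ⟨extendFrom (ball 0 1) F, continuousOn_extendFrom hcl hlim,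
    extendFrom_extends hF.hol.continuousOn, fun ζ hζ => ?_⟩
  have hζ' := sphere_subset_closedBall hζ
  have : (𝓝[ball (0 : ℂ) 1] ζ).NeBot := mem_closure_iff_nhdsWithin_neBot.1 (hcl hζ')
  exact car_proper hU hF (mem_sphere_zero_iff_norm.1 hζ) le_rfl (tendsto_extendFrom (hlim ζ hζ'))

end Pool.Agent.PT
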