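import Pool.Agent.Lib.MP_c86c76_al.J.St
import Pool.Agent.Lib.MP_65c801_co.Eilen

/-!
The separation criterion of Eilenberg and the theorem of Janiszewski.
-/

set_option autoImplicit false

namespace Pool.Agent.PT

open Set Metric Complex Filter Topology Pool.Agent.Lib.MP_65c801_co

open Classical in
theorem eil_bd {K : Set ℂ} {p q : ℂ} (hK : IsClosed K) (hp : p ∉ K) (hq : q ∉ K)
    (hne : ¬ NSep K p q) (hU : Bornology.IsBounded (connectedComponentIn Kᶜ p)) :
    ¬ HasLog K fun z => (z - p) / (z - q) := by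
  rintro ⟨l, hl, he⟩
  set U := connectedComponentIn Kᶜ p
  have hUo : IsOpen U := hK.isOpen_compl.connectedComponentIn
  obtain ⟨g, hg⟩ := ContinuousMap.exists_restrict_eq hK ⟨K.domRestrict l, hl.domRestrict⟩
  have hH : Continuous fun z => if z ∈ U then exp (g z) * (z - q) else z - p := by
    refine continuous_if (fun z hz => ?_) (by fun_prop) (by fun_prop)
    have hz' : z ∈ closure U \ U := hUo.frontier_eq ▸ hz
    have h := (EilenAux.closure_sub hK p hz'.1).resolve_left hz'.2
    rw [show g z = l z from DFunLike.congr_fun hg ⟨z, h⟩, he z h,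
      div_mul_cancel₀ _ (sub_ne_zero.2 fun e : z = q => hq (e ▸ h))]
  obtain ⟨L, hL, hle⟩ := EilenAux.exists_log hH fun z => by
    split_ifs with hz
    · exact mul_ne_zero (exp_ne_zero _) (sub_ne_zero.2 fun e => hne (e ▸ hz))
    · exact sub_ne_zero.2 fun e => hz (e ▸ mem_connectedComponentIn hp)
  obtain ⟨R, hR0, hR⟩ := hU.subset_ball_lt 0 p
  have hout : ∀ φ : ℝ, p + exp (Real.log R + φ * I) ∉ U := fun φ hφ => by
    have := hR hφ
    rw [mem_ball_iff_norm, add_sub_cancel_left, norm_exp] at this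
    simp [Real.exp_log hR0] at this
  have h3 := EilenAux.const
    (f := fun φ : ℝ => (Real.log R + φ * I) - L (p + exp (Real.log R + φ * I))) (by fun_prop)
    (fun φ => by rw [exp_sub, hle, if_neg (hout φ), add_sub_cancel_left, div_self (exp_ne_zero _)])
    (2 * Real.pi) 0
  push_cast at h3
  rw [exp_add, exp_two_pi_mul_I, zero_mul, add_zero, mul_one] at h3
  exact two_pi_I_ne_zero (by linear_combination h3)

theorem eilSt (h : LogHtpSt) : EilSt := by
  intro K p q hK hp hq
  refine ⟨fun hs => h ℂ _ K (fun t z => z - t) isPreconnected_connectedComponentIn hK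
    (by fun_prop) (fun t ht z hz => sub_ne_zero.2 fun e : z = t =>
      connectedComponentIn_subset Kᶜ p ht (e ▸ hz)) p (mem_connectedComponentIn hp) q hs,
    fun hl => by_contra fun hne => ?_⟩
  by_cases hU : Bornology.IsBounded (connectedComponentIn Kᶜ p)
  · exact eil_bd hK.isClosed hp hq hne hU hl
  refine eil_bd hK.isClosed hq hp
    (fun h => hne (by rw [NSep, ← connectedComponentIn_eq h]; exact mem_connectedComponentIn hq))
    (by_contra fun h => hne ?_) ?_
  · rw [NSep, EilenAux.bounded hK.isBounded hU h]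
    exact mem_connectedComponentIn hq
  · obtain ⟨l, h1, h2⟩ := hl
    exact ⟨fun z => -l z, h1.neg, fun z hz => by rw [exp_neg, h2 z hz, inv_div]⟩

open Classical in
theorem janSt (h : EilSt) : JanSt := by
  intro X Y p q hX hY hXY h1 h2
  have a : ∀ {K : Set ℂ}, NSep K p q → p ∉ K ∧ q ∉ K := fun h =>
    ⟨connectedComponentIn_nonempty_iff.1 ⟨q, h⟩, connectedComponentIn_subset _ _ h⟩
  obtain ⟨l, c1, e1⟩ := (h X p q hX (a h1).1 (a h1).2).1 h1
  obtain ⟨m, c2, e2⟩ := (h Y p q hY (a h2).1 (a h2).2).1 h2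
  have b : ∀ z ∈ X ∩ Y, exp (l z - m z) = 1 := fun z hz => by
    rw [exp_sub, e1 z hz.1, ← e2 z hz.2, div_self (exp_ne_zero _)]
  obtain ⟨c, hc, hc'⟩ : ∃ c, exp c = 1 ∧ ∀ z ∈ X ∩ Y, l z - m z = c := by
    rcases (X ∩ Y).eq_empty_or_nonempty with e | ⟨w, hw⟩
    · exact ⟨0, exp_zero, fun z hz => absurd (e ▸ hz) (notMem_empty z)⟩
    refine ⟨_, b w hw, fun z hz => (countable_range fun n : ℤ =>
      (n : ℂ) * (2 * Real.pi * I)).isTotallyDisconnected _ ?_ (hXY.image (fun z => l z - m z)
        ((c1.mono inter_subset_left).sub (c2.mono inter_subset_right))) ⟨z, hz, rfl⟩ ⟨w, hw, rfl⟩⟩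
    rintro _ ⟨u, hu, rfl⟩
    obtain ⟨n, hn⟩ := exp_eq_one_iff.1 (b u hu)
    exact ⟨n, hn.symm⟩
  refine (h _ p q (hX.union hY) (fun e => e.elim (a h1).1 (a h2).1)
    fun e => e.elim (a h1).2 (a h2).2).2 ⟨fun z => if z ∈ X then l z else m z + c,
      ContinuousOn.union_of_isClosed (c1.congr fun z hz => if_pos hz)
        ((c2.add continuousOn_const (g := fun _ => c)).congr fun z hz => ?_) hX.isClosed
        hY.isClosed, fun z hz => ?_⟩
  · split_ifs with e
    · exact eq_add_of_sub_eq' (hc' z ⟨e, hz⟩)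
    · rfl
  · dsimp only
    split_ifs with e
    · exact e1 z e
    · rw [exp_add, hc, mul_one]
      exact e2 z (hz.resolve_left e)

end Pool.Agent.PT
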