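import Pool.Agent.Lib.MP_c86c76_al.J.St

/-!
The theorems of Montel and Hurwitz.
-/

set_option autoImplicit false

namespace Pool.Agent.PT

open Set Metric Complex Filter Topology

theorem montelSt : MontelSt := by
  intro U F l hU hd hm
  have h1 : ∀ z, ∃ w, z ∈ U → Tendsto (fun n => F n z) l (𝓝 w) := fun z => by
    by_cases hz : z ∈ U
    · obtain ⟨w, -, hw⟩ := (isCompact_closedBall (0 : ℂ) 1).ultrafilter_le_nhds
        (l.map fun n => F n z) (le_principal_iff.2 (mem_map.2
          (Eventually.of_forall fun n => ball_subset_closedBall (hm n hz))))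
      exact ⟨w, fun _ => hw⟩
    · exact ⟨0, fun h => absurd h hz⟩
  choose f hf using h1
  refine ⟨f, Metric.tendstoLocallyUniformlyOn_iff.2 fun ε hε x hx => ?_⟩
  obtain ⟨r, r0, hr⟩ := Metric.isOpen_iff.1 hU x hx
  have h2 : ∀ n, ∀ y ∈ ball x r, dist (F n y) (F n x) ≤ 2 / r * dist y x := fun n y hy => by
    refine dist_le_div_mul_dist_of_mapsTo_ball ((hd n).mono hr) (fun z hz => ?_) hy
    have a := mem_ball.1 (hm n (hr hz))
    have b := mem_ball.1 (hm n hx)
    have c := dist_triangle_right (F n z) (F n x) 0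
    exact mem_closedBall.2 (by linarith)
  have h3 : ∀ y ∈ ball x r, dist (f y) (f x) ≤ 2 / r * dist y x := fun y hy =>
    le_of_tendsto' ((hf y (hr hy)).dist (hf x hx)) fun n => h2 n y hy
  refine ⟨ball x r ∩ {y | 2 / r * dist y x < ε / 3}, mem_nhdsWithin_of_mem_nhds
    (inter_mem (ball_mem_nhds x r0) ((isOpen_lt (by fun_prop) (by fun_prop)).mem_nhds
      (by simpa using hε))), ?_⟩
  filter_upwards [Metric.tendsto_nhds.1 (hf x hx) (ε / 3) (by positivity)] with n hn y hy
  have a := h2 n y hy.1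
  have b := h3 y hy.1
  have c : 2 / r * dist y x < ε / 3 := hy.2
  have d := dist_triangle4 (f y) (f x) (F n x) (F n y)
  rw [dist_comm] at a hn
  linarith

theorem hur_loc {U : Set ℂ} {F : ℕ → ℂ → ℂ} {f : ℂ → ℂ} {l : Ultrafilter ℕ} (hU : IsOpen U)
    (hd : ∀ n, DifferentiableOn ℂ (F n) U) (ht : TendstoLocallyUniformlyOn F f l U) {c : ℕ → ℂ}
    {c0 z0 : ℂ} (hc : Tendsto c l (𝓝 c0)) (h0 : z0 ∈ U) (hF : ∀ᶠ z in 𝓝 z0, ∀ n, F n z ≠ c n)
    (hf : ∀ᶠ z in 𝓝[≠] z0, f z ≠ c0) : f z0 ≠ c0 := by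
  intro e
  have cf : ContinuousOn f U :=
    (ht.differentiableOn (Eventually.of_forall hd) hU).continuousOn
  obtain ⟨r, r0, hr⟩ := nhds_basis_closedBall.eventually_iff.1
    ((hF.and (eventually_nhdsWithin_iff.1 hf)).and (hU.eventually_mem h0))
  have hs : closedBall z0 r ⊆ U := fun z hz => (hr hz).2
  obtain ⟨w, hw, hm⟩ := (isCompact_sphere z0 r).exists_isMinOn (NormedSpace.sphere_nonempty.2 r0.le)
    (((cf.mono (sphere_subset_closedBall.trans hs)).sub (continuousOn_const (c := c0))).norm)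
  have d0 : 0 < ‖f w - c0‖ := norm_sub_pos_iff.2
    ((hr (sphere_subset_closedBall hw)).1.2 (ne_of_mem_sphere hw r0.ne'))
  set d := ‖f w - c0‖ with hd'
  obtain ⟨n, h1, h2⟩ := ((Metric.tendstoUniformlyOn_iff.1
    ((tendstoLocallyUniformlyOn_iff_tendstoUniformlyOn_of_compact (isCompact_closedBall z0 r)).1
      (ht.mono hs)) (d / 4) (by positivity)).and
        (Metric.tendsto_nhds.1 hc (d / 4) (by positivity))).exists
  have h3 : ∀ z ∈ closedBall z0 r, F n z - c n ≠ 0 := fun z hz => sub_ne_zero.2 ((hr hz).1.1 n)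
  have h4 : ∀ z ∈ closedBall z0 r, dist (F n z - c n) (f z - c0) < d / 2 := fun z hz => by
    have a := h1 z hz
    have b := dist_sub_sub_le (F n z) (c n) (f z) c0
    rw [dist_comm] at a
    linarith
  have h5 : ‖(F n z0 - c n)⁻¹‖ ≤ (d / 2)⁻¹ := by
    refine norm_le_of_forall_mem_frontier_norm_le (f := fun z => (F n z - c n)⁻¹)
      (isBounded_ball (x := z0) (r := r)) (DifferentiableOn.diffContOnCl ?_) (fun z hz => ?_)
      (subset_closure (mem_ball_self r0))
    · rw [closure_ball z0 r0.ne']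
      exact (((hd n).mono hs).sub_const _).inv h3
    · rw [frontier_ball z0 r0.ne'] at hz
      have a := h4 z (sphere_subset_closedBall hz)
      have b : d ≤ ‖f z - c0‖ := hm hz
      have c := norm_sub_norm_le (f z - c0) (F n z - c n)
      rw [dist_comm, dist_eq_norm] at a
      rw [norm_inv]
      exact inv_anti₀ (by positivity) (by linarith)
  have h6 := h4 z0 (mem_closedBall_self r0.le)
  rw [e, sub_self, dist_zero_right] at h6
  rw [norm_inv, inv_le_inv₀ (norm_pos_iff.2 (h3 z0 (mem_closedBall_self r0.le)))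
    (by positivity)] at h5
  linarith

theorem hurSt : HurSt := by
  intro U F f l hU hc hd ht
  have an : AnalyticOnNhd ℂ f U :=
    (ht.differentiableOn (Eventually.of_forall hd) hU).analyticOnNhd hU
  have key : ∀ c, (∀ z ∈ U, f z = c) ∨ ∀ z ∈ U, ∀ᶠ w in 𝓝[≠] z, f w ≠ c := fun c => by
    refine or_iff_not_imp_right.2 fun h => ?_
    push Not at h
    obtain ⟨z, hz, h⟩ := h
    exact an.eqOn_of_preconnected_of_frequently_eq analyticOnNhd_const hc hz h
  refine ⟨fun h => (key 0).imp_right fun k z hz => hur_loc hU hd ht tendsto_const_nhds hz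
    ((hU.eventually_mem hz).mono fun w hw n => h n w hw) (k z hz), fun h => ?_⟩
  refine or_iff_not_imp_left.2 fun k a ha b hb e => by_contra fun ne => ?_
  refine hur_loc hU hd ht (ht.tendsto_at ha) hb ?_
    (((key (f a)).resolve_left fun m => k ⟨_, m⟩) b hb) e.symm
  filter_upwards [hU.eventually_mem hb, eventually_ne_nhds (Ne.symm ne)] with w hw hw' n
  exact fun q => hw' (h n hw ha q)

end Pool.Agent.PT
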