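import Pool.Agent.Lib.MP_c86c76_al.J.St

/-!
The extension of a conformal map to the closed disc is injective.
-/

set_option autoImplicit false

namespace Pool.Agent.PT

open Set Metric Complex Filter Topology

theorem bdConstSt : BdConstSt := fun Φ ξ p ε hc hd hi hξ hε => by
  by_contra! h
  obtain ⟨t, ht, hf, hcov⟩ := finite_cover_balls_of_compact (isCompact_sphere (0 : ℂ) 1) hε
  have hn : ∀ c ∈ t, ‖c‖ = 1 := fun c hc => by simpa using ht hc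
  have hm : ∀ c ∈ t, ∀ z : ℂ, ‖ξ / c * z‖ = ‖z‖ := fun c hc z => by simp [hξ, hn c hc]
  have hdc : DiffContOnCl ℂ (fun z => ∏ c ∈ hf.toFinset, (Φ (ξ / c * z) - p)) (ball 0 1) := by
    refine ⟨DifferentiableOn.fun_finsetProd fun c hc' => ?_, ?_⟩
    · refine (hd.comp (by fun_prop) fun z hz => ?_).sub_const p
      simpa [hξ, hn c (hf.mem_toFinset.1 hc')] using hz
    · rw [closure_ball _ one_ne_zero]
      refine continuousOn_finsetProd _ fun c hc' => ?_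
      refine (hc.comp (by fun_prop) fun z hz => ?_).sub continuousOn_const
      simpa [hξ, hn c (hf.mem_toFinset.1 hc')] using hz
  have h0 := eqOn_of_eqOn_frontier (g := fun _ => (0 : ℂ)) isBounded_ball hdc
    diffContOnCl_const fun z hz => by
      rw [frontier_ball _ one_ne_zero] at hz
      obtain ⟨c, hc', hz'⟩ := mem_iUnion₂.1 (hcov hz)
      refine Finset.prod_eq_zero (hf.mem_toFinset.2 hc') (sub_eq_zero.2 (h _ ?_ ?_))
      · rw [hm c hc']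
        simpa using hz
      · have c0 : c ≠ 0 := norm_ne_zero_iff.1 (by rw [hn c hc']; exact one_ne_zero)
        rw [dist_eq_norm, show ξ / c * z - ξ = ξ / c * (z - c) by field_simp, hm c hc',
          ← dist_eq_norm]
        exact hz'
  refine infinite_of_mem_nhds (0 : ℂ) (ball_mem_nhds 0 one_pos)
    ((hf.biUnion (t := fun c => {z ∈ ball (0 : ℂ) 1 | Φ (ξ / c * z) = p}) fun c hc' =>
      Set.Subsingleton.finite fun z hz w hw => ?_).subset fun z hz => ?_)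
  · have c0 : ξ / c ≠ 0 := norm_ne_zero_iff.1 (by simp [hξ, hn c hc'])
    refine mul_left_cancel₀ c0 (hi ?_ ?_ (hz.2.trans hw.2.symm))
    · simpa [hξ, hn c hc'] using hz.1
    · simpa [hξ, hn c hc'] using hw.1
  · obtain ⟨c, hc', e⟩ := Finset.prod_eq_zero_iff.1 (h0 hz)
    exact mem_iUnion₂.2 ⟨c, hf.mem_toFinset.1 hc', hz, sub_eq_zero.1 e⟩

/-- The radius to `ζ`. -/
def injR (ζ : ℂ) : Set ℂ := (fun t : ℝ => (t : ℂ) * ζ) '' Icc 0 1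

theorem inj_slit {ζ z : ℂ} (hζ : ‖ζ‖ = 1) (h : -z / ζ ∉ slitPlane) : z = ‖z‖ * ζ := by
  have c0 : ζ ≠ 0 := norm_ne_zero_iff.1 (by rw [hζ]; exact one_ne_zero)
  rw [mem_slitPlane_iff, not_or, not_lt, not_not, neg_div, neg_re, neg_im, neg_eq_zero,
    neg_nonpos] at h
  have e : z / ζ = ((z / ζ).re : ℂ) := Complex.ext rfl (by simpa using h.2)
  have e2 : ‖z‖ = (z / ζ).re := by
    rw [← Complex.norm_of_nonneg h.1, ← e, norm_div, hζ, div_one]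
  rw [e2, ← e, div_mul_cancel₀ _ c0]

theorem inj_pt {ζ : ℂ} (hζ : ‖ζ‖ = 1) {s : ℝ} (h1 : -Real.pi < s) (h2 : s < Real.pi) :
    ∃ ξ : ℂ, ‖ξ‖ = 1 ∧ -ξ / ζ ∈ slitPlane ∧ arg (-ξ / ζ) = s := by
  have c0 : ζ ≠ 0 := norm_ne_zero_iff.1 (by rw [hζ]; exact one_ne_zero)
  have e : -(-(exp (s * I) * ζ)) / ζ = exp (s * I) := by field_simp
  have e2 : arg (exp (s * I)) = s := by rw [exp_mul_I, arg_cos_add_sin_mul_I ⟨h1, h2.le⟩]
  refine ⟨-(exp (s * I) * ζ), by simp [hζ], ?_, by rw [e, e2]⟩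
  rw [e, mem_slitPlane_iff_arg, e2]
  exact ⟨h2.ne, exp_ne_zero _⟩

theorem inj_cont (ζ : ℂ) : ContinuousOn (fun z => arg (-z / ζ)) {z | -z / ζ ∈ slitPlane} :=
  continuousOn_arg.comp (by fun_prop) fun _ h => h

theorem inj_open (ζ : ℂ) {S : Set ℝ} (hS : IsOpen S) :
    IsOpen ({z | -z / ζ ∈ slitPlane} ∩ (fun z => arg (-z / ζ)) ⁻¹' S) :=
  (inj_cont ζ).isOpen_inter_preimage
    (isOpen_slitPlane.preimage (f := fun z => -z / ζ) (by fun_prop)) hS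

theorem inj_near {Φ : ℂ → ℂ} (hc : ContinuousOn Φ (closedBall 0 1)) {O C : Set ℂ} (hO : IsOpen O)
    (hC : IsOpen C) {ξ : ℂ} (h1 : ‖ξ‖ = 1) (h2 : ξ ∈ O) (h3 : Φ ξ ∈ C) :
    ∃ z ∈ ball (0 : ℂ) 1, z ∈ O ∧ Φ z ∈ C := by
  have m : ξ ∈ closedBall (0 : ℂ) 1 := by simp [h1]
  have := mem_closure_iff_nhdsWithin_neBot.1 (closure_ball (0 : ℂ) one_ne_zero ▸ m)
  have e1 : ∀ᶠ z in 𝓝[ball 0 1] ξ, Φ z ∈ C :=
    ((hc ξ m).mono ball_subset_closedBall).eventually (hC.mem_nhds h3)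
  have e2 : ∀ᶠ z in 𝓝[ball 0 1] ξ, z ∈ O := mem_nhdsWithin_of_mem_nhds (hO.mem_nhds h2)
  exact (eventually_mem_nhdsWithin.and (e2.and e1)).exists

theorem carInjSt (h1 : JanSt) (h2 : BdConstSt) : CarInjSt := by
  intro J U F Φ hJ hJp hI hF hc he hm
  have hU : ∀ z ∈ ball (0 : ℂ) 1, Φ z ∈ U := fun z hz => hF.im ▸ ⟨z, hz, (he hz).symm⟩
  have hUJ : ∀ y ∈ U, y ∉ J := fun y hy => disjoint_left.1 hI.dis hy
  have hi : InjOn Φ (ball 0 1) := fun z hz w hw e =>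
    hF.inj hz hw (by rw [← he hz, ← he hw, e])
  have hcs : ∀ z ∈ closedBall (0 : ℂ) 1, z ∈ ball (0 : ℂ) 1 ∨ z ∈ sphere (0 : ℂ) 1 :=
    fun z hz => ball_union_sphere.ge hz
  intro ζ₁ m₁ ζ₂ m₂ e
  rcases hcs _ m₁ with b₁ | s₁
  · rcases hcs _ m₂ with b₂ | s₂
    · exact hi b₁ b₂ e
    · exact absurd (e ▸ hm s₂) (hUJ _ (hU _ b₁))
  rcases hcs _ m₂ with b₂ | s₂
  · exact absurd (e ▸ hm s₁) (hUJ _ (hU _ b₂))
  by_contra hne
  have n₁ : ‖ζ₁‖ = 1 := by simpa using s₁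
  have n₂ : ‖ζ₂‖ = 1 := by simpa using s₂
  have c₁ : ζ₁ ≠ 0 := norm_ne_zero_iff.1 (by rw [n₁]; exact one_ne_zero)
  have hR : ∀ ζ : ℂ, ‖ζ‖ = 1 → IsCompact (injR ζ) ∧ ∀ z ∈ injR ζ, z ∈ ball (0 : ℂ) 1 ∨ z = ζ :=
    fun ζ n => ⟨isCompact_Icc.image (by fun_prop), by
      rintro _ ⟨t, ht, rfl⟩
      rcases ht.2.lt_or_eq with h | h
      · exact Or.inl (by simpa [n, abs_of_nonneg ht.1] using h)
      · exact Or.inr (by simp [h])⟩
  have hX : IsCompact (Φ '' (injR ζ₁ ∪ injR ζ₂)) :=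
    ((hR _ n₁).1.union (hR _ n₂).1).image_of_continuousOn (hc.mono (by
      rintro z (h | h)
      · exact ((hR _ n₁).2 z h).elim (fun b => ball_subset_closedBall b) fun b => b ▸ m₁
      · exact ((hR _ n₂).2 z h).elim (fun b => ball_subset_closedBall b) fun b => b ▸ m₂))
  have hXJ : ∀ y ∈ Φ '' (injR ζ₁ ∪ injR ζ₂), y ∈ J → y = Φ ζ₁ := by
    rintro _ ⟨z, h | h, rfl⟩ hy
    · exact ((hR _ n₁).2 z h).elim (fun b => absurd hy (hUJ _ (hU _ b))) fun b => b ▸ rfl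
    · exact ((hR _ n₂).2 z h).elim (fun b => absurd hy (hUJ _ (hU _ b))) fun b => b ▸ e.symm
  set X := Φ '' (injR ζ₁ ∪ injR ζ₂) with hXd
  have sl : -ζ₂ / ζ₁ ∈ slitPlane := by
    by_contra c
    exact hne (by simpa [n₂] using (inj_slit n₁ c).symm)
  have t1 := neg_pi_lt_arg (-ζ₂ / ζ₁)
  have t2 := (arg_le_pi (-ζ₂ / ζ₁)).lt_of_ne (slitPlane_arg_ne_pi sl)
  have pick : ∀ (S : Set ℝ) (s : ℝ), IsOpen S → s ∈ S → -Real.pi < s → s < Real.pi →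
      ∃ ξ : ℂ, ‖ξ‖ = 1 ∧ ξ ∈ {z | -z / ζ₁ ∈ slitPlane} ∩ (fun z => arg (-z / ζ₁)) ⁻¹' S ∧
        Φ ξ ∈ J \ {Φ ζ₁} := fun S s hS hs a b => by
    obtain ⟨ξ, k1, k2, k3⟩ := inj_pt n₁ a b
    obtain ⟨ε, ε0, hε⟩ := Metric.isOpen_iff.1 (inj_open ζ₁ hS) ξ
      ⟨k2, show arg (-ξ / ζ₁) ∈ S from k3 ▸ hs⟩
    obtain ⟨ξ', l1, l2, l3⟩ := h2 Φ ξ (Φ ζ₁) ε hc (hF.hol.congr he) hi k1 ε0
    exact ⟨ξ', l1, hε l2, hm (by simpa using l1), l3⟩
  obtain ⟨ξ₁, a1, a2, a3⟩ := pick (Iio (arg (-ζ₂ / ζ₁))) ((-Real.pi + arg (-ζ₂ / ζ₁)) / 2)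
    isOpen_Iio (by rw [mem_Iio]; linarith) (by linarith) (by linarith)
  obtain ⟨ξ₂, b1, b2, b3⟩ := pick (Ioi (arg (-ζ₂ / ζ₁))) ((Real.pi + arg (-ζ₂ / ζ₁)) / 2)
    isOpen_Ioi (by rw [mem_Ioi]; linarith) (by linarith) (by linarith)
  have hsub := (hJp (Φ ζ₁)).subset_connectedComponentIn (F := Xᶜ) a3
    fun y hy c => hy.2 (hXJ y c hy.1)
  have hC : IsOpen (connectedComponentIn Xᶜ (Φ ξ₁)) := hX.isClosed.isOpen_compl.connectedComponentIn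
  obtain ⟨z₁, p1, p2, p3⟩ := inj_near hc (inj_open ζ₁ isOpen_Iio) hC a1 a2 (hsub a3)
  obtain ⟨z₂, q1, q2, q3⟩ := inj_near hc (inj_open ζ₁ isOpen_Ioi) hC b1 b2 (hsub b3)
  have hN : NSep (X ∪ J) (Φ z₁) (Φ z₂) := h1 X J _ _ hX hJ
    (Set.Subsingleton.isPreconnected fun x hx y hy => (hXJ x hx.1 hx.2).trans (hXJ y hy.1 hy.2).symm)
    (show _ ∈ _ from connectedComponentIn_eq p3 ▸ q3)
    (hI.con.subset_connectedComponentIn (hU _ p1) hUJ (hU _ q1))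
  have w1 : Φ z₁ ∈ connectedComponentIn (X ∪ J)ᶜ (Φ z₁) :=
    mem_connectedComponentIn (connectedComponentIn_nonempty_iff.1 ⟨_, hN⟩)
  have w2 := connectedComponentIn_subset (X ∪ J)ᶜ (Φ z₁)
  have w3 : IsPreconnected (connectedComponentIn (X ∪ J)ᶜ (Φ z₁)) :=
    isPreconnected_connectedComponentIn
  have w4 : connectedComponentIn (X ∪ J)ᶜ (Φ z₁) ⊆ U :=
    w3.subset_of_closure_inter_subset hI.op ⟨_, w1, hU _ p1⟩ fun y hy =>
      ((closure_eq_self_union_frontier U).le hy.1).resolve_right fun c =>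
        w2 hy.2 (Or.inr (hI.fr c))
  obtain ⟨G, hG, hGF⟩ := hF.inv
  have hGΦ : ∀ z ∈ ball (0 : ℂ) 1, G (Φ z) = z := fun z hz => by rw [he hz, hGF z hz]
  have key : ∀ y ∈ connectedComponentIn (X ∪ J)ᶜ (Φ z₁), ∀ ζ, ζ = ζ₁ ∨ ζ = ζ₂ →
      G y ≠ ‖G y‖ * ζ := fun y hy ζ hζ c => by
    obtain ⟨z, hz, rfl⟩ := hF.im.ge (w4 hy)
    rw [hGF z hz] at c
    have m : z ∈ injR ζ := ⟨‖z‖, ⟨norm_nonneg _, (mem_ball_zero_iff.1 hz).le⟩, c.symm⟩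
    refine w2 hy (Or.inl ⟨z, ?_, he hz⟩)
    rcases hζ with rfl | rfl
    exacts [Or.inl m, Or.inr m]
  have hs : ∀ y ∈ connectedComponentIn (X ∪ J)ᶜ (Φ z₁), -G y / ζ₁ ∈ slitPlane := fun y hy => by
    by_contra c
    exact key y hy _ (Or.inl rfl) (inj_slit n₁ c)
  obtain ⟨y, hy, ey⟩ := w3.intermediate_value w1 hN ((inj_cont ζ₁).comp (hG.mono w4) hs)
    (show arg (-ζ₂ / ζ₁) ∈ Icc _ _ from ⟨by
      simpa only [Function.comp, hGΦ _ p1] using le_of_lt p2.2, by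
      simpa only [Function.comp, hGΦ _ q1] using le_of_lt q2.2⟩)
  have := (arg_eq_arg_iff (slitPlane_ne_zero sl) (slitPlane_ne_zero (hs y hy))).1 ey.symm
  refine key y hy ζ₂ (Or.inr rfl) ?_
  simp only [norm_div, norm_neg, n₁, n₂, div_one, ofReal_one] at this
  field_simp at this
  linear_combination this

end Pool.Agent.PT
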