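import Pool.Agent.Lib.MP_c86c76_al.J.St

/-!
Elementary properties of Jordan curves, and the complement of a bounded component.
-/

set_option autoImplicit false

namespace Pool.Agent.PT

open Set Metric Complex Filter Topology

theorem jprop_sphere : IsPreconnected (sphere (0 : ℂ) 1) :=
  isPreconnected_sphere (by rw [Complex.rank_real_complex]; norm_num) 0 1

theorem jprop_punct {x : ℂ} (hx : x ∈ sphere (0 : ℂ) 1) : IsPreconnected (sphere 0 1 \ {x}) := by
  have hx1 : ‖x‖ = 1 := mem_sphere_zero_iff_norm.1 hx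
  have hx0 : x ≠ 0 := by
    rintro rfl
    simp at hx1
  have h : sphere 0 1 \ {x} = (fun t : ℝ => -x * exp (t * I)) '' Ioo (-Real.pi) Real.pi := by
    ext z
    constructor
    · rintro ⟨hz, hzx⟩
      have hz1 : ‖z‖ = 1 := mem_sphere_zero_iff_norm.1 hz
      have h1 : ‖-z / x‖ = 1 := by rw [norm_div, norm_neg, hz1, hx1, div_one]
      have h2 := norm_mul_exp_arg_mul_I (-z / x)
      rw [h1, ofReal_one, one_mul] at h2
      refine ⟨arg (-z / x), ⟨neg_pi_lt_arg _, lt_of_le_of_ne (arg_le_pi _) fun h3 => hzx ?_⟩, ?_⟩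
      · rw [h3, exp_pi_mul_I, eq_div_iff hx0] at h2
        rw [mem_singleton_iff]
        linear_combination h2
      · change -x * exp (arg (-z / x) * I) = z
        rw [h2]
        field_simp
    · rintro ⟨t, ht, rfl⟩
      refine ⟨?_, fun h1 => ?_⟩
      · rw [mem_sphere_zero_iff_norm, norm_mul, norm_neg, hx1, norm_exp_ofReal_mul_I, one_mul]
      · have h2 : exp (t * I) = -1 := by
          have h3 : -x * exp (t * I) = x := h1
          refine mul_left_cancel₀ hx0 ?_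
          linear_combination -h3
        have h4 := arg_cos_add_sin_mul_I (θ := t) ⟨ht.1, ht.2.le⟩
        rw [← exp_mul_I, h2, arg_neg_one] at h4
        exact ht.2.ne' h4
  rw [h]
  exact isPreconnected_Ioo.image _ (by fun_prop)

theorem jprop_inv {K : Set ℂ} {f : ℂ → ℂ} (hK : IsCompact K) (hf : ContinuousOn f K)
    (hi : InjOn f K) : ContinuousOn (Function.invFunOn f K) (f '' K) := by
  rw [continuousOn_iff_isClosed]
  intro C hC
  refine ⟨f '' (K ∩ C), ((hK.inter_right hC).image_of_continuousOn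
    (hf.mono inter_subset_left)).isClosed, ?_⟩
  ext w
  constructor
  · rintro ⟨h1, z, hz, rfl⟩
    rw [mem_preimage, hi.leftInvOn_invFunOn hz] at h1
    exact ⟨⟨z, ⟨hz, h1⟩, rfl⟩, z, hz, rfl⟩
  · rintro ⟨⟨z, ⟨hz, h1⟩, rfl⟩, h2⟩
    refine ⟨?_, h2⟩
    rwa [mem_preimage, hi.leftInvOn_invFunOn hz]

theorem jprop_real {h : ℂ → ℝ} (hc : ContinuousOn h (sphere 0 1)) (hi : InjOn h (sphere 0 1)) :
    False := by
  have h1 : (1 : ℂ) ∈ sphere (0 : ℂ) 1 := by simp
  have h2 : (-1 : ℂ) ∈ sphere (0 : ℂ) 1 := by simp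
  have h3 : h 1 ≠ h (-1) := fun e => by
    have := hi h1 h2 e
    norm_num at this
  have h4 : (h 1 + h (-1)) / 2 ∈ uIcc (h 1) (h (-1)) := by
    rcases le_total (h 1) (h (-1)) with e | e
    · rw [uIcc_of_le e]
      constructor <;> linarith
    · rw [uIcc_of_ge e]
      constructor <;> linarith
  obtain ⟨w, hw, e⟩ := (jprop_sphere.image h hc).ordConnected.uIcc_subset
    (mem_image_of_mem h h1) (mem_image_of_mem h h2) h4
  have h5 : (1 : ℂ) ∈ sphere (0 : ℂ) 1 \ {w} := ⟨h1, fun e' => h3 (by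
    rw [← mem_singleton_iff.1 e'] at e
    linarith)⟩
  have h6 : (-1 : ℂ) ∈ sphere (0 : ℂ) 1 \ {w} := ⟨h2, fun e' => h3 (by
    rw [← mem_singleton_iff.1 e'] at e
    linarith)⟩
  obtain ⟨w', hw', e'⟩ := ((jprop_punct hw).image h (hc.mono sdiff_subset)).ordConnected.uIcc_subset
    (mem_image_of_mem h h5) (mem_image_of_mem h h6) h4
  exact hw'.2 (hi hw'.1 hw (e'.trans e.symm))

theorem jprop_arc {x y : ℂ} {δ : ℝ} (hx : x ∈ sphere (0 : ℂ) 1) (hy : y ∈ sphere (0 : ℂ) 1)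
    (hδ : δ ≤ 1) (h : dist y x < δ) : ∃ A ⊆ sphere (0 : ℂ) 1, IsCompact A ∧ IsPreconnected A ∧
      x ∈ A ∧ y ∈ A ∧ A ⊆ ball x (2 * δ) := by
  have hx1 : ‖x‖ = 1 := mem_sphere_zero_iff_norm.1 hx
  have hy1 : ‖y‖ = 1 := mem_sphere_zero_iff_norm.1 hy
  have h1 : segment ℝ x y ⊆ ball x δ :=
    (convex_ball x δ).segment_subset (mem_ball_self (dist_nonneg.trans_lt h)) h
  have h2 : ∀ z ∈ segment ℝ x y, |‖z‖ - 1| < δ := fun z hz => by
    have h3 := abs_norm_sub_norm_le z x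
    rw [hx1, ← dist_eq_norm] at h3
    exact h3.trans_lt (h1 hz)
  have h4 : ∀ z ∈ segment ℝ x y, ‖z‖ ≠ 0 := fun z hz e => by
    have h5 := h2 z hz
    rw [e] at h5
    norm_num at h5
    linarith
  have hc : ContinuousOn (fun z : ℂ => ‖z‖⁻¹ • z) (segment ℝ x y) :=
    (continuous_norm.continuousOn.inv₀ h4).smul continuousOn_id
  have hs : IsCompact (segment ℝ x y) := by
    rw [segment_eq_image]
    exact isCompact_Icc.image (by fun_prop)
  refine ⟨(fun z : ℂ => ‖z‖⁻¹ • z) '' segment ℝ x y, ?_, hs.image_of_continuousOn hc,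
    (convex_segment x y).isPreconnected.image _ hc, ⟨x, left_mem_segment ℝ x y, by simp [hx1]⟩,
    ⟨y, right_mem_segment ℝ x y, by simp [hy1]⟩, ?_⟩
  · rintro _ ⟨z, hz, rfl⟩
    rw [mem_sphere_zero_iff_norm, norm_smul, norm_inv, norm_norm, inv_mul_cancel₀ (h4 z hz)]
  · rintro _ ⟨z, hz, rfl⟩
    have h6 : dist (‖z‖⁻¹ • z) z = |‖z‖ - 1| := by
      have h7 : ‖z‖⁻¹ • z - z = (‖z‖⁻¹ - 1) • z := by rw [sub_smul, one_smul]
      rw [dist_eq_norm, h7, norm_smul, Real.norm_eq_abs, abs_sub_comm ‖z‖ 1]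
      nth_rewrite 2 [← abs_norm z]
      rw [← abs_mul, sub_mul, inv_mul_cancel₀ (h4 z hz), one_mul]
    have h8 := dist_triangle (‖z‖⁻¹ • z) z x
    have h9 : dist z x < δ := h1 hz
    have h10 := h2 z hz
    rw [mem_ball]
    linarith

theorem jprop_ulc {γ : ℂ → ℂ} (hc : ContinuousOn γ (sphere 0 1)) (hi : InjOn γ (sphere 0 1)) :
    ULC (γ '' sphere 0 1) := by
  intro η hη
  have hS := isCompact_sphere (0 : ℂ) 1
  obtain ⟨ρ, hρ, h1⟩ := Metric.uniformContinuousOn_iff.1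
    (hS.uniformContinuousOn_of_continuous hc) η hη
  obtain ⟨ε, hε, h2⟩ := Metric.uniformContinuousOn_iff.1
    ((hS.image_of_continuousOn hc).uniformContinuousOn_of_continuous (jprop_inv hS hc hi))
    (min 1 (ρ / 2)) (lt_min one_pos (half_pos hρ))
  refine ⟨ε / 2, half_pos hε, ?_⟩
  rintro _ ⟨x, hx, rfl⟩ _ ⟨y, hy, rfl⟩ hd
  have h3 := h2 _ (mem_image_of_mem γ hy) _ (mem_image_of_mem γ hx) (by
    rw [dist_comm]
    linarith)
  rw [hi.leftInvOn_invFunOn hx, hi.leftInvOn_invFunOn hy] at h3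
  obtain ⟨A, a1, a2, a3, a4, a5, a6⟩ := jprop_arc hx hy (min_le_left _ _) h3
  refine ⟨γ '' A, image_mono a1, a2.image_of_continuousOn (hc.mono a1), a3.image γ (hc.mono a1),
    mem_image_of_mem γ a4, mem_image_of_mem γ a5, ?_⟩
  rintro _ ⟨z, hz, rfl⟩
  refine h1 z (a1 hz) x hx ?_
  have h4 : dist z x < 2 * min 1 (ρ / 2) := a6 hz
  have h5 := min_le_right 1 (ρ / 2)
  linarith

theorem jPropSt : JPropSt := by
  rintro J ⟨γ, hc, hi, rfl⟩
  have hS := isCompact_sphere (0 : ℂ) 1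
  refine ⟨hS.image_of_continuousOn hc, jprop_sphere.image γ hc, jprop_ulc hc hi, fun p => ?_, ?_⟩
  · by_cases hp : p ∈ γ '' sphere 0 1
    · obtain ⟨x, hx, rfl⟩ := hp
      have h : γ '' sphere 0 1 \ {γ x} = γ '' (sphere 0 1 \ {x}) := by
        ext w
        constructor
        · rintro ⟨⟨z, hz, rfl⟩, h1⟩
          exact ⟨z, ⟨hz, fun e => h1 (congrArg γ e)⟩, rfl⟩
        · rintro ⟨z, hz, rfl⟩
          exact ⟨mem_image_of_mem γ hz.1, fun e => hz.2 (hi hz.1 hx e)⟩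
      rw [h]
      exact (jprop_punct hx).image γ (hc.mono sdiff_subset)
    · rw [sdiff_singleton_eq_self hp]
      exact jprop_sphere.image γ hc
  · rintro J' hJ' ⟨γ', hc', hi', rfl⟩
    refine hJ'.antisymm ?_
    rintro _ ⟨x, hx, rfl⟩
    by_contra hp
    have hx1 : ‖x‖ = 1 := mem_sphere_zero_iff_norm.1 hx
    have hx0 : x ≠ 0 := by
      rintro rfl
      simp at hx1
    set g : ℂ → ℂ := fun z => Function.invFunOn γ (sphere 0 1) (γ' z) with hg
    have hm : MapsTo γ' (sphere 0 1) (γ '' sphere 0 1) := fun z hz => hJ' (mem_image_of_mem γ' hz)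
    have g1 : ContinuousOn g (sphere 0 1) := (jprop_inv hS hc hi).comp hc' hm
    have g2 : ∀ z ∈ sphere (0 : ℂ) 1, g z ∈ sphere (0 : ℂ) 1 ∧ γ (g z) = γ' z := fun z hz =>
      Function.invFunOn_pos (hm hz)
    have g3 : ∀ z ∈ sphere (0 : ℂ) 1, ‖-g z / x‖ = 1 := fun z hz => by
      rw [norm_div, norm_neg, mem_sphere_zero_iff_norm.1 (g2 z hz).1, hx1, div_one]
    have g4 : ∀ z ∈ sphere (0 : ℂ) 1, exp (arg (-g z / x) * I) = -g z / x := fun z hz => by
      have h2 := norm_mul_exp_arg_mul_I (-g z / x)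
      rwa [g3 z hz, ofReal_one, one_mul] at h2
    have g5 : ∀ z ∈ sphere (0 : ℂ) 1, -g z / x ∈ slitPlane := fun z hz => by
      rw [mem_slitPlane_iff_arg]
      refine ⟨fun h3 => hp ⟨z, hz, ?_⟩, fun h3 => ?_⟩
      · have h2 := g4 z hz
        rw [h3, exp_pi_mul_I, eq_div_iff hx0] at h2
        rw [← (g2 z hz).2]
        exact congrArg γ (by linear_combination h2)
      · have h2 := g3 z hz
        rw [h3, norm_zero] at h2
        exact zero_ne_one h2
    refine jprop_real (h := fun z => arg (-g z / x)) (fun z hz => ?_) fun z hz w hw e => ?_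
    · exact (continuousAt_arg (g5 z hz)).comp_continuousWithinAt
        (f := fun z => -g z / x) ((g1 z hz).neg.div_const x)
    · have e1 : arg (-g z / x) = arg (-g w / x) := e
      have e2 : -g z / x = -g w / x := by rw [← g4 z hz, ← g4 w hw, e1]
      have e3 : g z = g w := neg_injective ((div_left_inj' hx0).1 e2)
      exact hi' hz hw (by rw [← (g2 z hz).2, ← (g2 w hw).2, e3])

theorem jprop_join {J U : Set ℂ} (h : Ins J U) {p : ℂ} (hp : p ∉ U) :
    ∃ A ⊆ Uᶜ, IsPreconnected A ∧ p ∈ A ∧ ∃ q ∈ A, q ∈ J := by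
  obtain ⟨a, ha⟩ := h.ne
  let f : ℝ → ℂ := fun s => p + s * (a - p)
  have hf : Continuous f := by fun_prop
  have h1 : IsCompact (Icc (0 : ℝ) 1 ∩ f ⁻¹' closure U) :=
    isCompact_Icc.inter_right (isClosed_closure.preimage hf)
  obtain ⟨s0, hs0, hmin⟩ := h1.exists_isLeast ⟨1, ⟨zero_le_one, le_rfl⟩, subset_closure (by
    simpa [f] using ha)⟩
  have h2 : ∀ s, 0 ≤ s → s < s0 → f s ∉ U := fun s h3 h4 h5 =>
    absurd (hmin ⟨⟨h3, h4.le.trans hs0.1.2⟩, subset_closure h5⟩) (not_le.2 h4)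
  have h3 : f s0 ∉ U := by
    intro h4
    rcases hs0.1.1.eq_or_lt with e | e
    · rw [← e] at h4
      exact hp (by simpa [f] using h4)
    · obtain ⟨s, h5, h6, h7⟩ := ((hf.continuousAt.eventually_mem (h.op.mem_nhds h4)).and
        (lt_mem_nhds e)).exists_lt
      exact h2 s h7.le h5 h6
  refine ⟨f '' Icc 0 s0, ?_, isPreconnected_Icc.image f hf.continuousOn,
    ⟨0, ⟨le_rfl, hs0.1.1⟩, by simp [f]⟩, f s0, ⟨s0, ⟨hs0.1.1, le_rfl⟩, rfl⟩, h.fr ?_⟩
  · rintro _ ⟨s, hs, rfl⟩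
    rcases hs.2.eq_or_lt with e | e
    · rw [e]
      exact h3
    · exact h2 s hs.1 e
  · rw [h.op.frontier_eq]
    exact ⟨hs0.2, h3⟩

theorem complSt : ComplSt := by
  intro J U hJ h
  rcases (Uᶜ).eq_empty_or_nonempty with e | ⟨p0, hp0⟩
  · rw [e]
    exact isPreconnected_empty
  obtain ⟨-, -, -, -, j, -, hj⟩ := jprop_join h hp0
  refine isPreconnected_of_forall j fun p hp => ?_
  obtain ⟨A, a1, a2, a3, q, a4, a5⟩ := jprop_join h hp
  exact ⟨A ∪ J, union_subset a1 h.dis.subset_compl_left, Or.inr hj, Or.inl a3,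
    a2.union q a4 a5 hJ⟩

end Pool.Agent.PT
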