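import Pool.Agent.Lib.MP_c86c76_al.J.St

/-!
The square root trick of Koebe and Caratheodory.
-/

set_option autoImplicit false

namespace Pool.Agent.PT

open Set Metric Complex Filter Topology

theorem koebe_small {u v : ℂ} (hu : ‖u‖ < 1) (hv : ‖v‖ < 1) : ‖(starRingEnd ℂ) v * u‖ < 1 := by
  rw [norm_mul, Complex.norm_conj]
  nlinarith [norm_nonneg u, norm_nonneg v]

theorem koebe_ne {u v : ℂ} (hu : ‖u‖ < 1) (hv : ‖v‖ < 1) : 1 - (starRingEnd ℂ) v * u ≠ 0 := by
  intro h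
  have := koebe_small hu hv
  rw [← sub_eq_zero.1 h, norm_one] at this
  exact lt_irrefl _ this

theorem koebe_disc {u v : ℂ} (hu : ‖u‖ < 1) (hv : ‖v‖ < 1) :
    ‖(u - v) / (1 - (starRingEnd ℂ) v * u)‖ < 1 := by
  rw [norm_div, div_lt_one (norm_pos_iff.2 (koebe_ne hu hv))]
  have a : ‖u‖ ^ 2 < 1 := by nlinarith [norm_nonneg u]
  have b : ‖v‖ ^ 2 < 1 := by nlinarith [norm_nonneg v]
  refine lt_of_pow_lt_pow_left₀ 2 (norm_nonneg _) ?_
  have c : ‖1 - (starRingEnd ℂ) v * u‖ ^ 2 - ‖u - v‖ ^ 2 = (1 - ‖u‖ ^ 2) * (1 - ‖v‖ ^ 2) := by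
    simp only [Complex.sq_norm, Complex.normSq_apply, sub_re, sub_im, one_re, one_im, mul_re,
      mul_im, conj_re, conj_im]
    ring
  nlinarith [mul_pos (sub_pos.2 a) (sub_pos.2 b)]

theorem koebe_inj {u u' v : ℂ} (hu : ‖u‖ < 1) (hu' : ‖u'‖ < 1) (hv : ‖v‖ < 1)
    (h : (u - v) / (1 - (starRingEnd ℂ) v * u) = (u' - v) / (1 - (starRingEnd ℂ) v * u')) :
    u = u' := by
  rw [div_eq_div_iff (koebe_ne hu hv) (koebe_ne hu' hv)] at h
  have : (u - u') * (1 - (starRingEnd ℂ) v * v) = 0 := by linear_combination h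
  exact sub_eq_zero.1 ((mul_eq_zero.1 this).resolve_right (koebe_ne hv hv))

theorem koebe_der {f : ℂ → ℂ} {d z : ℂ} (v c : ℂ) (h : HasDerivAt f d z) (hc : 1 - c * f z ≠ 0) :
    HasDerivAt (fun y => (f y - v) / (1 - c * f y)) ((1 - c * v) * d / (1 - c * f z) ^ 2) z := by
  refine ((h.sub_const v).fun_div ((h.const_mul c).const_sub 1) hc).congr_deriv ?_
  ring

theorem koebe_log {l u : ℂ → ℂ} {z : ℂ} (hl : ContinuousAt l z) (hu : DifferentiableAt ℂ u z)
    (h : ∀ᶠ y in 𝓝 z, exp (l y) = u y) : DifferentiableAt ℂ l z := by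
  have h0 : exp (l z) = u z := h.self_of_nhds
  have n0 : u z ≠ 0 := h0 ▸ exp_ne_zero _
  have c : ContinuousAt (fun y => (l y - l z).im) z :=
    continuous_im.continuousAt.comp (hl.sub continuousAt_const)
  have e : ∀ᶠ y in 𝓝 z, (l y - l z).im ∈ Ioo (-Real.pi) Real.pi :=
    c.eventually (Ioo_mem_nhds (by simpa using Real.pi_pos) (by simpa using Real.pi_pos))
  have e' : l =ᶠ[𝓝 z] fun y => l z + log (u y / u z) := by
    filter_upwards [h, e] with y a b
    rw [← a, ← h0, ← exp_sub, log_exp b.1 b.2.le]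
    ring
  refine DifferentiableAt.congr_of_eventuallyEq ?_ e'
  refine ((hu.div_const _).clog ?_).const_add _
  rw [div_self n0]
  exact one_mem_slitPlane

theorem koebe_norm {v : ℂ} (hv : ‖v‖ < 1) : ‖1 - (starRingEnd ℂ) v * v‖ = 1 - ‖v‖ ^ 2 := by
  rw [Complex.conj_mul', ← ofReal_pow, ← ofReal_one, ← ofReal_sub, norm_real, Real.norm_eq_abs,
    abs_of_nonneg]
  nlinarith [norm_nonneg v]

theorem koebeSt : KoebeSt := by
  rintro U a w f hU ha hf hw hwf ⟨l, l1, l2⟩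
  have hw1 : ‖w‖ < 1 := by simpa using hw
  have f1 : ∀ z ∈ U, ‖f z‖ < 1 := fun z hz => by simpa using hf.mp hz
  have fd : ∀ z ∈ U, DifferentiableAt ℂ f z := fun z hz => hf.hol.differentiableAt (hU.mem_nhds hz)
  have sl : ∀ z ∈ U, 1 - (starRingEnd ℂ) w * f z ∈ slitPlane := fun z hz => by
    have := mem_slitPlane_of_norm_lt_one (z := -((starRingEnd ℂ) w * f z))
      (by rw [norm_neg]; exact koebe_small (f1 z hz) hw1)
    rwa [← sub_eq_add_neg] at this
  obtain ⟨s, hs⟩ : ∃ s : ℂ → ℂ, s = fun z => exp ((l z - log (1 - (starRingEnd ℂ) w * f z)) / 2) :=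
    ⟨_, rfl⟩
  have s0 : ∀ z, s z ≠ 0 := fun z => by rw [hs]; exact exp_ne_zero _
  have s2 : ∀ z ∈ U, s z ^ 2 = (f z - w) / (1 - (starRingEnd ℂ) w * f z) := fun z hz => by
    rw [hs]
    simp only
    rw [← exp_nat_mul, Nat.cast_ofNat, mul_div_cancel₀ _ two_ne_zero, exp_sub, l2 z hz,
      exp_log (koebe_ne (f1 z hz) hw1)]
  have s1 : ∀ z ∈ U, ‖s z‖ < 1 := fun z hz => by
    have := koebe_disc (f1 z hz) hw1
    rw [← s2 z hz, norm_pow] at this
    nlinarith [norm_nonneg (s z)]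
  have sd : ∀ z ∈ U, DifferentiableAt ℂ s z := fun z hz => by
    have a1 : DifferentiableAt ℂ l z :=
      koebe_log (l1.continuousAt (hU.mem_nhds hz)) ((fd z hz).sub_const w)
        (by filter_upwards [hU.mem_nhds hz] with y hy using l2 y hy)
    have a2 : DifferentiableAt ℂ (fun y => log (1 - (starRingEnd ℂ) w * f y)) z :=
      (((fd z hz).const_mul _).const_sub 1).clog (sl z hz)
    rw [hs]
    exact ((a1.sub a2).div_const 2).cexp
  have se : ∀ z ∈ U, 2 * s z * deriv s z =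
      (1 - (starRingEnd ℂ) w * w) * deriv f z / (1 - (starRingEnd ℂ) w * f z) ^ 2 := fun z hz => by
    have a1 := koebe_der w _ (fd z hz).hasDerivAt (koebe_ne (f1 z hz) hw1)
    have a2 := (sd z hz).hasDerivAt.fun_pow 2
    have a3 : (fun y => s y ^ 2) =ᶠ[𝓝 z] fun y => (f y - w) / (1 - (starRingEnd ℂ) w * f y) := by
      filter_upwards [hU.mem_nhds hz] with y hy using s2 y hy
    rw [← a2.unique (a1.congr_of_eventuallyEq a3)]
    simp
  have sn : ∀ z ∈ U, deriv s z ≠ 0 := fun z hz h => by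
    have := se z hz
    rw [h, mul_zero] at this
    exact div_ne_zero (mul_ne_zero (koebe_ne hw1 hw1) (hf.der z hz))
      (pow_ne_zero 2 (koebe_ne (f1 z hz) hw1)) this.symm
  have Fd := fun z (hz : z ∈ U) =>
    koebe_der (s a) _ (sd z hz).hasDerivAt (koebe_ne (s1 z hz) (s1 a ha))
  refine ⟨fun y => (s y - s a) / (1 - (starRingEnd ℂ) (s a) * s y),
    ⟨fun z hz => (Fd z hz).differentiableAt.differentiableWithinAt, fun z hz y hy h => ?_,
      fun z hz => ?_, fun z hz => ?_, by simp⟩, ?_⟩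
  · have a1 := koebe_inj (s1 z hz) (s1 y hy) (s1 a ha) h
    have a2 := s2 z hz
    rw [a1, s2 y hy] at a2
    exact hf.inj hz hy (koebe_inj (f1 y hy) (f1 z hz) hw1 a2).symm
  · rw [(Fd z hz).deriv]
    exact div_ne_zero (mul_ne_zero (koebe_ne (s1 a ha) (s1 a ha)) (sn z hz))
      (pow_ne_zero 2 (koebe_ne (s1 z hz) (s1 a ha)))
  · simpa using koebe_disc (s1 z hz) (s1 a ha)
  · rw [(Fd a ha).deriv, norm_div, norm_mul, norm_pow, koebe_norm (s1 a ha)]
    have a1 := congrArg norm (se a ha)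
    have a2 := congrArg norm (s2 a ha)
    rw [hf.zero, mul_zero, sub_zero, one_pow, div_one, norm_mul, norm_mul, norm_mul,
      koebe_norm hw1, Complex.norm_two] at a1
    rw [hf.zero, mul_zero, sub_zero, div_one, zero_sub, norm_neg, norm_pow] at a2
    rw [← a2] at a1
    have t0 := norm_pos_iff.2 (s0 a)
    have t1 := s1 a ha
    have d0 := norm_pos_iff.2 (hf.der a ha)
    generalize ‖s a‖ = t at *
    generalize ‖deriv s a‖ = x at *
    generalize ‖deriv f a‖ = y at *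
    have t2 : 0 < 1 - t ^ 2 := by nlinarith
    rw [lt_div_iff₀ (by positivity)]
    have : y * (1 - t ^ 2) < x := by
      refine lt_of_mul_lt_mul_left ?_ (by positivity : (0 : ℝ) ≤ 2 * t)
      rw [a1]
      nlinarith [mul_pos (mul_pos d0 t2) (pow_pos (sub_pos.2 t1) 2)]
    nlinarith [mul_lt_mul_of_pos_left this t2]

end Pool.Agent.PT
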