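import Pool.Agent.Lib.MP_c86c76_al.J.St

/-!
The length-area principle: a bounded injective holomorphic map of the disc sends suitable small
circular crosscuts to curves of small length.
-/

set_option autoImplicit false

namespace Pool.Agent.PT

open Set Metric Complex Filter Topology MeasureTheory

/-- The area of the image of an injective holomorphic map. -/
theorem len_area {G : ℂ → ℂ} {U : Set ℂ} (hU : IsOpen U) (hG : DifferentiableOn ℂ G U)
    (hi : InjOn G U) :
    ∫⁻ w in U, ENNReal.ofReal (‖deriv G w‖ ^ 2) = volume (G '' U) := by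
  have h := lintegral_abs_det_fderiv_eq_addHaar_image (volume : Measure ℂ) (f := G)
    (f' := fun w => (ContinuousLinearMap.toSpanSingleton ℂ (deriv G w)).restrictScalars ℝ)
    hU.measurableSet (fun w hw =>
      (((hG.differentiableAt (hU.mem_nhds hw)).hasDerivAt.hasFDerivAt).restrictScalars
        ℝ).hasFDerivWithinAt) hi
  rw [← h]
  refine lintegral_congr fun w => ?_
  congr 1
  simp [ContinuousLinearMap.det, LinearMap.det_restrictScalars,
    Algebra.norm_complex_eq, Complex.normSq_eq_norm_sq]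

theorem len_polar (r θ : ℝ) : Complex.polarCoord.symm (r, θ) = circleMap 0 r θ := by
  simp [circleMap, Complex.exp_mul_I]

/-- Some circle of radius in `(δ, 1/2)` carries little of the mass. -/
theorem len_pick {H : ℂ → ENNReal} (hH : Measurable H) {A κ δ : ℝ} (hA : 0 ≤ A)
    (hI : ∫⁻ w, H w ≤ ENNReal.ofReal A) (hκ : 0 < κ) (hδ : 0 < δ) (hδ2 : δ < 1 / 2)
    (hlt : A < κ * Real.log (1 / 2 / δ)) :
    ∃ r ∈ Ioo δ (1 / 2), ∫⁻ θ in Ioo (-Real.pi) Real.pi,
      ENNReal.ofReal r * H (circleMap 0 r θ) ≤ ENNReal.ofReal (κ / r) := by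
  by_contra hcon
  push Not at hcon
  have hm : Measurable fun p : ℝ × ℝ => ENNReal.ofReal p.1 * H (circleMap 0 p.1 p.2) := by
    refine (ENNReal.measurable_ofReal.comp measurable_fst).mul (hH.comp ?_)
    unfold circleMap
    fun_prop
  have h1 : ∫⁻ r in Ioi (0 : ℝ), ∫⁻ θ in Ioo (-Real.pi) Real.pi,
      ENNReal.ofReal r * H (circleMap 0 r θ) = ∫⁻ w, H w := by
    rw [← Complex.lintegral_comp_polarCoord_symm H, polarCoord_target,
      ← setLIntegral_prod (fun p : ℝ × ℝ => ENNReal.ofReal p.1 * H (circleMap 0 p.1 p.2))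
        hm.aemeasurable]
    refine lintegral_congr fun p => ?_
    rw [← len_polar, smul_eq_mul]
  have hint : IntervalIntegrable (fun r : ℝ => κ * r⁻¹) volume δ (1 / 2) := by
    refine ContinuousOn.intervalIntegrable (continuousOn_const.mul (continuousOn_inv₀.mono ?_))
    intro x hx
    rw [uIcc_of_le hδ2.le] at hx
    exact (lt_of_lt_of_le hδ hx.1).ne'
  have h2 : ENNReal.ofReal (κ * Real.log (1 / 2 / δ)) =
      ∫⁻ r in Ioo δ (1 / 2), ENNReal.ofReal (κ * r⁻¹) := by
    rw [← integral_inv_of_pos hδ (by norm_num), ← intervalIntegral.integral_const_mul,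
      intervalIntegral.integral_of_le hδ2.le, integral_Ioc_eq_integral_Ioo,
      ofReal_integral_eq_lintegral_ofReal]
    · exact ((intervalIntegrable_iff_integrableOn_Ioo_of_le hδ2.le).1 hint)
    · filter_upwards [ae_restrict_mem measurableSet_Ioo] with x hx
      have : 0 < x := hδ.trans hx.1
      positivity
  have h3 : ∫⁻ r in Ioo δ (1 / 2), ENNReal.ofReal (κ * r⁻¹) ≤ ENNReal.ofReal A := by
    refine le_trans ?_ hI
    rw [← h1]
    refine le_trans (setLIntegral_mono' measurableSet_Ioo fun r hr => ?_)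
      (lintegral_mono_set (fun r (hr : r ∈ Ioo δ (1 / 2)) => (hδ.trans hr.1 : r ∈ Ioi (0 : ℝ))))
    rw [← div_eq_mul_inv]
    exact (hcon r hr).le
  rw [← h2, ENNReal.ofReal_le_ofReal_iff hA] at h3
  exact absurd hlt (not_lt.2 h3)

/-- A curve on an open interval with integrable derivative of small integral. -/
theorem len_ftc {g d : ℝ → ℂ} {a b ε : ℝ} (hab : a < b)
    (hd : ∀ t ∈ Ioo a b, HasDerivAt g (d t) t) (hint : IntegrableOn d (Ioo a b))
    (hε : ∫ t in Ioo a b, ‖d t‖ ≤ ε) :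
    (∃ p q : ℂ, closure (g '' Ioo a b) ⊆ g '' Ioo a b ∪ {p, q}) ∧
      ∀ s ∈ Ioo a b, ∀ t ∈ Ioo a b, dist (g s) (g t) ≤ ε := by
  have hsub : ∀ s ∈ Ioo a b, ∀ t ∈ Ioo a b, uIcc s t ⊆ Ioo a b := fun s hs t ht =>
    (ordConnected_Ioo).uIcc_subset hs ht
  have hftc : ∀ s ∈ Ioo a b, ∀ t ∈ Ioo a b, ∫ x in s..t, d x = g t - g s := fun s hs t ht =>
    intervalIntegral.integral_eq_sub_of_hasDerivAt (fun x hx => hd x (hsub s hs t ht hx))
      (hint.mono_set (hsub s hs t ht)).intervalIntegrable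
  constructor
  · have hm : (a + b) / 2 ∈ Ioo a b := ⟨by linarith, by linarith⟩
    have hii : IntervalIntegrable d volume a b :=
      (intervalIntegrable_iff_integrableOn_Ioo_of_le hab.le).2 hint
    have hc : ContinuousOn (fun t => g ((a + b) / 2) + ∫ x in ((a + b) / 2)..t, d x) (Icc a b) := by
      have := intervalIntegral.continuousOn_primitive_interval' hii (a := (a + b) / 2)
        (by rw [uIcc_of_le hab.le]; exact Ioo_subset_Icc_self hm)
      rw [uIcc_of_le hab.le] at this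
      exact continuousOn_const.add this
    set c : ℝ → ℂ := fun t => g ((a + b) / 2) + ∫ x in ((a + b) / 2)..t, d x with hcdef
    have heq : ∀ t ∈ Ioo a b, c t = g t := fun t ht => by
      simp only [hcdef, hftc _ hm t ht]
      ring
    refine ⟨c a, c b, ?_⟩
    have hK : IsClosed (c '' Icc a b) := (isCompact_Icc.image_of_continuousOn hc).isClosed
    have h1 : g '' Ioo a b ⊆ c '' Icc a b := by
      rintro _ ⟨t, ht, rfl⟩
      exact ⟨t, Ioo_subset_Icc_self ht, heq t ht⟩
    refine (closure_minimal h1 hK).trans ?_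
    rintro _ ⟨t, ht, rfl⟩
    rcases ht.1.eq_or_lt with h | h
    · right; left; rw [h]
    rcases ht.2.eq_or_lt with h' | h'
    · right; right; rw [h']; rfl
    · left; exact ⟨t, ⟨h, h'⟩, (heq t ⟨h, h'⟩).symm⟩
  · intro s hs t ht
    rw [dist_comm, dist_eq_norm, ← hftc s hs t ht]
    refine intervalIntegral.norm_integral_le_integral_norm_uIoc.trans (le_trans ?_ hε)
    refine setIntegral_mono_set hint.norm (Eventually.of_forall fun x => norm_nonneg _) ?_
    exact (uIoc_subset_uIcc.trans (hsub s hs t ht)).eventuallyLE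

theorem len_mem {r θ : ℝ} (hr : 0 < r) (hr1 : r < 1) (hθ : |θ| ≤ Real.pi) :
    circleMap 0 r θ ∈ ball (1 : ℂ) 1 ↔ θ ∈ Ioo (-Real.arccos (r / 2)) (Real.arccos (r / 2)) := by
  have h1 : ‖circleMap 0 r θ - 1‖ ^ 2 = r ^ 2 - 2 * r * Real.cos θ + 1 := by
    rw [← Complex.normSq_eq_norm_sq, Complex.normSq_apply]
    simp only [circleMap, zero_add, sub_re, mul_re, ofReal_re, exp_ofReal_mul_I_re, ofReal_im,
      exp_ofReal_mul_I_im, zero_mul, sub_zero, one_re, sub_im, mul_im, add_zero, one_im]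
    nlinarith [Real.sin_sq_add_cos_sq θ]
  have h2 : circleMap 0 r θ ∈ ball (1 : ℂ) 1 ↔ r / 2 < Real.cos θ := by
    rw [mem_ball, dist_eq_norm, ← sq_lt_one_iff₀ (norm_nonneg _), h1]
    constructor
    · intro h; nlinarith
    · intro h; nlinarith
  rw [h2, mem_Ioo, ← abs_lt, ← Real.cos_abs]
  have h3 := Real.cos_arccos (x := r / 2) (by linarith) (by linarith)
  conv_lhs => rw [← h3]
  exact Real.strictAntiOn_cos.lt_iff_gt ⟨Real.arccos_nonneg _, Real.arccos_le_pi _⟩
    ⟨abs_nonneg _, hθ⟩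

/-- The statement for the disc about `1`, cut by circles about `0`. -/
theorem len_core {A ε : ℝ} (hA : 0 ≤ A) (hε : 0 < ε) : ∃ δ > 0, ∀ G : ℂ → ℂ,
    DifferentiableOn ℂ G (ball 1 1) → InjOn G (ball 1 1) →
    volume (G '' ball 1 1) ≤ ENNReal.ofReal A → ∃ r : ℝ, δ < r ∧ r < 1 ∧
      (∃ p q : ℂ, closure (G '' (ball 1 1 ∩ sphere 0 r)) ⊆ G '' (ball 1 1 ∩ sphere 0 r) ∪ {p, q}) ∧
      ∀ z ∈ ball (1 : ℂ) 1 ∩ sphere 0 r, ∀ w ∈ ball (1 : ℂ) 1 ∩ sphere 0 r,
        dist (G z) (G w) ≤ ε := by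
  set κ : ℝ := ε ^ 2 / 8 with hκdef
  have hκ : 0 < κ := by positivity
  have hE : 1 < Real.exp (A / κ + 1) := Real.one_lt_exp_iff.2 (by positivity)
  set δ : ℝ := 1 / 2 / Real.exp (A / κ + 1) with hδdef
  have hδ : 0 < δ := by positivity
  have hδ2 : δ < 1 / 2 := div_lt_self (by norm_num) hE
  have hlt : A < κ * Real.log (1 / 2 / δ) := by
    have : 1 / 2 / δ = Real.exp (A / κ + 1) := by
      rw [hδdef]; field_simp
    rw [this, Real.log_exp, mul_add, mul_div_cancel₀ _ hκ.ne']
    linarith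
  refine ⟨δ, hδ, fun G hG hi hv => ?_⟩
  set H : ℂ → ENNReal := indicator (ball 1 1) fun w => ENNReal.ofReal (‖deriv G w‖ ^ 2) with hH
  have hHm : Measurable H := by
    refine Measurable.indicator ?_ measurableSet_ball
    exact ENNReal.measurable_ofReal.comp ((measurable_deriv G).norm.pow_const 2)
  have hI : ∫⁻ w, H w ≤ ENNReal.ofReal A := by
    rw [hH, lintegral_indicator measurableSet_ball, len_area isOpen_ball hG hi]
    exact hv
  obtain ⟨r, hr, hL⟩ := len_pick hHm hA hI hκ hδ hδ2 hlt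
  have hr0 : 0 < r := hδ.trans hr.1
  have hr1 : r < 1 := by linarith [hr.2]
  set T : ℝ := Real.arccos (r / 2) with hT
  have hT0 : 0 < T := Real.arccos_pos.2 (by linarith)
  have hT2 : T < Real.pi / 2 := Real.arccos_lt_pi_div_two.2 (by linarith)
  have hT3 : T ≤ 2 := by linarith [Real.pi_le_four]
  have hpi := Real.pi_pos
  have hsub : Ioo (-T) T ⊆ Ioo (-Real.pi) Real.pi := Ioo_subset_Ioo (by linarith) (by linarith)
  have hin : ∀ θ ∈ Ioo (-T) T, circleMap 0 r θ ∈ ball (1 : ℂ) 1 := fun θ hθ =>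
    (len_mem hr0 hr1 (abs_le.2 ⟨(hsub hθ).1.le, (hsub hθ).2.le⟩)).2 hθ
  have hset : ball (1 : ℂ) 1 ∩ sphere 0 r = circleMap 0 r '' Ioo (-T) T := by
    ext w
    constructor
    · rintro ⟨h1, h2⟩
      have h3 : circleMap 0 r (arg w) = w := by
        rw [mem_sphere_zero_iff_norm] at h2
        rw [circleMap, zero_add, ← h2]
        exact Complex.norm_mul_exp_arg_mul_I w
      refine ⟨arg w, (len_mem hr0 hr1 (Complex.abs_arg_le_pi w)).1 (by rwa [h3]), h3⟩
    · rintro ⟨θ, hθ, rfl⟩
      exact ⟨hin θ hθ, circleMap_mem_sphere 0 hr0.le θ⟩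
  set d : ℝ → ℂ := fun θ => deriv G (circleMap 0 r θ) * (circleMap 0 r θ * I) with hd
  have hder : ∀ θ ∈ Ioo (-T) T, HasDerivAt (fun θ => G (circleMap 0 r θ)) (d θ) θ := fun θ hθ =>
    HasDerivAt.comp θ (hG.differentiableAt (isOpen_ball.mem_nhds (hin θ hθ))).hasDerivAt
      (hasDerivAt_circleMap 0 r θ)
  have hdm : Measurable d :=
    ((measurable_deriv G).comp (continuous_circleMap 0 r).measurable).mul
      ((continuous_circleMap 0 r).measurable.mul_const I)
  have hnd : ∀ θ, ‖d θ‖ = r * ‖deriv G (circleMap 0 r θ)‖ := fun θ => by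
    simp only [hd, norm_mul, norm_circleMap_zero, norm_I, mul_one, abs_of_pos hr0]
    ring
  have hbd : ∫⁻ θ in Ioo (-T) T, ENNReal.ofReal ‖d θ‖ ≤ ENNReal.ofReal ε := by
    have hc : 0 ≤ 4 * r / ε := by positivity
    have hm2 : Measurable fun θ : ℝ => ENNReal.ofReal r * H (circleMap 0 r θ) :=
      (hHm.comp (continuous_circleMap 0 r).measurable).const_mul _
    calc ∫⁻ θ in Ioo (-T) T, ENNReal.ofReal ‖d θ‖
        ≤ ∫⁻ θ in Ioo (-T) T, (ENNReal.ofReal (ε / 16) +
            ENNReal.ofReal (4 * r / ε) * (ENNReal.ofReal r * H (circleMap 0 r θ))) := by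
          refine setLIntegral_mono' measurableSet_Ioo fun θ hθ => ?_
          rw [hH, indicator_of_mem (hin θ hθ), ← ENNReal.ofReal_mul hr0.le,
            ← ENNReal.ofReal_mul hc, ← ENNReal.ofReal_add (by positivity) (by positivity), hnd]
          refine ENNReal.ofReal_le_ofReal ?_
          set x := ‖deriv G (circleMap 0 r θ)‖
          have h1 : 4 * r / ε * (r * x ^ 2) = 4 * (r * x) ^ 2 / ε := by ring
          rw [h1, ← sub_nonneg]
          have h2 : ε / 16 + 4 * (r * x) ^ 2 / ε - r * x = (ε - 8 * (r * x)) ^ 2 / (16 * ε) := by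
            field_simp
            ring
          rw [h2]
          positivity
      _ = ENNReal.ofReal (ε / 16) * ENNReal.ofReal (T - -T) + ENNReal.ofReal (4 * r / ε) *
            ∫⁻ θ in Ioo (-T) T, ENNReal.ofReal r * H (circleMap 0 r θ) := by
          rw [lintegral_add_left measurable_const, setLIntegral_const, Real.volume_Ioo,
            lintegral_const_mul _ hm2]
      _ ≤ ENNReal.ofReal (ε / 16) * ENNReal.ofReal (T - -T) + ENNReal.ofReal (4 * r / ε) *
            ENNReal.ofReal (κ / r) := by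
          gcongr
          exact (lintegral_mono_set hsub).trans hL
      _ ≤ ENNReal.ofReal ε := by
          rw [← ENNReal.ofReal_mul (by positivity), ← ENNReal.ofReal_mul hc,
            ← ENNReal.ofReal_add (mul_nonneg (by positivity) (by linarith)) (by positivity)]
          refine ENNReal.ofReal_le_ofReal ?_
          have h1 : 4 * r / ε * (κ / r) = ε / 2 := by
            rw [hκdef]; field_simp; ring
          rw [h1]
          nlinarith
  have hint : IntegrableOn d (Ioo (-T) T) := by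
    refine ⟨hdm.aestronglyMeasurable, ?_⟩
    rw [hasFiniteIntegral_iff_norm]
    exact hbd.trans_lt ENNReal.ofReal_lt_top
  have hle : ∫ t in Ioo (-T) T, ‖d t‖ ≤ ε := by
    rw [← ENNReal.ofReal_le_ofReal_iff hε.le,
      ofReal_integral_eq_lintegral_ofReal hint.norm (Eventually.of_forall fun x => norm_nonneg _)]
    exact hbd
  obtain ⟨h1, h2⟩ := len_ftc (by linarith) hder hint hle
  refine ⟨r, hr.1, hr1, ?_, ?_⟩
  · rw [hset, image_image]
    exact h1
  · rw [hset]
    rintro _ ⟨s, hs, rfl⟩ _ ⟨t, ht, rfl⟩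
    exact h2 s hs t ht

theorem lenSt : LenSt := by
  intro F hF hi hb ε hε
  have hfin : volume (F '' ball 0 1) ≠ ⊤ := hb.measure_lt_top.ne
  obtain ⟨δ, hδ, h⟩ := len_core (A := (volume (F '' ball 0 1)).toReal) ENNReal.toReal_nonneg hε
  refine ⟨δ, hδ, fun ζ hζ => ?_⟩
  have hζ0 : ζ ≠ 0 := by
    intro h0
    rw [h0, norm_zero] at hζ
    exact zero_ne_one hζ
  set φ : ℂ → ℂ := fun w => ζ * (1 - w) with hφ
  have hmap : MapsTo φ (ball 1 1) (ball 0 1) := fun w hw => by
    rw [mem_ball, dist_comm, dist_eq_norm] at hw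
    rw [mem_ball_zero_iff, hφ]
    simp only [norm_mul, hζ, one_mul]
    exact hw
  have hφi : Function.Injective φ := fun w w' hw => by
    have := mul_left_cancel₀ hζ0 hw
    exact sub_right_injective this
  have hφd : Differentiable ℂ φ := by
    rw [hφ]; fun_prop
  obtain ⟨r, hr1, hr2, hcl, hdist⟩ := h (F ∘ φ) (hF.comp hφd.differentiableOn hmap)
    (hi.comp hφi.injOn hmap) (by
      rw [ENNReal.ofReal_toReal hfin, image_comp]
      exact measure_mono (image_mono hmap.image_subset))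
  have hset : ball (0 : ℂ) 1 ∩ sphere ζ r = φ '' (ball 1 1 ∩ sphere 0 r) := by
    ext z
    constructor
    · rintro ⟨h1, h2⟩
      rw [mem_ball_zero_iff] at h1
      rw [mem_sphere, dist_comm, dist_eq_norm] at h2
      refine ⟨1 - z / ζ, ⟨?_, ?_⟩, ?_⟩
      · rw [mem_ball, dist_eq_norm, sub_sub_cancel_left, norm_neg, norm_div, hζ, div_one]
        exact h1
      · have : 1 - z / ζ = (ζ - z) / ζ := by field_simp
        rw [mem_sphere_zero_iff_norm, this, norm_div, hζ, div_one]
        exact h2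
      · simp only [hφ]
        field_simp
        ring
    · rintro ⟨w, ⟨h1, h2⟩, rfl⟩
      refine ⟨hmap h1, ?_⟩
      rw [mem_sphere_zero_iff_norm] at h2
      have : φ w - ζ = -(ζ * w) := by simp only [hφ]; ring
      rw [mem_sphere, dist_eq_norm, this, norm_neg, norm_mul, hζ, one_mul, h2]
  refine ⟨r, hr1, hr2, ?_, ?_⟩
  · rw [hset, ← image_comp]
    exact hcl
  · rw [hset]
    rintro _ ⟨s, hs, rfl⟩ _ ⟨t, ht, rfl⟩
    exact hdist s hs t ht

end Pool.Agent.PT
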