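import Pool.Agent.Lib.MP_c86c76_al.J.St

/-!
The Riemann mapping theorem for bounded domains with connected complement.
-/

set_option autoImplicit false

namespace Pool.Agent.PT

open Set Metric Complex Filter Topology

theorem rmt_strict {U : Set ℂ} {f : ℂ → ℂ} (hU : IsOpen U) (hf : DifferentiableOn ℂ f U) {z : ℂ}
    (hz : z ∈ U) : HasStrictDerivAt f (deriv f z) z :=
  (hf.analyticAt (hU.mem_nhds hz)).hasStrictDerivAt

theorem rmt_open {U : Set ℂ} {f : ℂ → ℂ} (hU : IsOpen U) (hf : DifferentiableOn ℂ f U)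
    (hd : ∀ z ∈ U, deriv f z ≠ 0) : IsOpen (f '' U) := by
  rw [isOpen_iff_mem_nhds]
  rintro _ ⟨z, hz, rfl⟩
  rw [← (rmt_strict hU hf hz).map_nhds_eq (hd z hz)]
  exact image_mem_map (hU.mem_nhds hz)

theorem rmt_ne {U : Set ℂ} {a : ℂ} (hb : Bornology.IsBounded U) : ∃ f, Adm U a f := by
  obtain ⟨R, hR, h⟩ := hb.subset_ball_lt 0 a
  have hR' : (R : ℂ) ≠ 0 := ofReal_ne_zero.2 hR.ne'
  refine ⟨fun z => (z - a) / R, by fun_prop, fun z _ w _ e => ?_, fun z _ => ?_, fun z hz => ?_,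
    by simp⟩
  · simpa [hR'] using e
  · have : HasDerivAt (fun z : ℂ => (z - a) / R) (1 / R) z :=
      ((hasDerivAt_id z).sub_const a).div_const _
    rw [this.deriv]
    exact one_div_ne_zero hR'
  · have h1 := h hz
    rw [mem_ball, dist_eq_norm] at h1
    rw [mem_ball_zero_iff, norm_div, norm_real, Real.norm_of_nonneg hR.le, div_lt_one hR]
    exact h1

theorem rmt_bdd {U : Set ℂ} {a : ℂ} (hU : IsOpen U) (ha : a ∈ U) :
    BddAbove {x : ℝ | ∃ f, Adm U a f ∧ ‖deriv f a‖ = x} := by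
  obtain ⟨r, hr, h⟩ := Metric.isOpen_iff.1 hU a ha
  refine ⟨1 / r, ?_⟩
  rintro _ ⟨f, hf, rfl⟩
  refine norm_deriv_le_div_of_mapsTo_ball (hf.hol.mono h) (fun z hz => ?_) hr
  rw [hf.zero]
  exact ball_subset_closedBall (hf.mp (h hz))

theorem rmt_max (h2 : MontelSt) (h3 : HurSt) {U : Set ℂ} {a : ℂ} (hU : IsOpen U) (ha : a ∈ U)
    (hc : IsPreconnected U) (hb : Bornology.IsBounded U) :
    ∃ f, Adm U a f ∧ ∀ g, Adm U a g → ‖deriv g a‖ ≤ ‖deriv f a‖ := by
  obtain ⟨f0, hf0⟩ := rmt_ne (a := a) hb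
  obtain ⟨u, -, hu, hS⟩ := exists_seq_tendsto_sSup (S := {x : ℝ | ∃ f, Adm U a f ∧ ‖deriv f a‖ = x})
    ⟨_, f0, hf0, rfl⟩ (rmt_bdd hU ha)
  choose F hF hFu using hS
  obtain ⟨f, hf⟩ := h2 U F (hyperfilter ℕ) hU (fun n => (hF n).hol) fun n => (hF n).mp
  have hev : ∀ᶠ n in (hyperfilter ℕ : Filter ℕ), DifferentiableOn ℂ (F n) U :=
    Eventually.of_forall fun n => (hF n).hol
  have hol := hf.differentiableOn hev hU
  have hd := hf.deriv hev hU
  have hM : ‖deriv f a‖ = sSup {x : ℝ | ∃ f, Adm U a f ∧ ‖deriv f a‖ = x} := by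
    refine tendsto_nhds_unique (hd.tendsto_at ha).norm ?_
    simp only [Function.comp_apply, hFu]
    exact hu.mono_left Nat.hyperfilter_le_atTop
  have hle : ∀ g, Adm U a g → ‖deriv g a‖ ≤ ‖deriv f a‖ := fun g hg =>
    hM ▸ le_csSup (rmt_bdd hU ha) ⟨g, hg, rfl⟩
  have h0 : deriv f a ≠ 0 :=
    norm_pos_iff.1 ((norm_pos_iff.2 (hf0.der a ha)).trans_le (hle f0 hf0))
  have hder : ∀ z ∈ U, deriv f z ≠ 0 :=
    ((h3 U (deriv ∘ F) (deriv f) _ hU hc (fun n => (hF n).hol.deriv hU) hd).1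
      fun n => (hF n).der).resolve_left fun h => h0 (h a ha)
  have hinj : InjOn f U := by
    refine ((h3 U F f _ hU hc (fun n => (hF n).hol) hf).2 fun n => (hF n).inj).resolve_left ?_
    rintro ⟨c, h⟩
    have h1 : f =ᶠ[𝓝 a] fun _ => c := Filter.eventually_of_mem (hU.mem_nhds ha) h
    exact h0 (by rw [h1.deriv_eq, deriv_const])
  have hcl : f '' U ⊆ closedBall 0 1 := by
    rintro _ ⟨z, hz, rfl⟩
    exact isClosed_closedBall.mem_of_tendsto (hf.tendsto_at hz)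
      (Eventually.of_forall fun n => ball_subset_closedBall ((hF n).mp hz))
  have hball : f '' U ⊆ ball 0 1 := by
    rw [← interior_closedBall _ one_ne_zero]
    exact interior_maximal hcl (rmt_open hU hol hder)
  refine ⟨f, ⟨hol, hinj, hder, fun z hz => hball ⟨z, hz, rfl⟩, ?_⟩, hle⟩
  refine tendsto_nhds_unique (hf.tendsto_at ha) ?_
  simp only [fun n => (hF n).zero]
  exact tendsto_const_nhds

theorem rmtSt (h1 : SqrtSt) (h2 : MontelSt) (h3 : HurSt) (h4 : KoebeSt) : RMTSt := by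
  intro U hU ⟨a, ha⟩ hc hb hcc
  obtain ⟨f, hf, hmax⟩ := rmt_max h2 h3 hU ha hc hb
  have him : f '' U = ball 0 1 := by
    refine Subset.antisymm hf.mp.image_subset fun w hw => by_contra fun hn => ?_
    obtain ⟨g, hg, hlt⟩ := h4 U a w f hU ha hf hw hn (h1 U f w hU hc hb hcc hf.hol hf.inj hf.der hn)
    exact absurd (hmax g hg) (not_le.2 hlt)
  have : Nonempty ℂ := ⟨0⟩
  have hl : ∀ z ∈ U, Function.invFunOn f U (f z) = z := fun z hz => hf.inj.leftInvOn_invFunOn hz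
  have hr : ∀ w ∈ ball (0 : ℂ) 1, f (Function.invFunOn f U w) = w := fun w hw =>
    Function.invFunOn_eq (by rw [← him] at hw; exact hw)
  refine ⟨Function.invFunOn f U, ?_, fun w hw w' hw' e => ?_, ?_, f, hf.hol.continuousOn, hr⟩
  · rw [← him]
    rintro _ ⟨z, hz, rfl⟩
    exact ((rmt_strict hU hf.hol hz).to_local_left_inverse (hf.der z hz)
      (Filter.eventually_of_mem (hU.mem_nhds hz) hl)).hasDerivAt.differentiableAt.differentiableWithinAt
  · rw [← hr w hw, e, hr w' hw']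
  · rw [← him, ← image_comp]
    exact (image_congr hl).trans (image_id U)

end Pool.Agent.PT
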