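import Pool.Agent.Lib.MP_c86c76_al.J.St

/-!
The Schoenflies theorem with prescribed boundary values, from the Riemann map and the boundary
correspondence.
-/

set_option autoImplicit false

namespace Pool.Agent.PT

open Set Metric Complex Filter Topology

/-- The inverse of a continuous injective map on a compact set is continuous. -/
theorem contOn_invFunOn {X Y : Type*} [TopologicalSpace X] [TopologicalSpace Y] [T2Space Y]
    [Nonempty X] {K : Set X} {f : X → Y} (hK : IsCompact K) (hf : ContinuousOn f K)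
    (hi : InjOn f K) : ContinuousOn (Function.invFunOn f K) (f '' K) := by
  rw [continuousOn_iff_isClosed]
  intro t ht
  refine ⟨f '' (K ∩ t),
    ((hK.inter_right ht).image_of_continuousOn (hf.mono inter_subset_left)).isClosed, ?_⟩
  ext y
  constructor
  · rintro ⟨hy, x, hx, rfl⟩
    refine ⟨⟨x, ⟨hx, ?_⟩, rfl⟩, x, hx, rfl⟩
    have h := hi.leftInvOn_invFunOn hx
    rw [mem_preimage, h] at hy
    exact hy
  · rintro ⟨⟨x, ⟨hx, hxt⟩, rfl⟩, -⟩
    refine ⟨?_, x, hx, rfl⟩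
    have h := hi.leftInvOn_invFunOn hx
    rw [mem_preimage, h]
    exact hxt

theorem sch_div_mem {z : ℂ} (hz : z ≠ 0) : z / (‖z‖ : ℂ) ∈ sphere (0 : ℂ) 1 := by
  have h : ‖z‖ ≠ 0 := norm_ne_zero_iff.2 hz
  rw [mem_sphere_zero_iff_norm, norm_div, Complex.norm_real, norm_norm, div_self h]

/-- The radial extension of a continuous bijection of the unit circle. -/
theorem radial_ext (β : ℂ → ℂ) (hc : ContinuousOn β (sphere 0 1)) (hi : InjOn β (sphere 0 1))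
    (hs : β '' sphere 0 1 = sphere 0 1) :
    ∃ ρ : ℂ → ℂ, Continuous ρ ∧ Function.Bijective ρ ∧ (∀ z, ‖ρ z‖ = ‖z‖) ∧
      EqOn ρ β (sphere 0 1) ∧ ∀ z, ρ z = (‖z‖ : ℂ) * β (z / (‖z‖ : ℂ)) := by
  have hm : ∀ z ∈ sphere (0 : ℂ) 1, ‖β z‖ = 1 := fun z hz => by
    have : β z ∈ sphere (0 : ℂ) 1 := hs ▸ mem_image_of_mem β hz
    exact mem_sphere_zero_iff_norm.1 this
  have hn : ∀ z : ℂ, ‖(‖z‖ : ℂ) * β (z / (‖z‖ : ℂ))‖ = ‖z‖ := fun z => by
    by_cases hz : z = 0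
    · simp [hz]
    · rw [norm_mul, hm _ (sch_div_mem hz), Complex.norm_real, norm_norm, mul_one]
  have hne : ∀ z : ℂ, z ≠ 0 → (‖z‖ : ℂ) ≠ 0 := fun z hz =>
    Complex.ofReal_ne_zero.2 (norm_ne_zero_iff.2 hz)
  have hnc : Continuous fun z : ℂ => (‖z‖ : ℂ) := Complex.continuous_ofReal.comp continuous_norm
  refine ⟨fun z => (‖z‖ : ℂ) * β (z / (‖z‖ : ℂ)), ?_, ⟨?_, ?_⟩, hn, ?_, fun _ => rfl⟩
  · rw [continuous_iff_continuousAt]
    intro z
    by_cases hz : z = 0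
    · subst hz
      have h0 : (‖(0 : ℂ)‖ : ℂ) * β (0 / (‖(0 : ℂ)‖ : ℂ)) = 0 := by simp
      rw [ContinuousAt, h0, tendsto_zero_iff_norm_tendsto_zero]
      simp only [hn]
      exact tendsto_norm_zero
    · have h1 : ContinuousOn (fun z : ℂ => z / (‖z‖ : ℂ)) {0}ᶜ :=
        continuousOn_id.div hnc.continuousOn fun w hw => hne w hw
      have h2 : ContinuousOn (fun z : ℂ => (‖z‖ : ℂ) * β (z / (‖z‖ : ℂ))) {0}ᶜ :=
        hnc.continuousOn.mul (hc.comp h1 fun w hw => sch_div_mem hw)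
      exact h2.continuousAt (isOpen_compl_singleton.mem_nhds hz)
  · intro z w hzw
    have h1 : ‖z‖ = ‖w‖ := by
      rw [← hn z, ← hn w]
      exact congrArg norm hzw
    by_cases hz : z = 0
    · rw [hz, norm_zero] at h1
      rw [hz, norm_eq_zero.1 h1.symm]
    · have hw : w ≠ 0 := by
        rintro rfl
        rw [norm_zero] at h1
        exact hz (norm_eq_zero.1 h1)
      have h2 : (‖w‖ : ℂ) * β (z / (‖z‖ : ℂ)) = (‖w‖ : ℂ) * β (w / (‖w‖ : ℂ)) := by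
        have h3 : (‖z‖ : ℂ) * β (z / (‖z‖ : ℂ)) = (‖w‖ : ℂ) * β (w / (‖w‖ : ℂ)) := hzw
        rw [← h3]
        congr 1
        rw [h1]
      have h4 := hi (sch_div_mem hz) (sch_div_mem hw) (mul_left_cancel₀ (hne w hw) h2)
      rw [h1] at h4
      exact (div_left_inj' (hne w hw)).1 h4
  · intro y
    by_cases hy : y = 0
    · exact ⟨0, by simp [hy]⟩
    · have h1 : y / (‖y‖ : ℂ) ∈ β '' sphere 0 1 := hs.symm ▸ sch_div_mem hy
      obtain ⟨x, hx, hxy⟩ := h1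
      have h2 : ‖(‖y‖ : ℂ) * x‖ = ‖y‖ := by
        rw [norm_mul, mem_sphere_zero_iff_norm.1 hx, Complex.norm_real, norm_norm, mul_one]
      refine ⟨(‖y‖ : ℂ) * x, ?_⟩
      change (‖(‖y‖ : ℂ) * x‖ : ℂ) * β ((‖y‖ : ℂ) * x / (‖(‖y‖ : ℂ) * x‖ : ℂ)) = y
      rw [h2, mul_div_cancel_left₀ _ (hne y hy), hxy, mul_div_cancel₀ _ (hne y hy)]
  · intro z hz
    change (‖z‖ : ℂ) * β (z / (‖z‖ : ℂ)) = β z
    rw [mem_sphere_zero_iff_norm.1 hz]
    simp

theorem schSt (h1 : RMTSt) (h2 : CarContSt) (h3 : CarInjSt) (h4 : JPropSt) (h5 : ComplSt) :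
    SchSt := by
  intro γ U hc hi hU
  obtain ⟨hJc, hJp, hJu, hJm, hJx⟩ := h4 (γ '' sphere 0 1) ⟨γ, hc, hi, rfl⟩
  obtain ⟨F, hF⟩ := h1 U hU.op hU.ne hU.con hU.bd (h5 _ U hJp hU)
  obtain ⟨Φ, hΦc, hΦF, hΦJ⟩ := h2 _ U F hJc hJu hU hF
  have hΦi : InjOn Φ (closedBall 0 1) := h3 _ U F Φ hJc hJm hU hF hΦc hΦF hΦJ
  have hcs : ContinuousOn Φ (sphere 0 1) := hΦc.mono sphere_subset_closedBall
  have his : InjOn Φ (sphere 0 1) := hΦi.mono sphere_subset_closedBall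
  have hJ : Φ '' sphere 0 1 = γ '' sphere 0 1 := hJx _ hΦJ.image_subset ⟨Φ, hcs, his, rfl⟩
  have hγ : MapsTo γ (sphere 0 1) (Φ '' sphere 0 1) := fun z hz => hJ.symm ▸ mem_image_of_mem γ hz
  have hβ : ∀ z ∈ sphere (0 : ℂ) 1, Φ (Function.invFunOn Φ (sphere 0 1) (γ z)) = γ z :=
    fun z hz => Function.invFunOn_eq (hγ hz)
  obtain ⟨ρ, hρc, hρb, hρn, hρβ, -⟩ := radial_ext (fun z => Function.invFunOn Φ (sphere 0 1) (γ z))
    ((contOn_invFunOn (isCompact_sphere 0 1) hcs his).comp hc hγ)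
    (fun z hz w hw hzw => hi hz hw (by
      rw [← hβ z hz, ← hβ w hw]
      exact congrArg Φ hzw))
    (by
      apply Subset.antisymm
      · rintro _ ⟨z, hz, rfl⟩
        exact Function.invFunOn_mem (hγ hz)
      · intro x hx
        have hx' : Φ x ∈ γ '' sphere 0 1 := hΦJ hx
        obtain ⟨z, hz, hzx⟩ := hx'
        refine ⟨z, hz, ?_⟩
        change Function.invFunOn Φ (sphere 0 1) (γ z) = x
        rw [hzx]
        exact his.leftInvOn_invFunOn hx)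
  have hρm : MapsTo ρ (closedBall 0 1) (closedBall 0 1) := fun z hz => by
    rw [mem_closedBall_zero_iff] at hz ⊢
    rwa [hρn]
  have hρB : ρ '' ball 0 1 = ball 0 1 := by
    apply Subset.antisymm
    · rintro _ ⟨z, hz, rfl⟩
      rw [mem_ball_zero_iff] at hz ⊢
      rwa [hρn]
    · intro y hy
      obtain ⟨z, rfl⟩ := hρb.2 y
      refine ⟨z, ?_, rfl⟩
      rw [mem_ball_zero_iff] at hy ⊢
      rwa [hρn] at hy
  refine ⟨Φ ∘ ρ, hΦc.comp hρc.continuousOn hρm, hΦi.comp hρb.1.injOn hρm, ?_, ?_⟩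
  · intro z hz
    change Φ (ρ z) = γ z
    rw [hρβ hz]
    exact hβ z hz
  · rw [image_comp, hρB, hΦF.image_eq, hF.im]

end Pool.Agent.PT
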