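import Pool.Agent.Lib.MP_c86c76_al.J.St

/-!
Logarithms of omitted values of a univalent function on a domain with connected complement.
-/

set_option autoImplicit false

namespace Pool.Agent.PT

open Set Metric Complex Filter Topology

variable {K U : Set ℂ} {u v f : ℂ → ℂ}

lemma sqrt_congr (h : HasLog K u) (e : ∀ z ∈ K, u z = v z) : HasLog K v :=
  let ⟨l, h1, h2⟩ := h
  ⟨l, h1, fun z hz => (h2 z hz).trans (e z hz)⟩

lemma sqrt_mul (h : HasLog K u) (h' : HasLog K v) : HasLog K fun z => u z * v z :=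
  let ⟨l, h1, h2⟩ := h
  let ⟨l', h3, h4⟩ := h'
  ⟨fun z => l z + l' z, h1.add h3, fun z hz => by rw [exp_add, h2 z hz, h4 z hz]⟩

lemma sqrt_div (h : HasLog K u) (h' : HasLog K v) : HasLog K fun z => u z / v z :=
  let ⟨l, h1, h2⟩ := h
  let ⟨l', h3, h4⟩ := h'
  ⟨fun z => l z - l' z, h1.sub h3, fun z hz => by rw [exp_sub, h2 z hz, h4 z hz]⟩

lemma sqrt_far (hu : ContinuousOn u K) {y : ℂ} (h : ∀ z ∈ K, ‖u z‖ < ‖y‖) :
    HasLog K fun z => u z - y := by
  have k : ∀ z ∈ K, y ≠ 0 ∧ 1 + -(u z / y) ∈ slitPlane := fun z hz =>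
    have : 0 < ‖y‖ := (norm_nonneg _).trans_lt (h z hz)
    ⟨norm_pos_iff.1 this, mem_slitPlane_of_norm_lt_one (by
      rw [norm_neg, norm_div, div_lt_one this]; exact h z hz)⟩
  refine ⟨fun z => log (-y) + log (1 + -(u z / y)), continuousOn_const.add
    ((continuousOn_const.add (hu.div_const y).neg).clog fun z hz => (k z hz).2), fun z hz => ?_⟩
  have := (k z hz).1
  rw [exp_add, exp_log (neg_ne_zero.2 this), exp_log (slitPlane_ne_zero (k z hz).2)]
  field_simp
  ring

open Classical in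
/-- The difference quotient. -/
noncomputable def sqrtG (f : ℂ → ℂ) (t z : ℂ) : ℂ :=
  if z = t then deriv f t else (f z - f t) / (z - t)

lemma sqrt_cont (hU : IsOpen U) (hf : DifferentiableOn ℂ f U) :
    ContinuousOn (fun p : ℂ × ℂ => sqrtG f p.1 p.2) (U ×ˢ U) := by
  rintro ⟨a, b⟩ ⟨ha, hb⟩
  have an := hf.analyticOnNhd hU
  refine ContinuousAt.continuousWithinAt ?_
  by_cases e : b = a
  · subst e
    have h1 := hasStrictFDerivAt_iff_isLittleO.1 (an b ha).hasStrictDerivAt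
    have h2 : ContinuousAt (fun p : ℂ × ℂ => deriv f p.1) (b, b) :=
      (an.deriv b ha).continuousAt.comp_of_eq continuousAt_fst rfl
    refine Metric.tendsto_nhds.2 fun ε hε => ?_
    filter_upwards [h1.def (half_pos hε), Metric.tendsto_nhds.1 h2 ε hε] with p k1 k2
    simp only [sqrtG, if_true]
    split_ifs with e
    · exact k2
    · have n : p.1 - p.2 ≠ 0 := sub_ne_zero.2 (Ne.symm e)
      have n' : p.2 - p.1 ≠ 0 := sub_ne_zero.2 e
      have : (f p.2 - f p.1) / (p.2 - p.1) - deriv f b =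
          (f p.1 - f p.2 - (p.1 - p.2) * deriv f b) / (p.1 - p.2) := by
        field_simp
        ring
      rw [dist_eq_norm, this, norm_div]
      exact ((div_le_iff₀ (norm_pos_iff.2 n)).2 (by simpa using k1)).trans_lt (half_lt_self hε)
  · have h1 : ContinuousAt (fun p : ℂ × ℂ => (f p.2 - f p.1) / (p.2 - p.1)) (a, b) :=
      (((an b hb).continuousAt.comp_of_eq continuousAt_snd rfl).sub
        ((an a ha).continuousAt.comp_of_eq continuousAt_fst rfl)).div
        (continuousAt_snd.sub continuousAt_fst) (sub_ne_zero.2 e)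
    refine h1.congr ?_
    filter_upwards [(isOpen_ne_fun continuous_snd continuous_fst).mem_nhds
      (show (a, b) ∈ {p : ℂ × ℂ | p.2 ≠ p.1} from e)] with p hp using (if_neg hp).symm

lemma sqrt_meet {E A : Set ℂ} (hE : IsClosed E) (hA : IsOpen A) (h : E ⊆ A) (n : E.Nonempty) {y : ℂ}
    (hy : y ∉ E) : ∃ x ∈ A, x ∈ connectedComponentIn Eᶜ y := by
  by_contra! k
  have o : ∀ b, IsOpen (connectedComponentIn Eᶜ b) := fun _ => hE.isOpen_compl.connectedComponentIn
  have c : IsClosed (connectedComponentIn Eᶜ y) := isClosed_of_closure_subset fun b hb => by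
    have b1 : b ∉ E := fun e =>
      let ⟨x, x1, x2⟩ := mem_closure_iff.1 hb A hA (h e)
      k x x1 x2
    obtain ⟨x, x1, x2⟩ := mem_closure_iff.1 hb _ (o b) (mem_connectedComponentIn b1)
    rw [connectedComponentIn_eq x2, ← connectedComponentIn_eq x1]
    exact mem_connectedComponentIn b1
  obtain ⟨x, hx⟩ := n
  exact k x (h hx) ((IsClopen.eq_univ ⟨c, o y⟩ ⟨y, mem_connectedComponentIn hy⟩).ge trivial)

theorem sqrtSt (h1 : LogHtpSt) (h2 : LogOpenSt) : SqrtSt := by
  intro U f w hU hc hb hc' hf hi hd hw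
  refine h2 U _ hU hc fun K hKU hK => ?_
  rcases K.eq_empty_or_nonempty with rfl | hn
  · exact ⟨0, continuousOn_empty _, fun _ h => h.elim⟩
  have far : ∀ A : Set ℂ, Bornology.IsBounded A → ∃ y : ℂ, ∀ z ∈ A, ‖z‖ < ‖y‖ := fun A hA => by
    obtain ⟨R, h0, hR⟩ := hA.subset_ball_lt 0 0
    exact ⟨R, fun z hz => by simpa [abs_of_pos h0] using hR hz⟩
  obtain ⟨c, hc0⟩ := far U hb
  set V := connectedComponentIn Kᶜ c
  have cU : c ∈ Uᶜ := fun e => (hc0 c e).false
  have v1 : Uᶜ ⊆ V := hc'.subset_connectedComponentIn cU (compl_subset_compl.2 hKU)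
  have v2 : V ⊆ Kᶜ := connectedComponentIn_subset _ _
  have v3 : Vᶜ ⊆ U := compl_subset_comm.1 v1
  have v4 : K ⊆ Vᶜ := subset_compl_comm.1 v2
  have v5 : IsCompact Vᶜ := isCompact_of_isClosed_isBounded
    hK.isClosed.isOpen_compl.connectedComponentIn.isClosed_compl (hb.subset v3)
  have v6 := v5.image_of_continuousOn (hf.continuousOn.mono v3)
  have ne : ∀ t ∈ V, ∀ z ∈ K, z - t ≠ 0 := fun t ht z hz e => v2 ht (sub_eq_zero.1 e ▸ hz)
  have a : ∀ t ∈ V, HasLog K fun z => z - t := fun t ht =>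
    sqrt_congr (sqrt_mul (h1 ℂ V K (fun t z => z - t) isPreconnected_connectedComponentIn hK
      (by fun_prop) ne t ht c (v1 cU)) (sqrt_far continuousOn_id fun z hz => hc0 z (hKU hz)))
      fun z hz => div_mul_cancel₀ _ (ne c (v1 cU) z hz)
  have g : ∀ t ∈ U, ∀ z ∈ K, sqrtG f t z ≠ 0 := fun t ht z hz => by
    unfold sqrtG
    split_ifs with e
    exacts [hd t ht, div_ne_zero (sub_ne_zero.2 fun e' => e (hi (hKU hz) ht e')) (sub_ne_zero.2 e)]
  have b := h1 ℂ U K (sqrtG f) hc hK ((sqrt_cont hU hf).mono (prod_mono_right hKU)) g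
  have e : ∀ t ∈ V, ∀ z ∈ K, f z - f t = sqrtG f t z * (z - t) := fun t ht z hz => by
    rw [sqrtG, if_neg (sub_ne_zero.1 (ne t ht z hz)), div_mul_cancel₀ _ (ne t ht z hz)]
  have op : IsOpen (f '' U) := isOpen_iff_mem_nhds.2 (by
    rintro _ ⟨z, hz, rfl⟩
    rw [← ((hf.analyticOnNhd hU) z hz).hasStrictDerivAt.map_nhds_eq (hd z hz)]
    exact image_mem_map (hU.mem_nhds hz))
  have d : ∀ y ∉ f '' Vᶜ, ∃ t ∈ U, t ∈ V ∧ HasLog K fun z => (f z - y) / (f z - f t) := by
    intro y hy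
    obtain ⟨_, ⟨t, ht, rfl⟩, m⟩ :=
      sqrt_meet v6.isClosed op (image_mono v3) ((hn.mono v4).image f) hy
    refine ⟨t, ht, by_contra fun n => connectedComponentIn_subset _ _ m ⟨t, n, rfl⟩,
      h1 ℂ (connectedComponentIn (f '' Vᶜ)ᶜ y) K (fun t z => f z - t)
        isPreconnected_connectedComponentIn hK
        (((hf.continuousOn.mono hKU).comp continuousOn_snd fun p hp => hp.2).sub continuousOn_fst)
        (fun s hs z hz e => connectedComponentIn_subset (f '' Vᶜ)ᶜ y hs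
          ⟨z, v4 hz, sub_eq_zero.1 e⟩) y
        (mem_connectedComponentIn hy) _ m⟩
  obtain ⟨y, hy⟩ := far _ v6.isBounded
  obtain ⟨s, s1, s2, s3⟩ := d w fun m => hw (image_mono v3 m)
  obtain ⟨t, t1, t2, t3⟩ := d y fun m => (hy y m).false
  have k := fun z hz => hy (f z) ⟨z, v4 hz, rfl⟩
  refine sqrt_congr (sqrt_mul (sqrt_mul s3 (sqrt_mul (b s s1 t t1) (sqrt_div (a s s2) (a t t2))))
    (sqrt_div (sqrt_far (hf.continuousOn.mono hKU) k) t3)) fun z hz => ?_
  have n1 := g s s1 z hz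
  have n2 := g t t1 z hz
  have n3 := ne s s2 z hz
  have n4 := ne t t2 z hz
  have n5 : f z - y ≠ 0 := fun e => (k z hz).ne (by rw [sub_eq_zero.1 e])
  rw [e s s2 z hz, e t t2 z hz]
  field_simp

end Pool.Agent.PT
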