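import Pool.Agent.Lib.MP_c86c76_al.J.Log
import Pool.Agent.Lib.MP_c86c76_al.J.Eil
import Pool.Agent.Lib.MP_c86c76_al.J.Sqrt
import Pool.Agent.Lib.MP_c86c76_al.J.Hur
import Pool.Agent.Lib.MP_c86c76_al.J.Koebe
import Pool.Agent.Lib.MP_c86c76_al.J.RMT
import Pool.Agent.Lib.MP_c86c76_al.J.Len
import Pool.Agent.Lib.MP_c86c76_al.J.Car
import Pool.Agent.Lib.MP_c86c76_al.J.Inj
import Pool.Agent.Lib.MP_c86c76_al.J.JProp
import Pool.Agent.Lib.MP_c86c76_al.J.Sch

/-!
The theorems of Eilenberg, Janiszewski, Riemann and Schoenflies.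
-/

set_option autoImplicit false

namespace Pool.Agent.PT

theorem eil : EilSt := eilSt logHtpSt

theorem jan : JanSt := janSt eil

theorem rmt : RMTSt := rmtSt (sqrtSt logHtpSt logOpenSt) montelSt hurSt koebeSt

theorem sch : SchSt :=
  schSt rmt (carContSt jan lenSt) (carInjSt jan bdConstSt) jPropSt complSt

end Pool.Agent.PT
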