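import Pool.Agent.Lib.MP_c86c76_al.J.St2

/-!
Two accessible points outside a connected open set are joined by an arc through the set.
-/

set_option autoImplicit false

namespace Pool.Agent.PT

open Set Metric Complex Filter Topology

/-- An initial piece of an arc. -/
theorem arc_sub {κ : ℝ → ℂ} (h : IsArc κ) {t₀ : ℝ} (h0 : 0 < t₀) (h1 : t₀ ≤ 1) :
    IsArc (fun t => κ (t₀ * t)) ∧ MapsTo (fun t => t₀ * t) (Icc (0 : ℝ) 1) (Icc 0 1) := by
  have hm : MapsTo (fun t => t₀ * t) (Icc (0 : ℝ) 1) (Icc 0 1) := fun t ht =>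
    ⟨mul_nonneg h0.le ht.1, mul_le_one₀ h1 ht.1 ht.2⟩
  exact ⟨⟨h.1.comp (by fun_prop) hm, fun s hs t ht e =>
    mul_left_cancel₀ h0.ne' (h.2 (hm hs) (hm ht) e)⟩, hm⟩

/-- Follow the arc up to its first point on the segment, then follow the segment. -/
theorem arc_key (hA : ArcBasSt) {κ : ℝ → ℂ} (h : IsArc κ) (y : ℂ)
    (ha : κ 0 ∉ segment ℝ y (κ 1)) : ∃ κ', IsArc κ' ∧ κ' 0 = κ 0 ∧ κ' 1 = y ∧
      κ' '' Icc 0 1 ⊆ κ '' Icc 0 1 ∪ segment ℝ y (κ 1) := by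
  obtain ⟨h1, h2, -, h4, h5, -⟩ := hA
  have hcl : IsClosed (segment ℝ y (κ 1)) := by
    rw [segment_eq_image]
    exact (isCompact_Icc.image (by fun_prop)).isClosed
  have hc : IsCompact (Icc (0 : ℝ) 1 ∩ κ ⁻¹' segment ℝ y (κ 1)) :=
    isCompact_Icc.of_isClosed_subset (h.1.preimage_isClosed_of_isClosed isClosed_Icc hcl)
      inter_subset_left
  obtain ⟨t₀, ⟨ht, hz⟩, hmin⟩ := hc.exists_isLeast
    ⟨1, right_mem_Icc.2 zero_le_one, right_mem_segment _ _ _⟩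
  have h0 : 0 < t₀ := lt_of_le_of_ne ht.1 fun e => ha (by rw [e]; exact hz)
  obtain ⟨k1, k2⟩ := arc_sub h h0 ht.2
  have hsub : (fun t => κ (t₀ * t)) '' Icc 0 1 ⊆ κ '' Icc 0 1 := by
    rintro _ ⟨t, ht', rfl⟩
    exact ⟨_, k2 ht', rfl⟩
  by_cases e : κ t₀ = y
  · exact ⟨_, k1, by simp, by simpa using e, hsub.trans subset_union_left⟩
  have hseg : seg (κ t₀) y '' Icc 0 1 ⊆ segment ℝ y (κ 1) := by
    rw [h2]
    exact (convex_segment _ _).segment_subset hz (left_mem_segment _ _ _)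
  have e1 : (fun t => κ (t₀ * t)) 1 = seg (κ t₀) y 0 := by simp [seg]
  obtain ⟨c1, -, c2, c3, -⟩ := h5 (fun t => κ (t₀ * t)) (seg (κ t₀) y) e1
  refine ⟨_, h4 _ _ k1 (h1 _ _ e) e1 fun s hs t ht' e' => ?_, by simpa using c2,
    by simpa [seg] using c3, ?_⟩
  · have : t₀ ≤ t₀ * s := hmin ⟨k2 hs, by
      rw [mem_preimage, e']
      exact hseg ⟨t, ht', rfl⟩⟩
    exact le_antisymm hs.2 (by nlinarith)
  · rw [c1]
    exact union_subset_union hsub hseg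

theorem arc_seg {V : Set ℂ} {a p : ℂ} (hp : p ∈ V) (h : openSegment ℝ a p ⊆ V) :
    segment ℝ a p ⊆ insert a V := by
  rw [← insert_endpoints_openSegment]
  exact insert_subset_insert (insert_subset hp h)

theorem arcSt (hA : ArcBasSt) : ArcSt := by
  intro V a b p q hV hc ha hb hab hp hq hap hbq
  obtain ⟨Q, hQ⟩ : ∃ Q : ℂ → Prop, ∀ x, Q x ↔
      ∃ κ, IsArc κ ∧ κ 0 = a ∧ κ 1 = x ∧ κ '' Icc 0 1 ⊆ insert a V := ⟨_, fun _ => Iff.rfl⟩
  have step : ∀ x y, segment ℝ y x ⊆ V → Q x → Q y := by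
    intro x y hs hx
    obtain ⟨κ, k1, rfl, rfl, k4⟩ := (hQ x).1 hx
    obtain ⟨κ', l1, l2, l3, l4⟩ := arc_key hA k1 y fun h => ha (hs h)
    exact (hQ y).2 ⟨κ', l1, l2, l3, l4.trans (union_subset k4 (hs.trans (subset_insert _ _)))⟩
  have hP : Q p := (hQ p).2 ⟨seg a p, hA.1 _ _ fun e => ha (e ▸ hp), by simp [seg],
    by simp [seg], by rw [hA.2.1]; exact arc_seg hp hap⟩
  have hq' : Q q := hc.induction₂' (fun x y => Q x → Q y) (fun x hx => by
    obtain ⟨r, hr, hb'⟩ := Metric.isOpen_iff.1 hV x hx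
    filter_upwards [mem_nhdsWithin_of_mem_nhds (ball_mem_nhds x hr)] with y hy
    exact ⟨step x y (((convex_ball x r).segment_subset hy (mem_ball_self hr)).trans hb'),
      step y x (((convex_ball x r).segment_subset (mem_ball_self hr) hy).trans hb')⟩)
    (fun _ _ _ _ _ _ h1 h2 h => h2 (h1 h)) hp hq hP
  obtain ⟨κ, k1, rfl, rfl, k4⟩ := (hQ q).1 hq'
  have hs := arc_seg hq hbq
  obtain ⟨κ', l1, l2, l3, l4⟩ := arc_key hA k1 b fun h => (hs h).elim hab ha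
  refine ⟨κ', l1, l2, l3, fun t ht => ?_⟩
  have ht' : t ∈ Icc (0 : ℝ) 1 := Ioo_subset_Icc_self ht
  rcases l4 ⟨t, ht', rfl⟩ with h | h
  · refine (k4 h).resolve_left fun e => ht.1.ne' ?_
    exact l1.2 ht' (left_mem_Icc.2 zero_le_one) (e.trans l2.symm)
  · refine (hs h).resolve_left fun e => ht.2.ne ?_
    exact l1.2 ht' (right_mem_Icc.2 zero_le_one) (e.trans l3.symm)

end Pool.Agent.PT
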