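import Pool.Agent.Lib.MP_c86c76_al.J.St2

/-!
A crosscut of a disc that avoids two disjoint compact sets.
-/

set_option autoImplicit false

namespace Pool.Agent.PT

open Set Metric Complex Filter Topology

theorem cut_collar {A Q : Set ℂ} (hA : IsCompact A) (hQ : IsCompact Q) (hS : Q ⊆ sphere 0 1)
    (hd : Disjoint A Q) : ∃ e : ℝ, 0 < e ∧ ∀ s : ℝ, 0 ≤ s → s < e → ∀ z ∈ Q,
      ((1 - s : ℝ) : ℂ) * z ∉ A := by
  obtain ⟨δ, hδ, h⟩ := hQ.exists_thickening_subset_open hA.isClosed.isOpen_compl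
    hd.symm.subset_compl_right
  refine ⟨δ, hδ, fun s h0 hs z hz => h (mem_thickening_iff.2 ⟨z, hz, ?_⟩)⟩
  have hn : ‖z‖ = 1 := by simpa using hS hz
  have e : ((1 - s : ℝ) : ℂ) * z - z = -(s : ℂ) * z := by push_cast; ring
  rw [dist_eq_norm, e, norm_mul, hn, norm_neg, Complex.norm_real, Real.norm_eq_abs, abs_of_nonneg h0,
    mul_one]
  exact hs

theorem cut_norm {z : ℂ} (hz : z ∈ sphere (0 : ℂ) 1) {s : ℝ} (h0 : 0 < s) (h1 : s < 1) :
    ((1 - s : ℝ) : ℂ) * z ∈ ball (0 : ℂ) 1 := by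
  have hn : ‖z‖ = 1 := by simpa using hz
  rw [mem_ball_zero_iff, norm_mul, hn, Complex.norm_real, Real.norm_eq_abs,
    abs_of_nonneg (by linarith), mul_one]
  linarith

theorem cut_nsep {A Q : Set ℂ} {x y : ℂ} {e : ℝ} (hQ : IsPreconnected Q) (hS : Q ⊆ sphere 0 1)
    (hx : x ∈ Q) (hy : y ∈ Q) (h0 : 0 < e) (h1 : e < 1)
    (h : ∀ z ∈ Q, ((1 - e : ℝ) : ℂ) * z ∉ A) :
    NSep (A ∪ sphere 0 1) (((1 - e : ℝ) : ℂ) * x) (((1 - e : ℝ) : ℂ) * y) := by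
  have hW : IsPreconnected ((fun z => ((1 - e : ℝ) : ℂ) * z) '' Q) :=
    hQ.image _ (continuous_const.mul continuous_id).continuousOn
  refine hW.subset_connectedComponentIn (mem_image_of_mem _ hx) ?_ (mem_image_of_mem _ hy)
  rintro _ ⟨z, hz, rfl⟩ (hA | hs)
  · exact h z hz hA
  · have := cut_norm (hS hz) h0 h1
    rw [mem_ball] at this
    rw [mem_sphere] at hs
    exact this.ne hs

theorem cut_seg {F : Set ℂ} {x : ℂ} {e : ℝ} (h0 : 0 < e)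
    (h : ∀ s : ℝ, 0 < s → s ≤ e → ((1 - s : ℝ) : ℂ) * x ∈ F) :
    openSegment ℝ x (((1 - e : ℝ) : ℂ) * x) ⊆ connectedComponentIn F (((1 - e : ℝ) : ℂ) * x) := by
  have hW : IsPreconnected ((fun s : ℝ => ((1 - s : ℝ) : ℂ) * x) '' Ioc 0 e) :=
    isPreconnected_Ioc.image _ (by fun_prop)
  refine Subset.trans ?_ (hW.subset_connectedComponentIn ⟨e, ⟨h0, le_rfl⟩, rfl⟩ ?_)
  · rintro _ ⟨u, v, hu, hv, huv, rfl⟩
    refine ⟨v * e, ⟨mul_pos hv h0, mul_le_of_le_one_left h0.le (by linarith)⟩, ?_⟩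
    obtain rfl : u = 1 - v := by linarith
    simp only [real_smul]
    push_cast
    ring
  · rintro _ ⟨s, hs, rfl⟩
    exact h s hs.1 hs.2

theorem cut_ball (hArc : ArcSt) {A B P Q : Set ℂ} {x y : ℂ} (hA : IsCompact A) (hB : IsCompact B)
    (hAB : Disjoint A B) (hP : IsCompact P) (hQ : IsCompact Q) (cP : IsPreconnected P)
    (cQ : IsPreconnected Q) (sP : P ⊆ sphere 0 1) (sQ : Q ⊆ sphere 0 1) (xP : x ∈ P) (xQ : x ∈ Q)
    (yP : y ∈ P) (yQ : y ∈ Q) (hxy : x ≠ y) (hAQ : Disjoint A Q) (hBP : Disjoint B P) :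
    ∃ κ, IsArc κ ∧ κ 0 = x ∧ κ 1 = y ∧ ∀ t ∈ Ioo (0 : ℝ) 1, κ t ∈ ball (0 : ℂ) 1 ∧ κ t ∉ A ∪ B := by
  obtain ⟨e1, h1, k1⟩ := cut_collar hA hQ sQ hAQ
  obtain ⟨e2, h2, k2⟩ := cut_collar hB hP sP hBP
  obtain ⟨e, h0, l1, l2, l3⟩ : ∃ e : ℝ, 0 < e ∧ e < e1 ∧ e < e2 ∧ e < 1 := by
    have hm : 0 < min e1 (min e2 1) := lt_min h1 (lt_min h2 one_pos)
    have a1 := min_le_left e1 (min e2 1)
    have a2 := (min_le_right e1 (min e2 1)).trans (min_le_left e2 1)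
    have a3 := (min_le_right e1 (min e2 1)).trans (min_le_right e2 1)
    exact ⟨min e1 (min e2 1) / 2, by linarith, by linarith, by linarith, by linarith⟩
  have hI : (A ∪ sphere 0 1) ∩ (B ∪ sphere 0 1) = sphere 0 1 := by
    rw [← inter_union_distrib_right, hAB.inter_eq, empty_union]
  have hN := jan (A ∪ sphere 0 1) (B ∪ sphere 0 1) _ _ (hA.union (isCompact_sphere _ _))
    (hB.union (isCompact_sphere _ _)) (hI.symm ▸ jprop_sphere)
    (cut_nsep cQ sQ xQ yQ h0 l3 (k1 e h0.le l1)) (cut_nsep cP sP xP yP h0 l3 (k2 e h0.le l2))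
  set F := ((A ∪ sphere (0 : ℂ) 1) ∪ (B ∪ sphere 0 1))ᶜ with hF
  have hFo : IsOpen F :=
    ((hA.union (isCompact_sphere _ _)).union (hB.union (isCompact_sphere _ _))).isClosed.isOpen_compl
  have hrad : ∀ z ∈ P, z ∈ Q → ∀ s : ℝ, 0 < s → s ≤ e → ((1 - s : ℝ) : ℂ) * z ∈ F := by
    intro z zP zQ s s0 s1
    have hb := cut_norm (sP zP) s0 (s1.trans_lt l3)
    have hs : ((1 - s : ℝ) : ℂ) * z ∉ sphere (0 : ℂ) 1 := fun hs => (mem_ball.1 hb).ne hs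
    rintro ((h | h) | h | h)
    exacts [k1 s s0.le (s1.trans_lt l1) z zQ h, hs h, k2 s s0.le (s1.trans_lt l2) z zP h, hs h]
  have hsub := connectedComponentIn_subset F (((1 - e : ℝ) : ℂ) * x)
  have hp : ((1 - e : ℝ) : ℂ) * x ∈ connectedComponentIn F (((1 - e : ℝ) : ℂ) * x) :=
    mem_connectedComponentIn (hrad x xP xQ e h0 le_rfl)
  have hball : connectedComponentIn F (((1 - e : ℝ) : ℂ) * x) ⊆ ball 0 1 := by
    refine isPreconnected_connectedComponentIn.subset_left_of_subset_union isOpen_ball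
      (isClosed_closedBall (x := (0 : ℂ)) (ε := 1)).isOpen_compl
      (disjoint_compl_right.mono_left ball_subset_closedBall) (fun z hz => ?_)
      ⟨_, hp, cut_norm (sP xP) h0 l3⟩
    have hs : dist z 0 ≠ 1 := fun h => hsub hz (Or.inl (Or.inr h))
    rcases lt_or_gt_of_ne hs with h | h
    · exact Or.inl h
    · exact Or.inr fun h' => absurd (mem_closedBall.1 h') h.not_ge
  obtain ⟨κ, a1, a2, a3, a4⟩ := hArc _ x y _ _ hFo.connectedComponentIn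
    isPreconnected_connectedComponentIn (fun h => hsub h (Or.inl (Or.inr (sP xP))))
    (fun h => hsub h (Or.inl (Or.inr (sP yP)))) hxy hp hN (cut_seg h0 (hrad x xP xQ))
    (by
      rw [connectedComponentIn_eq hN]
      exact cut_seg h0 (hrad y yP yQ))
  refine ⟨κ, a1, a2, a3, fun t ht => ⟨hball (a4 ht), ?_⟩⟩
  rintro (h | h)
  exacts [hsub (a4 ht) (Or.inl (Or.inl h)), hsub (a4 ht) (Or.inr (Or.inl h))]

theorem cutSt (_hA : ArcBasSt) (hD : DiscSt) (hF : FrontSt) (hArc : ArcSt) : CutSt := by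
  rintro U A B a ⟨Φ, hΦ⟩ ha haU hA hB hAB hAa hBa
  obtain ⟨-, hfr, -, hJ, -, -, Ψ, hΨ, hinv⟩ := hD.1 Φ U hΦ
  obtain ⟨b, hb⟩ := (hF _ hJ).2 a ha haU
  have hbU : b '' Icc 0 1 ⊆ frontier U := hb.un ▸ subset_union_right
  have key : ∀ w ∈ frontier U, Ψ w ∈ sphere (0 : ℂ) 1 ∧ Φ (Ψ w) = w := by
    intro w hw
    rw [hfr] at hw
    obtain ⟨z, hz, rfl⟩ := hw
    rw [hinv z (sphere_subset_closedBall hz)]
    exact ⟨hz, rfl⟩
  have cpt : ∀ C : Set ℂ, IsCompact C → IsCompact (closedBall (0 : ℂ) 1 ∩ Φ ⁻¹' C) := fun C hC =>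
    (isCompact_closedBall _ _).of_isClosed_subset
      (hΦ.cont.preimage_isClosed_of_isClosed isClosed_closedBall hC.isClosed) inter_subset_left
  have arc : ∀ c : ℝ → ℂ, IsArc c → c '' Icc 0 1 ⊆ frontier U →
      IsCompact (Ψ '' (c '' Icc 0 1)) ∧ IsPreconnected (Ψ '' (c '' Icc 0 1)) ∧
        Ψ '' (c '' Icc 0 1) ⊆ sphere 0 1 := fun c hc hcU =>
    ⟨(isCompact_Icc.image_of_continuousOn hc.1).image_of_continuousOn
        (hΨ.mono (hcU.trans frontier_subset_closure)),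
      (isPreconnected_Icc.image _ hc.1).image _ (hΨ.mono (hcU.trans frontier_subset_closure)),
      by
        rintro _ ⟨w, hw, rfl⟩
        exact (key w (hcU hw)).1⟩
  have m0 : (0 : ℝ) ∈ Icc (0 : ℝ) 1 := ⟨le_rfl, zero_le_one⟩
  have m1 : (1 : ℝ) ∈ Icc (0 : ℝ) 1 := ⟨zero_le_one, le_rfl⟩
  have f0 := haU (mem_image_of_mem _ m0)
  have f1 := haU (mem_image_of_mem _ m1)
  obtain ⟨p1, p2, p3⟩ := arc a ha haU
  obtain ⟨q1, q2, q3⟩ := arc b hb.arc2 hbU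
  have nA : ∀ t ∈ Icc (0 : ℝ) 1, b t ∉ A := fun t ht h => by
    obtain ⟨s, hs, e⟩ := hAa ⟨h, hbU (mem_image_of_mem _ ht)⟩
    exact hb.ne s hs t ht e
  have nB : ∀ t ∈ Icc (0 : ℝ) 1, a t ∉ B := fun t ht h =>
    disjoint_left.1 hBa h (mem_image_of_mem _ ht)
  obtain ⟨κ, k1, k2, k3, k4⟩ := cut_ball hArc (x := Ψ (a 0)) (y := Ψ (a 1)) (cpt A hA) (cpt B hB)
    (disjoint_left.2 fun z h h' => disjoint_left.1 hAB h.2 h'.2) p1 q1 p2 q2 p3 q3
    (mem_image_of_mem _ (mem_image_of_mem _ m0))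
    (hb.e0 ▸ mem_image_of_mem _ (mem_image_of_mem _ m0))
    (mem_image_of_mem _ (mem_image_of_mem _ m1))
    (hb.e1 ▸ mem_image_of_mem _ (mem_image_of_mem _ m1))
    (fun h => by
      have e := congrArg Φ h
      rw [(key _ f0).2, (key _ f1).2] at e
      exact zero_ne_one (ha.2 m0 m1 e))
    (disjoint_left.2 (by
      rintro _ h ⟨_, ⟨t, ht, rfl⟩, rfl⟩
      have h2 := h.2
      rw [mem_preimage, (key _ (hbU (mem_image_of_mem _ ht))).2] at h2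
      exact nA t ht h2))
    (disjoint_left.2 (by
      rintro _ h ⟨_, ⟨t, ht, rfl⟩, rfl⟩
      have h2 := h.2
      rw [mem_preimage, (key _ (haU (mem_image_of_mem _ ht))).2] at h2
      exact nB t ht h2))
  have e0 : Φ (κ 0) = a 0 := by rw [k2, (key _ f0).2]
  have e1 : Φ (κ 1) = a 1 := by rw [k3, (key _ f1).2]
  have tri : ∀ t ∈ Icc (0 : ℝ) 1, t = 0 ∨ t = 1 ∨ t ∈ Ioo (0 : ℝ) 1 := fun t ht => by
    rcases ht.1.eq_or_lt with h | h
    · exact Or.inl h.symm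
    · rcases ht.2.eq_or_lt with h' | h'
      exacts [Or.inr (Or.inl h'), Or.inr (Or.inr ⟨h, h'⟩)]
  have hm : MapsTo κ (Icc 0 1) (closedBall (0 : ℂ) 1) := fun t ht => by
    rcases tri t ht with rfl | rfl | h
    · exact k2 ▸ sphere_subset_closedBall (key _ f0).1
    · exact k3 ▸ sphere_subset_closedBall (key _ f1).1
    · exact ball_subset_closedBall (k4 t h).1
  refine ⟨Φ ∘ κ, ⟨⟨hΦ.cont.comp k1.1 hm, hΦ.inj.comp k1.2 hm⟩, ?_, ?_, fun t ht => ?_⟩, e0, e1,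
    fun t ht => ?_⟩
  · exact (show (Φ ∘ κ) 0 = a 0 from e0) ▸ f0
  · exact (show (Φ ∘ κ) 1 = a 1 from e1) ▸ f1
  · exact hΦ.im ▸ mem_image_of_mem _ (k4 t ht).1
  · change Φ (κ t) ∉ A ∪ B
    rcases tri t ht with rfl | rfl | h
    · rw [e0]
      rintro (h | h)
      exacts [nA 0 m0 (hb.e0 ▸ h), nB 0 m0 h]
    · rw [e1]
      rintro (h | h)
      exacts [nA 1 m1 (hb.e1 ▸ h), nB 1 m1 h]
    · rintro (h' | h')
      exacts [(k4 t h).2 (Or.inl ⟨hm ht, h'⟩), (k4 t h).2 (Or.inr ⟨hm ht, h'⟩)]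

end Pool.Agent.PT
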