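import Pool.Agent.Lib.MP_c86c76_al.J.St2

/-!
Basic facts on Jordan domains.
-/

set_option autoImplicit false

namespace Pool.Agent.PT

open Set Metric Complex Filter Topology

theorem disc_closure {Φ : ℂ → ℂ} {U : Set ℂ} (h : DChart Φ U) :
    closure U = Φ '' closedBall 0 1 := by
  have hK : IsCompact (Φ '' closedBall (0 : ℂ) 1) :=
    (isCompact_closedBall 0 1).image_of_continuousOn h.cont
  apply Subset.antisymm
  · apply closure_minimal _ hK.isClosed
    rw [← h.im]
    exact image_mono ball_subset_closedBall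
  · have hc : closure (ball (0 : ℂ) 1) = closedBall 0 1 := closure_ball 0 one_ne_zero
    have := ContinuousOn.image_closure (f := Φ) (s := ball (0 : ℂ) 1) (by rw [hc]; exact h.cont)
    rwa [hc, h.im] at this

theorem disc_frontier {Φ : ℂ → ℂ} {U : Set ℂ} (h : DChart Φ U) :
    frontier U = Φ '' sphere 0 1 := by
  rw [h.op.frontier_eq, disc_closure h, ← closedBall_sdiff_ball,
    h.inj.image_sdiff_subset ball_subset_closedBall, h.im]

theorem disc_one (Φ : ℂ → ℂ) (U : Set ℂ) (h : DChart Φ U) : closure U = Φ '' closedBall 0 1 ∧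
    frontier U = Φ '' sphere 0 1 ∧ IsCompact (closure U) ∧ IsJ (frontier U) ∧
    Ins (frontier U) U ∧ (∀ V ⊆ ball (0 : ℂ) 1, IsOpen V → IsOpen (Φ '' V)) ∧
    ∃ Ψ : ℂ → ℂ, ContinuousOn Ψ (closure U) ∧ ∀ z ∈ closedBall (0 : ℂ) 1, Ψ (Φ z) = z := by
  have hK : IsCompact (closure U) := by
    rw [disc_closure h]
    exact (isCompact_closedBall 0 1).image_of_continuousOn h.cont
  refine ⟨disc_closure h, disc_frontier h, hK,
    ⟨Φ, h.cont.mono sphere_subset_closedBall, h.inj.mono sphere_subset_closedBall,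
      (disc_frontier h).symm⟩, ⟨h.op, ?_, ?_, hK.isBounded.subset subset_closure, ?_, Subset.rfl⟩,
    ?_, Function.invFunOn Φ (closedBall 0 1), ?_, ?_⟩
  · rw [← h.im]
    exact (nonempty_ball.2 one_pos).image _
  · rw [← h.im]
    exact (convex_ball (0 : ℂ) 1).isPreconnected.image _ (h.cont.mono ball_subset_closedBall)
  · rw [h.op.frontier_eq]
    exact disjoint_sdiff_right
  · intro V hV hVo
    have hc : IsCompact (Φ '' (closedBall (0 : ℂ) 1 \ V)) :=
      ((isCompact_closedBall 0 1).diff hVo).image_of_continuousOn (h.cont.mono sdiff_subset)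
    have he : Φ '' V = U \ Φ '' (closedBall (0 : ℂ) 1 \ V) := by
      apply Subset.antisymm
      · rintro _ ⟨z, hz, rfl⟩
        refine ⟨h.im ▸ mem_image_of_mem Φ (hV hz), ?_⟩
        rintro ⟨w, hw, hwz⟩
        have : w = z := h.inj hw.1 (ball_subset_closedBall (hV hz)) hwz
        exact hw.2 (this ▸ hz)
      · rintro y ⟨hy, hn⟩
        rw [← h.im] at hy
        obtain ⟨z, hz, rfl⟩ := hy
        by_contra hzV
        exact hn ⟨z, ⟨ball_subset_closedBall hz, fun hz' => hzV (mem_image_of_mem Φ hz')⟩, rfl⟩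
    rw [he]
    exact h.op.sdiff hc.isClosed
  · rw [disc_closure h]
    exact contOn_invFunOn (isCompact_closedBall 0 1) h.cont h.inj
  · intro z hz
    exact h.inj.leftInvOn_invFunOn hz

theorem disc_two (J U : Set ℂ) (hJ : IsJ J) (hU : Ins J U) : Disc U ∧ frontier U = J := by
  obtain ⟨γ, hc, hi, rfl⟩ := hJ
  obtain ⟨Φ, h1, h2, h3, h4⟩ := sch γ U hc hi hU
  have h : DChart Φ U := ⟨hU.op, h1, h2, h4⟩
  exact ⟨⟨Φ, h⟩, by rw [disc_frontier h]; exact h3.image_eq⟩

theorem disc_three (ρ : ℝ) (hρ : 0 < ρ) : DChart (fun z => ρ * z) (ball 0 ρ) := by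
  have h0 : (ρ : ℂ) ≠ 0 := by exact_mod_cast hρ.ne'
  refine ⟨isOpen_ball, by fun_prop, fun z _ w _ hzw => mul_left_cancel₀ h0 hzw, ?_⟩
  ext w
  simp only [mem_image, mem_ball_zero_iff]
  constructor
  · rintro ⟨z, hz, rfl⟩
    rw [norm_mul, Complex.norm_real, Real.norm_of_nonneg hρ.le]
    nlinarith
  · intro hw
    refine ⟨w / ρ, ?_, by field_simp⟩
    rw [norm_div, Complex.norm_real, Real.norm_of_nonneg hρ.le, div_lt_one hρ]
    exact hw

/-- The radial map of a gauge. -/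
noncomputable def discR (N : ℂ → ℝ) (z : ℂ) : ℂ := ((‖z‖ / N z : ℝ) : ℂ) * z

theorem disc_gauge (N : ℂ → ℝ) (hc : Continuous N)
    (hh : ∀ s : ℝ, 0 ≤ s → ∀ z, N (s * z) = s * N z) (hp : ∀ z, z ≠ 0 → 0 < N z) :
    Continuous (discR N) ∧ Function.Bijective (discR N) ∧ ∀ z, N (discR N z) = ‖z‖ := by
  have h0 : N 0 = 0 := by simpa using hh 0 le_rfl 0
  have hnn : ∀ z, 0 ≤ N z := fun z => by
    by_cases hz : z = 0
    · rw [hz, h0]
    · exact (hp z hz).le
  have hN : ∀ z, N (discR N z) = ‖z‖ := fun z => by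
    by_cases hz : z = 0
    · simp [discR, hz, h0]
    · rw [discR, hh _ (div_nonneg (norm_nonneg z) (hnn z)), div_mul_cancel₀ _ (hp z hz).ne']
  have hn : ∀ z, ‖discR N z‖ = ‖z‖ / N z * ‖z‖ := fun z => by
    rw [discR, norm_mul, Complex.norm_real,
      Real.norm_of_nonneg (div_nonneg (norm_nonneg z) (hnn z))]
  refine ⟨?_, ⟨?_, ?_⟩, hN⟩
  · obtain ⟨x, hx, hm⟩ := (isCompact_sphere (0 : ℂ) 1).exists_isMinOn
      (NormedSpace.sphere_nonempty.2 zero_le_one) hc.continuousOn
    have hx0 : x ≠ 0 := by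
      rintro rfl
      simp at hx
    have hm0 : 0 < N x := hp x hx0
    have hb : ∀ z, ‖discR N z‖ ≤ ‖z‖ / N x := fun z => by
      by_cases hz : z = 0
      · simp [discR, hz]
      · have hz' : 0 < ‖z‖ := norm_pos_iff.2 hz
        have h1 : N x ≤ N (((‖z‖⁻¹ : ℝ) : ℂ) * z) := hm (by
          rw [mem_sphere_zero_iff_norm, norm_mul, Complex.norm_real,
            Real.norm_of_nonneg (inv_nonneg.2 hz'.le), inv_mul_cancel₀ hz'.ne'])
        rw [hh _ (inv_nonneg.2 hz'.le), ← div_eq_inv_mul, le_div_iff₀ hz'] at h1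
        rw [hn, div_mul_eq_mul_div, div_le_div_iff₀ (hp z hz) hm0]
        nlinarith
    rw [continuous_iff_continuousAt]
    intro z
    by_cases hz : z = 0
    · subst hz
      have e : discR N 0 = 0 := by simp [discR]
      rw [ContinuousAt, e]
      refine squeeze_zero_norm hb ?_
      have : Continuous fun z : ℂ => ‖z‖ / N x := by fun_prop
      simpa using this.tendsto 0
    · exact (continuous_ofReal.continuousAt.comp
        (continuous_norm.continuousAt.div hc.continuousAt (hp z hz).ne')).mul continuousAt_id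
  · intro z w hzw
    have h1 : ‖z‖ = ‖w‖ := by rw [← hN z, hzw, hN]
    by_cases hz : z = 0
    · rw [hz, norm_zero] at h1
      rw [hz, norm_eq_zero.1 h1.symm]
    · have hz' : 0 < ‖z‖ := norm_pos_iff.2 hz
      have h2 : ‖z‖ / N z = ‖w‖ / N w := by
        have := hn z
        rw [hzw, hn, ← h1] at this
        rw [← h1]
        exact (mul_right_cancel₀ hz'.ne' this).symm
      rw [discR, discR, ← h2] at hzw
      refine mul_left_cancel₀ ?_ hzw
      exact_mod_cast (div_pos hz' (hp z hz)).ne'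
  · intro w
    by_cases hw : w = 0
    · exact ⟨0, by simp [discR, hw]⟩
    · have hw' : 0 < ‖w‖ := norm_pos_iff.2 hw
      have hq : 0 < N w / ‖w‖ := div_pos (hp w hw) hw'
      refine ⟨((N w / ‖w‖ : ℝ) : ℂ) * w, ?_⟩
      rw [discR, hh _ hq.le, norm_mul, Complex.norm_real, Real.norm_of_nonneg hq.le, ← mul_assoc,
        ← Complex.ofReal_mul]
      have : N w / ‖w‖ * ‖w‖ / (N w / ‖w‖ * N w) * (N w / ‖w‖) = 1 := by
        have := (hp w hw).ne'
        field_simp
      rw [this, Complex.ofReal_one, one_mul]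

theorem disc_four (N : ℂ → ℝ) (hc : Continuous N)
    (hh : ∀ s : ℝ, 0 ≤ s → ∀ z, N (s * z) = s * N z) (hp : ∀ z, z ≠ 0 → 0 < N z) :
    (∃ Φ, DChart Φ {z | N z < 1} ∧ Φ 0 = 0) ∧ closure {z | N z < 1} = {z | N z ≤ 1} := by
  obtain ⟨h1, h2, h3⟩ := disc_gauge N hc hh hp
  have h : DChart (discR N) {z | N z < 1} := by
    refine ⟨isOpen_lt hc continuous_const, h1.continuousOn, h2.1.injOn, ?_⟩
    ext w
    obtain ⟨z, rfl⟩ := h2.2 w
    rw [h2.1.mem_set_image, mem_ball_zero_iff, ← h3 z]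
    rfl
  refine ⟨⟨_, h, by simp [discR]⟩, ?_⟩
  rw [disc_closure h]
  ext w
  obtain ⟨z, rfl⟩ := h2.2 w
  rw [h2.1.mem_set_image, mem_closedBall_zero_iff, ← h3 z]
  rfl

theorem discSt : DiscSt := ⟨disc_one, disc_two, disc_three, disc_four⟩

end Pool.Agent.PT
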