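import Pool.Agent.Lib.MP_c86c76_al.J.St2

/-!
Two points cut a Jordan curve into two arcs.
-/

set_option autoImplicit false

namespace Pool.Agent.PT

open Set Metric Complex Filter Topology

theorem front_arc {c : ℝ → ℂ} (hc : Continuous c)
    (hi : ∀ s t, |s - t| < 2 * Real.pi → c s = c t → s = t) (u : ℝ) {v : ℝ} (h0 : v ≠ 0)
    (h : |v| < 2 * Real.pi) : IsArc fun t => c (u + t * v) := by
  refine ⟨(hc.comp (by fun_prop)).continuousOn, fun s hs t ht e => ?_⟩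
  refine mul_right_cancel₀ h0 (add_left_cancel (hi _ _ ?_ e))
  rw [add_sub_add_left_eq_sub, ← sub_mul, abs_mul]
  exact (mul_le_of_le_one_left (abs_nonneg v)
    (abs_le.2 ⟨by linarith [hs.1, ht.2], by linarith [hs.2, ht.1]⟩)).trans_lt h

theorem front_one {J : Set ℂ} (hJ : IsJ J) {p q : ℂ} (hp : p ∈ J) (hq : q ∈ J) (hpq : p ≠ q) :
    ∃ a b, Two J a b ∧ a 0 = p ∧ a 1 = q := by
  obtain ⟨γ, h1, h2, rfl⟩ := hJ
  have ms := circleMap_mem_sphere 0 zero_le_one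
  obtain ⟨c, hc⟩ : ∃ c, c = γ ∘ circleMap 0 1 := ⟨_, rfl⟩
  have c1 : Continuous c := hc ▸ h1.comp_continuous (continuous_circleMap 0 1) ms
  have c2 : ∀ s t, |s - t| < 2 * Real.pi → c s = c t → s = t := fun s t h e =>
    eq_of_circleMap_eq one_ne_zero h (h2 (ms s) (ms t) (by rw [hc] at e; exact e))
  have c3 : Function.Periodic c (2 * Real.pi) := hc ▸ (periodic_circleMap 0 1).comp γ
  have c4 : range c = γ '' sphere 0 1 := by rw [hc, range_comp, range_circleMap, abs_one]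
  rw [← c4] at hp hq ⊢
  obtain ⟨α, rfl⟩ := hp
  have c5 := c3.image_Ioc Real.two_pi_pos α
  obtain ⟨β, ⟨b1, b2⟩, rfl⟩ := c5 ▸ hq
  have b3 : β < α + 2 * Real.pi := lt_of_le_of_ne b2 fun e => hpq (by rw [e, c3])
  refine ⟨fun t => c (α + t * (β - α)), fun t => c (α + 2 * Real.pi + t * (β - (α + 2 * Real.pi))),
    ⟨front_arc c1 c2 _ (sub_ne_zero.2 b1.ne') (abs_lt.2 ⟨by linarith, by linarith⟩),
      front_arc c1 c2 _ (sub_ne_zero.2 b3.ne) (abs_lt.2 ⟨by linarith, by linarith⟩),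
      by simp [c3 α], by simp, ?_, fun s hs t ht e => ?_⟩, by simp, by simp⟩
  · refine Subset.antisymm (by rintro _ (⟨t, -, rfl⟩ | ⟨t, -, rfl⟩) <;> exact ⟨_, rfl⟩) ?_
    rw [← c5]
    rintro _ ⟨θ, ⟨t1, t2⟩, rfl⟩
    rcases le_total θ β with h | h
    · refine Or.inl ⟨(θ - α) / (β - α), ⟨div_nonneg (by linarith) (by linarith),
        (div_le_one (by linarith)).2 (by linarith)⟩, congrArg c ?_⟩
      rw [div_mul_cancel₀ _ (sub_ne_zero.2 b1.ne'), add_sub_cancel]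
    · refine Or.inr ⟨(θ - (α + 2 * Real.pi)) / (β - (α + 2 * Real.pi)),
        ⟨div_nonneg_of_nonpos (by linarith) (by linarith),
        (div_le_one_of_neg (by linarith)).2 (by linarith)⟩, congrArg c ?_⟩
      rw [div_mul_cancel₀ _ (sub_ne_zero.2 b3.ne), add_sub_cancel]
  · have e1 := mul_pos hs.1 (sub_pos.2 b1)
    have e2 := mul_pos (sub_pos.2 hs.2) (sub_pos.2 b1)
    have e3 := mul_nonneg ht.1 (sub_pos.2 b3).le
    have e4 := mul_nonneg (sub_nonneg.2 ht.2) (sub_pos.2 b3).le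
    have := c2 _ _ (abs_lt.2 ⟨by linarith, by linarith [Real.pi_pos]⟩) e
    linarith

theorem front_mid {a a' : ℝ → ℂ} (ha : IsArc a) (e0 : a' 0 = a 0) (e1 : a' 1 = a 1) {s t : ℝ}
    (hs : s ∈ Ioo (0 : ℝ) 1) (ht : t ∈ Icc (0 : ℝ) 1) (e : a' t = a s) : t ∈ Ioo (0 : ℝ) 1 := by
  refine ⟨lt_of_le_of_ne ht.1 ?_, lt_of_le_of_ne ht.2 ?_⟩
  · rintro rfl
    exact hs.1.ne (ha.2 (left_mem_Icc.2 zero_le_one) (Ioo_subset_Icc_self hs) (e0.symm.trans e))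
  · rintro rfl
    exact hs.2.ne' (ha.2 (right_mem_Icc.2 zero_le_one) (Ioo_subset_Icc_self hs) (e1.symm.trans e))

theorem front_key {J : Set ℂ} {a a' b : ℝ → ℂ} (h : Two J a' b) (ha : IsArc a) (e0 : a' 0 = a 0)
    (e1 : a' 1 = a 1) (hs : a '' Ioo 0 1 ⊆ a' '' Icc 0 1) : Two J a b := by
  have m0 : (0 : ℝ) ∈ Icc (0 : ℝ) 1 := left_mem_Icc.2 zero_le_one
  have m1 : (1 : ℝ) ∈ Icc (0 : ℝ) 1 := right_mem_Icc.2 zero_le_one
  have s1 : MapsTo a (Icc 0 1) (a' '' Icc 0 1) := fun t ht => by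
    rcases eq_endpoints_or_mem_Ioo_of_mem_Icc ht with rfl | rfl | ht
    exacts [⟨0, m0, e0⟩, ⟨1, m1, e1⟩, hs ⟨t, ht, rfl⟩]
  have s2 := intermediate_value_Icc zero_le_one
    ((contOn_invFunOn isCompact_Icc h.arc1.1 h.arc1.2).comp ha.1 s1)
  simp only [Function.comp, ← e0, ← e1, h.arc1.2.leftInvOn_invFunOn m0,
    h.arc1.2.leftInvOn_invFunOn m1] at s2
  refine ⟨ha, h.arc2, e0.symm.trans h.e0, e1.symm.trans h.e1, ?_, fun s a1 t a2 e => ?_⟩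
  · rw [← h.un, s1.image_subset.antisymm ?_]
    rintro _ ⟨t, ht, rfl⟩
    obtain ⟨s, a1, rfl⟩ := s2 ht
    exact ⟨s, a1, (Function.invFunOn_eq (s1 a1)).symm⟩
  · obtain ⟨u, a3, a4⟩ := hs ⟨s, a1, rfl⟩
    exact h.ne u (front_mid ha e0 e1 a1 a3 a4) t a2 (a4.trans e)

theorem frontSt (hA : ArcBasSt) : FrontSt := by
  refine fun J hJ => ⟨fun p hp q hq => front_one hJ hp hq, fun a ha hs => ?_⟩
  have m0 : (0 : ℝ) ∈ Icc (0 : ℝ) 1 := left_mem_Icc.2 zero_le_one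
  have m1 : (1 : ℝ) ∈ Icc (0 : ℝ) 1 := right_mem_Icc.2 zero_le_one
  obtain ⟨a', b', h, e0, e1⟩ := front_one hJ (hs ⟨0, m0, rfl⟩) (hs ⟨1, m1, rfl⟩)
    fun e => zero_ne_one (ha.2 m0 m1 e)
  rcases isPreconnected_iff_subset_of_disjoint_closed.1
    (isPreconnected_Ioo.image a (ha.1.mono Ioo_subset_Icc_self)) _ _
    (isCompact_Icc.image_of_continuousOn h.arc1.1).isClosed
    (isCompact_Icc.image_of_continuousOn h.arc2.1).isClosed
    (h.un ▸ (image_mono Ioo_subset_Icc_self).trans hs) (eq_empty_of_forall_notMem (by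
      rintro _ ⟨⟨s, a1, rfl⟩, ⟨t, a2, a3⟩, u, a4, a5⟩
      exact h.ne t (front_mid ha e0 e1 a1 a2 a3) u a4 (a3.trans a5.symm))) with e | e
  · exact ⟨b', front_key h ha e0 e1 e⟩
  · exact ⟨a', front_key (hA.2.2.2.2.2.2 J a' b' h).1 ha (h.e0 ▸ e0) (h.e1 ▸ e1) e⟩

end Pool.Agent.PT
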