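import Pool.Agent.Lib.MP_c86c76_al.J.St2

/-!
An embedded disc can be moved to standard position on some small ball.
-/

set_option autoImplicit false

namespace Pool.Agent.PT

open Set Metric Complex Filter Topology

noncomputable section

/-- An open embedding of a closed ball into the ball of radius `ρ`. -/
structure GermEmb (ψ : ℂ → ℂ) (c : ℂ) (r ρ : ℝ) : Prop where
  cont : ContinuousOn ψ (closedBall c r)
  inj : InjOn ψ (closedBall c r)
  mp : MapsTo ψ (closedBall c r) (ball 0 ρ)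
  op : ∀ V ⊆ ball c r, IsOpen V → IsOpen (ψ '' V)

theorem germ_open (hR : RelSt) {ρ : ℝ} {h : ℂ → ℂ} (hh : Rel (ball 0 ρ) h) {U : Set ℂ}
    (hU : U ⊆ ball 0 ρ) (ho : IsOpen U) : IsOpen (h '' U) := by
  obtain ⟨h', hh', e⟩ := hR.2.2.1 _ h isOpen_ball isBounded_ball hh
  have : h '' U = ball 0 ρ ∩ h' ⁻¹' U := by
    ext w
    constructor
    · rintro ⟨z, hz, rfl⟩
      refine ⟨hh.bij.mapsTo (hU hz), ?_⟩
      rw [mem_preimage, (e z (subset_closure (hU hz))).1]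
      exact hz
    · rintro ⟨hw, hw'⟩
      exact ⟨h' w, hw', (e w (subset_closure hw)).2⟩
  rw [this]
  exact (hh'.cont.mono subset_closure).isOpen_inter_preimage isOpen_ball ho

theorem germ_comp (hR : RelSt) {ψ h : ℂ → ℂ} {c : ℂ} {r ρ : ℝ} (hψ : GermEmb ψ c r ρ)
    (hh : Rel (ball 0 ρ) h) : GermEmb (h ∘ ψ) c r ρ where
  cont := hh.cont.comp hψ.cont fun _ hz => subset_closure (hψ.mp hz)
  inj := hh.bij.injOn.comp hψ.inj hψ.mp
  mp := hh.bij.mapsTo.comp hψ.mp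
  op := fun V hV ho => by
    rw [image_comp]
    refine germ_open hR hh ?_ (hψ.op V hV ho)
    rintro _ ⟨z, hz, rfl⟩
    exact hψ.mp (ball_subset_closedBall (hV hz))

theorem germ_dist (m : ℝ) (z : ℂ) : dist ((starRingEnd ℂ) z) (m : ℂ) = dist z (m : ℂ) := by
  rw [← Complex.dist_conj_conj z m, Complex.conj_ofReal]

theorem germ_conj {ψ : ℂ → ℂ} {m r ρ : ℝ} (hψ : GermEmb ψ m r ρ) :
    GermEmb (ψ ∘ starRingEnd ℂ) m r ρ := by
  have hm : MapsTo (starRingEnd ℂ) (closedBall (m : ℂ) r) (closedBall (m : ℂ) r) := fun z hz => by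
    rw [mem_closedBall, germ_dist]
    exact hz
  refine ⟨hψ.cont.comp Complex.continuous_conj.continuousOn hm,
    hψ.inj.comp (starRingEnd ℂ).injective.injOn hm, hψ.mp.comp hm, fun V hV ho => ?_⟩
  rw [image_comp]
  refine hψ.op _ ?_ (Complex.conjCLE.toHomeomorph.isOpenMap V ho)
  rintro _ ⟨z, hz, rfl⟩
  rw [mem_ball, germ_dist]
  exact hV hz

/-- An embedding that fixes the sphere maps the ball onto itself. -/
theorem germ_ball {χ : ℂ → ℂ} {m : ℂ} {s ρ : ℝ} (hs : 0 < s) (hχ : GermEmb χ m s ρ)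
    (hf : ∀ z ∈ sphere m s, χ z = z) : Rel (ball m s) χ := by
  have hW : IsOpen (χ '' ball m s) := hχ.op _ Subset.rfl isOpen_ball
  have hK : IsCompact (χ '' closedBall m s) :=
    (isCompact_closedBall m s).image_of_continuousOn hχ.cont
  have hc : ∀ w ∈ closure (χ '' ball m s), w ∉ sphere m s → w ∈ χ '' ball m s := by
    intro w hw hw'
    obtain ⟨z, hz, rfl⟩ :=
      closure_minimal (image_mono ball_subset_closedBall) hK.isClosed hw
    rcases (mem_closedBall.1 hz).lt_or_eq with h | h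
    · exact ⟨z, h, rfl⟩
    · exact absurd ((hf z h).symm ▸ h) hw'
  have h1 : MapsTo χ (ball m s) (ball m s) := by
    intro z hz
    by_contra hn
    rcases (not_lt.1 fun h => hn (mem_ball.2 h)).lt_or_eq with h | h
    · have hsub : (closedBall m s)ᶜ ⊆ χ '' ball m s :=
        (car_out m hs).subset_of_closure_inter_subset hW
          ⟨χ z, fun h' => absurd (mem_closedBall.1 h') (not_le.2 h), z, hz, rfl⟩
          fun w hw => hc w hw.1 fun h' => hw.2 (sphere_subset_closedBall h')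
      refine NormedSpace.unbounded_univ ℝ ℂ
        (((isBounded_closedBall (x := m) (r := s)).union hK.isBounded).subset fun w _ => ?_)
      by_cases hw : w ∈ closedBall m s
      · exact Or.inl hw
      · exact Or.inr (image_mono ball_subset_closedBall (hsub hw))
    · have h2 : χ z ∈ sphere m s := h.symm
      have h3 : z = χ z :=
        hχ.inj (ball_subset_closedBall hz) (sphere_subset_closedBall h2) (hf _ h2).symm
      exact hn (h3 ▸ hz)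
  have h2 : ball m s ⊆ χ '' ball m s :=
    (convex_ball m s).isPreconnected.subset_of_closure_inter_subset hW
      ⟨χ m, h1 (mem_ball_self hs), m, mem_ball_self hs, rfl⟩
      fun w hw => hc w hw.1 fun h' => (mem_ball.1 hw.2).ne h'
  refine ⟨?_, ⟨h1, hχ.inj.mono ball_subset_closedBall, h2⟩, ?_⟩
  · rw [closure_ball m hs.ne']
    exact hχ.cont
  · rw [frontier_ball m hs.ne']
    exact hf

/-- One half of a closed ball with a real centre. -/
def germC (m s e : ℝ) : Set ℂ := {z | z ∈ closedBall (m : ℂ) s ∧ 0 < e * z.im}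

theorem germ_pre (m s e : ℝ) : IsPreconnected (germC m s e) := by
  refine Convex.isPreconnected ((convex_closedBall (m : ℂ) s).inter ?_)
  exact convex_halfSpace_gt (f := fun z : ℂ => e * z.im)
    ⟨fun x y => by simp [mul_add], fun c x => by simp; ring⟩ 0

/-- The two halves go to opposite sides. -/
theorem germ_side {χ : ℂ → ℂ} {m s : ℝ} {V₁ V₂ : Set ℂ} (hs : 0 < s) (o1 : IsOpen V₁)
    (o2 : IsOpen V₂) (hd : Disjoint V₁ V₂) (c1 : χ m ∈ closure V₁) (c2 : χ m ∈ closure V₂)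
    (hc : ContinuousOn χ (closedBall (m : ℂ) s)) (ho : IsOpen (χ '' ball (m : ℂ) s))
    (hn : ∀ z ∈ closedBall (m : ℂ) s, z.im ≠ 0 → χ z ∈ V₁ ∪ V₂)
    (hz : ∀ z ∈ closedBall (m : ℂ) s, z.im = 0 → χ z ∉ V₁ ∧ χ z ∉ V₂) :
    (MapsTo χ (germC m s 1) V₁ ∧ MapsTo χ (germC m s (-1)) V₂) ∨
      (MapsTo χ (germC m s 1) V₂ ∧ MapsTo χ (germC m s (-1)) V₁) := by
  have key : ∀ e : ℝ, MapsTo χ (germC m s e) V₁ ∨ MapsTo χ (germC m s e) V₂ := by
    intro e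
    have := ((germ_pre m s e).image χ (hc.mono fun z hz => hz.1)).subset_or_subset o1 o2 hd (by
      rintro _ ⟨z, hz, rfl⟩
      refine hn z hz.1 fun h => ?_
      have := hz.2
      rw [h, mul_zero] at this
      exact lt_irrefl _ this)
    exact this.imp mapsTo_iff_image_subset.2 mapsTo_iff_image_subset.2
  have both : ∀ V W : Set ℂ, Disjoint V W → χ m ∈ closure W →
      (∀ z ∈ closedBall (m : ℂ) s, z.im = 0 → χ z ∉ W) → MapsTo χ (germC m s 1) V →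
      MapsTo χ (germC m s (-1)) V → False := by
    intro V W hVW hm h0 hp hq
    obtain ⟨_, ⟨z, hzb, rfl⟩, hw⟩ :=
      mem_closure_iff.1 hm _ ho ⟨m, mem_ball_self hs, rfl⟩
    have hz' := ball_subset_closedBall hzb
    rcases lt_trichotomy z.im 0 with h | h | h
    · exact disjoint_left.1 hVW (hq ⟨hz', by linarith⟩) hw
    · exact h0 z hz' h hw
    · exact disjoint_left.1 hVW (hp ⟨hz', by linarith⟩) hw
  rcases key 1 with h | h <;> rcases key (-1) with h' | h'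
  · exact (both V₁ V₂ hd c2 (fun z a b => (hz z a b).2) h h').elim
  · exact Or.inl ⟨h, h'⟩
  · exact Or.inr ⟨h, h'⟩
  · exact (both V₂ V₁ hd.symm c1 (fun z a b => (hz z a b).1) h h').elim

/-- A semicircle. -/
def germL (m s e t : ℝ) : ℂ := ⟨m + s * (2 * t - 1), e * (s * √(1 - (2 * t - 1) ^ 2))⟩

theorem germ_L_cont (m s e : ℝ) : Continuous (germL m s e) := by
  have : germL m s e = fun t : ℝ => ((m + s * (2 * t - 1) : ℝ) : ℂ) +
      ((e * (s * √(1 - (2 * t - 1) ^ 2)) : ℝ) : ℂ) * Complex.I := by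
    funext t
    apply Complex.ext <;> simp [germL, -Complex.ofReal_mul, -Complex.ofReal_add]
  rw [this]
  fun_prop

theorem germ_sq (m s : ℝ) (hs : 0 < s) (z : ℂ) :
    z ∈ sphere (m : ℂ) s ↔ (z.re - m) ^ 2 + z.im ^ 2 = s ^ 2 := by
  rw [mem_sphere, Complex.dist_eq, ← sq_eq_sq₀ (norm_nonneg _) hs.le, Complex.sq_norm,
    Complex.normSq_apply]
  simp only [Complex.sub_re, Complex.ofReal_re, Complex.sub_im, Complex.ofReal_im, sub_zero]
  constructor <;> intro h <;> linarith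

theorem germ_L_sph {m s e t : ℝ} (hs : 0 < s) (he : e ^ 2 = 1) (ht : t ∈ Icc (0 : ℝ) 1) :
    germL m s e t ∈ sphere (m : ℂ) s := by
  rw [germ_sq m s hs]
  have h : √(1 - (2 * t - 1) ^ 2) ^ 2 = 1 - (2 * t - 1) ^ 2 :=
    Real.sq_sqrt (by nlinarith [ht.1, ht.2])
  simp only [germL]
  rw [mul_pow, mul_pow, h, he]
  ring

theorem germ_L_pos {m s e t : ℝ} (hs : 0 < s) (he : e ^ 2 = 1) (ht : t ∈ Ioo (0 : ℝ) 1) :
    0 < e * (germL m s e t).im := by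
  have h : 0 < √(1 - (2 * t - 1) ^ 2) := Real.sqrt_pos.2 (by nlinarith [ht.1, ht.2])
  simp only [germL]
  rw [← mul_assoc, ← sq, he, one_mul]
  positivity

theorem germ_L_surj {m s e : ℝ} (hs : 0 < s) (he : e ^ 2 = 1) {z : ℂ}
    (hz : z ∈ sphere (m : ℂ) s) (hp : 0 < e * z.im) : ∃ t ∈ Icc (0 : ℝ) 1, germL m s e t = z := by
  rw [germ_sq m s hs] at hz
  have h1 : |z.re - m| ≤ s := abs_le_of_sq_le_sq' (by nlinarith) hs.le |> abs_le.2
  have h2 := abs_le.1 h1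
  have hx : 2 * (((z.re - m) / s + 1) / 2) - 1 = (z.re - m) / s := by ring
  refine ⟨((z.re - m) / s + 1) / 2, ⟨?_, ?_⟩, ?_⟩
  · have : -1 ≤ (z.re - m) / s := by rw [le_div_iff₀ hs]; linarith
    linarith
  · have : (z.re - m) / s ≤ 1 := by rw [div_le_iff₀ hs]; linarith
    linarith
  · have h3 : √(1 - ((z.re - m) / s) ^ 2) = e * z.im / s := by
      rw [Real.sqrt_eq_iff_mul_self_eq_of_pos (div_pos hp hs)]
      field_simp
      rw [he]
      linarith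
    apply Complex.ext
    · simp only [germL, hx]
      field_simp
      ring
    · simp only [germL, hx, h3]
      field_simp
      rw [he, one_mul]

/-- Straighten one half of the sphere. -/
theorem germ_half (hR : RelSt) (hM : MoveSt) {ψ : ℂ → ℂ} {m s ρ e : ℝ} {V : Set ℂ} (hs : 0 < s)
    (he : e ^ 2 = 1) (hψ : GermEmb ψ m s ρ) (hV : Disc V) (hB : V ⊆ ball 0 ρ)
    (h0 : ∀ z ∈ closedBall (m : ℂ) s, z.im = 0 → ψ z = z ∧ z ∈ frontier V)
    (h1 : germC m s e ⊆ V) (h2 : MapsTo ψ (germC m s e) V) :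
    ∃ h, Rel (ball 0 ρ) h ∧ (∀ z ∉ V, h z = z) ∧
      ∀ z ∈ sphere (m : ℂ) s, 0 < e * z.im → h (ψ z) = z := by
  have hL : MapsTo (germL m s e) (Icc 0 1) (closedBall (m : ℂ) s) := fun t ht =>
    sphere_subset_closedBall (germ_L_sph hs he ht)
  have hC : MapsTo (germL m s e) (Ioo 0 1) (germC m s e) := fun t ht =>
    ⟨hL (Ioo_subset_Icc_self ht), germ_L_pos hs he ht⟩
  have hI : InjOn (germL m s e) (Icc 0 1) := fun t _ t' _ h => by
    have := congrArg Complex.re h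
    simp only [germL] at this
    have h' : s * (t - t') = 0 := by linarith
    rcases mul_eq_zero.1 h' with h'' | h''
    · exact absurd h'' hs.ne'
    · linarith
  have e0 := h0 _ (hL (left_mem_Icc.2 zero_le_one)) (by simp [germL])
  have e1 := h0 _ (hL (right_mem_Icc.2 zero_le_one)) (by norm_num [germL])
  have c1 : Cut V (germL m s e) :=
    ⟨⟨(germ_L_cont m s e).continuousOn, hI⟩, e0.2, e1.2, fun t ht => h1 (hC ht)⟩
  have c2 : Cut V (ψ ∘ germL m s e) :=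
    ⟨⟨hψ.cont.comp (germ_L_cont m s e).continuousOn hL, hψ.inj.comp hI hL⟩,
      by rw [Function.comp_apply, e0.1]; exact e0.2,
      by rw [Function.comp_apply, e1.1]; exact e1.2, fun t ht => h2 (hC ht)⟩
  obtain ⟨h, hh, hm⟩ := hM V _ _ hV c2 c1 e0.1 e1.1
  obtain ⟨Φ, hΦ⟩ := hV
  obtain ⟨h', hh', q1, q2⟩ := hR.2.2.2.1 (ball 0 ρ) V h isOpen_ball hΦ.op hB hh
  refine ⟨h', hh', q2, fun z hz hp => ?_⟩
  rw [q1 (subset_closure (h2 ⟨sphere_subset_closedBall hz, hp⟩))]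
  obtain ⟨t, ht, rfl⟩ := germ_L_surj hs he hz hp
  exact hm t ht

/-- The case of equal sides. -/
theorem germ_main (hR : RelSt) (hM : MoveSt) {ψ : ℂ → ℂ} {m s ρ : ℝ} {V₁ V₂ : Set ℂ} (hs : 0 < s)
    (hψ : GermEmb ψ m s ρ) (hb : ball (m : ℂ) s ⊆ ball 0 ρ) (d1 : Disc V₁) (d2 : Disc V₂)
    (b1 : V₁ ⊆ ball 0 ρ) (b2 : V₂ ⊆ ball 0 ρ) (hd : Disjoint V₁ V₂)
    (h0 : ∀ z ∈ closedBall (m : ℂ) s, z.im = 0 → ψ z = z ∧ z ∈ frontier V₁ ∧ z ∈ frontier V₂)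
    (p1 : germC m s 1 ⊆ V₁) (q1 : MapsTo ψ (germC m s 1) V₁)
    (q2 : MapsTo ψ (germC m s (-1)) V₂) (p2 : germC m s (-1) ⊆ V₂) :
    ∃ h, Rel (ball 0 ρ) h ∧ ∀ z ∈ ball (m : ℂ) s, h (ψ z) = z := by
  obtain ⟨h2, r2, f2, g2⟩ := germ_half hR hM hs (by norm_num) hψ d1 b1
    (fun z a b => ⟨(h0 z a b).1, (h0 z a b).2.1⟩) p1 q1
  obtain ⟨h3, r3, f3, g3⟩ := germ_half hR hM hs (by norm_num) hψ d2 b2
    (fun z a b => ⟨(h0 z a b).1, (h0 z a b).2.2⟩) p2 q2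
  obtain ⟨Φ₁, o1⟩ := d1
  obtain ⟨Φ₂, o2⟩ := d2
  have r23 := hR.2.1 _ _ _ r2 r3
  have hχ : Rel (ball (m : ℂ) s) ((h3 ∘ h2) ∘ ψ) := by
    refine germ_ball hs (germ_comp hR hψ r23) fun z hz => ?_
    have hz' := sphere_subset_closedBall hz
    simp only [Function.comp_apply]
    rcases lt_trichotomy z.im 0 with h | h | h
    · have h' : 0 < -1 * z.im := by linarith
      rw [f2 _ (disjoint_right.1 hd (q2 ⟨hz', h'⟩)), g3 z hz h']
    · obtain ⟨e, e1, e2⟩ := h0 z hz' h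
      rw [o1.op.frontier_eq] at e1
      rw [o2.op.frontier_eq] at e2
      rw [e, f2 z e1.2, f3 z e2.2]
    · have h' : 0 < 1 * z.im := by linarith
      rw [g2 z hz h', f3 _ (disjoint_left.1 hd (p1 ⟨hz', h'⟩))]
  obtain ⟨χ', hχ', e⟩ := hR.2.2.1 _ _ isOpen_ball isBounded_ball hχ
  obtain ⟨h4, r4, e4, -⟩ := hR.2.2.2.1 (ball 0 ρ) _ χ' isOpen_ball isOpen_ball hb hχ'
  refine ⟨h4 ∘ h3 ∘ h2, hR.2.1 _ _ _ r23 r4, fun z hz => ?_⟩
  have := e4 (subset_closure (hχ.bij.mapsTo hz))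
  rw [(e z (subset_closure hz)).1] at this
  exact this

/-- Both cases. -/
theorem germ_main2 (hR : RelSt) (hM : MoveSt) {ψ : ℂ → ℂ} {m s ρ : ℝ} {V₁ V₂ : Set ℂ} (hs : 0 < s)
    (hψ : GermEmb ψ m s ρ) (hb : ball (m : ℂ) s ⊆ ball 0 ρ) (d1 : Disc V₁) (d2 : Disc V₂)
    (b1 : V₁ ⊆ ball 0 ρ) (b2 : V₂ ⊆ ball 0 ρ) (hd : Disjoint V₁ V₂)
    (h0 : ∀ z ∈ closedBall (m : ℂ) s, z.im = 0 → ψ z = z ∧ z ∈ frontier V₁ ∧ z ∈ frontier V₂)
    (hn : ∀ z ∈ closedBall (m : ℂ) s, z.im ≠ 0 → ψ z ∈ V₁ ∪ V₂)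
    (p1 : germC m s 1 ⊆ V₁) (p2 : germC m s (-1) ⊆ V₂) :
    ∃ (b : Bool) (h : ℂ → ℂ), Rel (ball 0 ρ) h ∧ ∀ z ∈ ball (m : ℂ) s, h (ψ (qt 0 b z)) = z := by
  have o1 : IsOpen V₁ := d1.elim fun _ h => h.op
  have o2 : IsOpen V₂ := d2.elim fun _ h => h.op
  have hm := h0 m (mem_closedBall_self hs.le) (Complex.ofReal_im m)
  rcases germ_side hs o1 o2 hd (hm.1.symm ▸ frontier_subset_closure hm.2.1)
    (hm.1.symm ▸ frontier_subset_closure hm.2.2) hψ.cont (hψ.op _ Subset.rfl isOpen_ball) hn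
    (fun z a b => by
      obtain ⟨e, e1, e2⟩ := h0 z a b
      rw [o1.frontier_eq] at e1
      rw [o2.frontier_eq] at e2
      rw [e]
      exact ⟨e1.2, e2.2⟩) with ⟨q1, q2⟩ | ⟨q2, q1⟩
  · obtain ⟨h, r, e⟩ := germ_main hR hM hs hψ hb d1 d2 b1 b2 hd h0 p1 q1 q2 p2
    exact ⟨false, h, r, fun z hz => by simpa [qt] using e z hz⟩
  · have hc : ∀ e : ℝ, MapsTo (starRingEnd ℂ) (germC m s e) (germC m s (-e)) := fun e z hz =>
      ⟨by rw [mem_closedBall, germ_dist]; exact hz.1, by simpa using hz.2⟩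
    obtain ⟨h, r, e⟩ := germ_main hR hM hs (germ_conj hψ) hb d1 d2 b1 b2 hd
      (fun z a b => by
        rw [Function.comp_apply, Complex.conj_eq_iff_im.2 b]
        exact h0 z a b) p1 (q1.comp (hc 1)) (q2.comp (by simpa using hc (-1))) p2
    exact ⟨true, h, r, fun z hz => by simpa [qt] using e z hz⟩

theorem germ_seg0 (p q : ℂ) : seg p q 0 = p := by simp [seg]

theorem germ_seg1 (p q : ℂ) : seg p q 1 = q := by simp [seg]

theorem germ_seg_cont (p q : ℂ) : Continuous (seg p q) := by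
  unfold seg
  fun_prop

theorem germ_seg_ball {ρ : ℝ} {p q : ℂ} {t : ℝ}
    (h0 : 0 ≤ t) (h1 : t ≤ 1) (h : (1 - t) * ‖p‖ + t * ‖q‖ < ρ) : seg p q t ∈ ball (0 : ℂ) ρ := by
  have e : seg p q t = ((1 - t : ℝ) : ℂ) * p + (t : ℂ) * q := by
    simp only [seg]
    push_cast
    ring
  rw [mem_ball_zero_iff, e]
  refine (norm_add_le _ _).trans_lt ?_
  rw [norm_mul, norm_mul, Complex.norm_real, Complex.norm_real, Real.norm_of_nonneg h0,
    Real.norm_of_nonneg (by linarith)]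
  exact h

/-- An arc inside the ball is prolonged to a crosscut by two segments. -/
theorem germ_three (hA : ArcBasSt) (f : ℂ → ℝ)
    (hf : ∀ p q t, f (seg p q t) = f p + t * (f q - f p)) {ρ : ℝ} {P Q : ℂ} (hρ : 0 < ρ)
    (hP : ‖P‖ = ρ) (hQ : ‖Q‖ = ρ) {μ : ℝ → ℂ} (hμ : IsArc μ)
    (hb : ∀ t ∈ Icc (0 : ℝ) 1, ‖μ t‖ < ρ) (f0 : f P < f (μ 0)) (f1 : f (μ 1) < f Q)
    (fm : ∀ t ∈ Icc (0 : ℝ) 1, f (μ 0) ≤ f (μ t) ∧ f (μ t) ≤ f (μ 1)) :
    ∃ (κ : ℝ → ℂ) (F : Set ℂ), Cut (ball 0 ρ) κ ∧ κ 0 = P ∧ κ 1 = Q ∧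
      (∀ t ∈ Icc (0 : ℝ) 1, κ ((t / 2 + 1) / 2) = μ t) ∧ IsClosed F ∧ μ (1 / 2) ∉ F ∧
      κ '' Icc 0 1 ⊆ F ∪ μ '' Icc 0 1 := by
  have i0 : (0 : ℝ) ∈ Icc (0 : ℝ) 1 := left_mem_Icc.2 zero_le_one
  have i1 : (1 : ℝ) ∈ Icc (0 : ℝ) 1 := right_mem_Icc.2 zero_le_one
  have ih : (1 / 2 : ℝ) ∈ Icc (0 : ℝ) 1 := by norm_num
  have A1 : IsArc (seg P (μ 0)) := hA.1 _ _ fun h => by rw [h] at f0; exact lt_irrefl _ f0
  have A3 : IsArc (seg (μ 1) Q) := hA.1 _ _ fun h => by rw [h] at f1; exact lt_irrefl _ f1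
  have k1 : ∀ s ∈ Icc (0 : ℝ) 1, f (μ 0) ≤ f (seg P (μ 0) s) → s = 1 := fun s hs h => by
    rw [hf] at h
    by_contra hn
    have := hs.2.lt_of_ne hn
    nlinarith
  have k3 : ∀ t ∈ Icc (0 : ℝ) 1, f (seg (μ 1) Q t) ≤ f (μ 1) → t = 0 := fun t ht h => by
    rw [hf] at h
    by_contra hn
    have := ht.1.lt_of_ne' hn
    nlinarith
  have k4 : ∀ s ∈ Icc (0 : ℝ) 1, ∀ t ∈ Icc (0 : ℝ) 1, μ s = seg (μ 1) Q t → s = 1 := by
    intro s hs t ht h
    have := k3 t ht (h ▸ (fm s hs).2)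
    rw [this, germ_seg0] at h
    exact hμ.2 hs i1 h
  have A2 : IsArc (cat μ (seg (μ 1) Q)) := hA.2.2.2.1 _ _ hμ A3 (germ_seg0 _ _).symm k4
  obtain ⟨a1, -, a3, a4, a5⟩ := hA.2.2.2.2.1 μ (seg (μ 1) Q) (germ_seg0 _ _).symm
  have j : seg P (μ 0) 1 = cat μ (seg (μ 1) Q) 0 := by rw [germ_seg1, a3]
  have A : IsArc (cat (seg P (μ 0)) (cat μ (seg (μ 1) Q))) := by
    refine hA.2.2.2.1 _ _ A1 A2 j fun s hs t ht h => k1 s hs ?_
    have : cat μ (seg (μ 1) Q) t ∈ μ '' Icc 0 1 ∪ seg (μ 1) Q '' Icc 0 1 :=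
      a1 ▸ mem_image_of_mem _ ht
    rw [h]
    rcases this with ⟨t', ht', e⟩ | ⟨t', ht', e⟩
    · rw [← e]
      exact (fm t' ht').1
    · rw [← e, hf]
      have := (fm 0 i0).2
      nlinarith [ht'.1]
  obtain ⟨c1, -, c3, c4, c5⟩ := hA.2.2.2.2.1 (seg P (μ 0)) (cat μ (seg (μ 1) Q)) j
  rw [germ_seg0] at c3
  rw [a4, germ_seg1] at c4
  refine ⟨_, seg P (μ 0) '' Icc 0 1 ∪ seg (μ 1) Q '' Icc 0 1, ⟨A, ?_, ?_, ?_⟩, c3, c4, ?_, ?_, ?_, ?_⟩
  · rw [c3, frontier_ball _ hρ.ne', mem_sphere_zero_iff_norm, hP]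
  · rw [c4, frontier_ball _ hρ.ne', mem_sphere_zero_iff_norm, hQ]
  · intro t ht
    have n0 := hb 0 i0
    have n1 := hb 1 i1
    simp only [cat]
    split_ifs with h h'
    · refine germ_seg_ball (by linarith [ht.1]) (by linarith) ?_
      rw [hP]
      nlinarith [ht.1]
    · exact mem_ball_zero_iff.2 (hb _ ⟨by linarith, by linarith⟩)
    · refine germ_seg_ball (by linarith) (by linarith [ht.2]) ?_
      rw [hQ]
      nlinarith [ht.2]
  · intro t ht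
    rw [(c5 (t / 2) ⟨by linarith [ht.1], by linarith [ht.2]⟩).2, (a5 t ht).1]
  · exact ((isCompact_Icc.image (germ_seg_cont _ _)).union
      (isCompact_Icc.image (germ_seg_cont _ _))).isClosed
  · rintro (⟨s, hs, e⟩ | ⟨t, ht, e⟩)
    · have := k1 s hs (e ▸ (fm _ ih).1)
      rw [this, germ_seg1] at e
      have := hμ.2 i0 ih e
      norm_num at this
    · have := k4 _ ih t ht e.symm
      norm_num at this
  · rw [c1, a1]
    rintro z (h | h | h)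
    · exact Or.inl (Or.inl h)
    · exact Or.inr h
    · exact Or.inl (Or.inr h)

theorem germ_disc (hA : ArcBasSt) (hD : DiscSt) {U V : Set ℂ} {a b κ : ℝ → ℂ} (hU : IsOpen U)
    (hT : Two (frontier U) a b) (hκ : Cut U κ) (e0 : κ 0 = a 0) (e1 : κ 1 = a 1)
    (hV : Ins (κ '' Icc 0 1 ∪ a '' Icc 0 1) V) : Disc V ∧ κ '' Icc 0 1 ⊆ frontier V := by
  have t : Two (κ '' Icc 0 1 ∪ a '' Icc 0 1) κ a := by
    refine ⟨hκ.arc, hT.arc1, e0, e1, rfl, fun s hs t ht h => ?_⟩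
    have h1 : a t ∈ frontier U := hT.un ▸ Or.inl (mem_image_of_mem _ ht)
    rw [hU.frontier_eq] at h1
    exact h1.2 (h ▸ hκ.mid hs)
  obtain ⟨-, j1, j2, j3⟩ := hA.2.2.2.2.2.2 _ _ _ t
  obtain ⟨d, e⟩ := hD.2.1 _ V ⟨_, j1, j2, j3⟩ hV
  exact ⟨d, e ▸ subset_union_left⟩

theorem germ_dir (hA : ArcBasSt) (hD : DiscSt) (hR : RelSt) (hF : FrontSt) (hS : SplitSt)
    (hM : MoveSt) {φ : ℂ → ℂ} {ε ρ α β am ap : ℝ} (hε : 0 < ε) (hρ : ε < ρ)
    (hφ : GermEmb φ 0 ε ρ) (hu : α ^ 2 + β ^ 2 = 1) (hβ : β ≠ 0) (hne : am ≠ ap)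
    (hw : ∀ t ∈ Icc (0 : ℝ) 1, seg am ap t ∈ ball (0 : ℂ) ε)
    (hx : ∀ t ∈ Icc (0 : ℝ) 1,
      α * (φ am).re + β * (φ am).im ≤ α * (φ (seg am ap t)).re + β * (φ (seg am ap t)).im ∧
      α * (φ (seg am ap t)).re + β * (φ (seg am ap t)).im ≤ α * (φ ap).re + β * (φ ap).im) :
    ∃ (b : Bool) (h : ℂ → ℂ) (m s : ℝ), Rel (ball 0 ρ) h ∧ 0 < s ∧
      ball (m : ℂ) s ⊆ ball 0 ε ∧ ∀ z ∈ ball (m : ℂ) s, h (φ (qt 0 b z)) = z := by
  have i0 : (0 : ℝ) ∈ Icc (0 : ℝ) 1 := left_mem_Icc.2 zero_le_one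
  have i1 : (1 : ℝ) ∈ Icc (0 : ℝ) 1 := right_mem_Icc.2 zero_le_one
  have ih : (1 / 2 : ℝ) ∈ Icc (0 : ℝ) 1 := by norm_num
  have hρ0 : 0 < ρ := hε.trans hρ
  have hBB : ball (0 : ℂ) ε ⊆ ball 0 ρ := ball_subset_ball hρ.le
  have hw' : MapsTo (seg am ap) (Icc 0 1) (closedBall (0 : ℂ) ε) := fun t ht =>
    ball_subset_closedBall (hw t ht)
  have him : ∀ t : ℝ, (seg am ap t).im = 0 := fun t => by simp [seg]
  have nrm : ∀ c : ℝ, c ^ 2 = ρ ^ 2 → ‖(⟨c * α, c * β⟩ : ℂ)‖ = ρ := fun c hc => by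
    rw [← sq_eq_sq₀ (norm_nonneg _) hρ0.le, Complex.sq_norm, Complex.normSq_mk]
    linear_combination c ^ 2 * hu + hc
  have bd : ∀ z ∈ ball (0 : ℂ) ρ, -ρ < α * z.re + β * z.im ∧ α * z.re + β * z.im < ρ := by
    intro z hz
    have h1 : ‖z‖ ^ 2 < ρ ^ 2 := pow_lt_pow_left₀ (mem_ball_zero_iff.1 hz) (norm_nonneg _)
      two_ne_zero
    rw [Complex.sq_norm, Complex.normSq_apply] at h1
    refine abs_lt.1 (abs_lt_of_sq_lt_sq ?_ hρ0.le)
    have h2 : (α * z.re + β * z.im) ^ 2 + (α * z.im - β * z.re) ^ 2 =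
        z.re * z.re + z.im * z.im := by
      linear_combination (z.re * z.re + z.im * z.im) * hu
    nlinarith [sq_nonneg (α * z.im - β * z.re)]
  have A' : IsArc (seg am ap) := hA.1 _ _ fun h => hne (Complex.ofReal_injective h)
  have hβ2 : 0 < ρ * (β * β) := mul_pos hρ0 (mul_self_pos.2 hβ)
  obtain ⟨κ, -, cκ, κ0, κ1, κm, -⟩ := germ_three hA (fun z => α * z.re + β * z.im)
    (fun p q t => by simp [seg]; ring) hρ0 (nrm (-ρ) (by ring)) (nrm ρ rfl)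
    (μ := φ ∘ seg am ap) ⟨hφ.cont.comp A'.1 hw', hφ.inj.comp A'.2 hw'⟩
    (fun t ht => mem_ball_zero_iff.1 (hφ.mp (hw' ht)))
    (by
      have := (bd _ (hφ.mp (hw' i0))).1
      have e : α * (-ρ * α) + β * (-ρ * β) = -ρ := by linear_combination -ρ * hu
      simp only [Function.comp_apply, e]
      exact this)
    (by
      have := (bd _ (hφ.mp (hw' i1))).2
      have e : α * (ρ * α) + β * (ρ * β) = ρ := by linear_combination ρ * hu
      simp only [Function.comp_apply, e]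
      exact this)
    (fun t ht => by
      simp only [Function.comp_apply, germ_seg0, germ_seg1]
      exact hx t ht)
  obtain ⟨κ', F, cκ', κ0', κ1', κm', hF', hmF, hK⟩ := germ_three hA (fun z => β * z.im)
    (fun p q t => by simp [seg]; ring) hρ0 (nrm (-ρ) (by ring)) (nrm ρ rfl) A'
    (fun t ht => mem_ball_zero_iff.1 (hBB (hw t ht)))
    (by simp only [him]; nlinarith) (by simp only [him]; nlinarith)
    (fun t _ => by simp only [him]; exact ⟨le_rfl, le_rfl⟩)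
  have dB : DChart (fun z => (ρ : ℂ) * z) (ball 0 ρ) := hD.2.2.1 ρ hρ0
  obtain ⟨h1, r1, e1⟩ := hM _ κ κ' ⟨_, dB⟩ cκ cκ' (κ0.trans κ0'.symm) (κ1.trans κ1'.symm)
  have hψ : GermEmb (h1 ∘ φ) 0 ε ρ := germ_comp hR hφ r1
  have hq : ∀ t ∈ Icc (0 : ℝ) 1, (t / 2 + 1) / 2 ∈ Icc (0 : ℝ) 1 := fun t ht =>
    ⟨by linarith [ht.1], by linarith [ht.2]⟩
  have fx : ∀ t ∈ Icc (0 : ℝ) 1, (h1 ∘ φ) (seg am ap t) = seg am ap t := fun t ht => by
    have := e1 _ (hq t ht)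
    rw [κm t ht, κm' t ht] at this
    exact this
  obtain ⟨a, b, hT, a0, a1⟩ := (hF _ (hD.1 _ _ dB).2.2.2.1).1 _ cκ'.f0 _ cκ'.f1 fun h => by
    have := cκ'.arc.2 i0 i1 h
    norm_num at this
  obtain ⟨V₁, V₂, n1, n2, hd, hV⟩ := hS _ a b κ' ⟨_, dB⟩ hT cκ' a0.symm a1.symm
  obtain ⟨d1, k1⟩ := germ_disc hA hD isOpen_ball hT cκ' a0.symm a1.symm n1
  obtain ⟨d2, k2⟩ := germ_disc hA hD isOpen_ball (hA.2.2.2.2.2.2 _ _ _ hT).1 cκ'
    (a0.symm.trans hT.e0) (a1.symm.trans hT.e1) n2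
  have b1 : V₁ ⊆ ball 0 ρ := fun z hz => ((hV ▸ Or.inl hz : z ∈ ball 0 ρ \ κ' '' Icc 0 1)).1
  have b2 : V₂ ⊆ ball 0 ρ := fun z hz => ((hV ▸ Or.inr hz : z ∈ ball 0 ρ \ κ' '' Icc 0 1)).1
  have em : seg am ap (1 / 2) = (((am + ap) / 2 : ℝ) : ℂ) := by
    simp only [seg]
    push_cast
    ring
  have hd0 : ap - am ≠ 0 := sub_ne_zero.2 hne.symm
  have hmε := hw _ ih
  have fm := fx _ ih
  rw [em] at hmF hmε fm
  generalize hm : (am + ap) / 2 = m at hmF hmε fm em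
  have hN : ball (0 : ℂ) ε ∩ Fᶜ ∩ (h1 ∘ φ) ⁻¹' Fᶜ ∩ ball (m : ℂ) (|ap - am| / 2) ∈ 𝓝 (m : ℂ) := by
    refine inter_mem (inter_mem (inter_mem (isOpen_ball.mem_nhds hmε)
      (hF'.isOpen_compl.mem_nhds hmF)) ?_) (ball_mem_nhds _ (by positivity))
    refine (hψ.cont.continuousAt (mem_of_superset (isOpen_ball.mem_nhds hmε)
      ball_subset_closedBall)).preimage_mem_nhds (hF'.isOpen_compl.mem_nhds ?_)
    rw [fm]
    exact hmF
  obtain ⟨s, hs, hN⟩ := Metric.nhds_basis_closedBall.mem_iff.1 hN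
  have sε : closedBall (m : ℂ) s ⊆ ball 0 ε := fun z hz => (hN hz).1.1.1
  have sε' : closedBall (m : ℂ) s ⊆ closedBall 0 ε := sε.trans ball_subset_closedBall
  have hψ' : GermEmb (h1 ∘ φ) m s ρ := ⟨hψ.cont.mono sε', hψ.inj.mono sε', hψ.mp.mono_left sε',
    fun V h ho => hψ.op V (h.trans (ball_subset_closedBall.trans sε)) ho⟩
  have h0 : ∀ z ∈ closedBall (m : ℂ) s, z.im = 0 →
      (h1 ∘ φ) z = z ∧ z ∈ frontier V₁ ∧ z ∈ frontier V₂ := by
    intro z hz hi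
    have h2 : |z.re - m| < |ap - am| / 2 := by
      have := (Complex.abs_re_le_norm (z - m)).trans_lt (mem_ball_iff_norm.1 (hN hz).2)
      simpa using this
    have h3 : |(z.re - m) / (ap - am)| < 1 / 2 := by
      rw [abs_div, div_lt_iff₀ (abs_pos.2 hd0)]
      linarith
    have h4 := abs_lt.1 h3
    have ht : (z.re - m) / (ap - am) + 1 / 2 ∈ Icc (0 : ℝ) 1 := ⟨by linarith, by linarith⟩
    have e : seg am ap ((z.re - m) / (ap - am) + 1 / 2) = z := by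
      apply Complex.ext
      · simp only [seg, Complex.add_re, Complex.ofReal_re, Complex.mul_re, Complex.sub_re,
          Complex.ofReal_im, zero_mul, sub_zero]
        rw [← hm]
        field_simp
        ring
      · rw [him, hi]
    have hz' : z ∈ κ' '' Icc 0 1 := ⟨_, hq _ ht, (κm' _ ht).trans e⟩
    exact ⟨e ▸ fx _ ht, k1 hz', k2 hz'⟩
  have hn : ∀ χ : ℂ → ℂ, InjOn χ (closedBall 0 ε) →
      (∀ t ∈ Icc (0 : ℝ) 1, χ (seg am ap t) = seg am ap t) → ∀ z ∈ closedBall (m : ℂ) s,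
      χ z ∈ ball (0 : ℂ) ρ → χ z ∉ F → z.im ≠ 0 → χ z ∈ V₁ ∪ V₂ := by
    intro χ c1 c2 z hz c3 c4 c5
    rw [hV]
    refine ⟨c3, fun h => ?_⟩
    rcases hK h with h | ⟨t, ht, h⟩
    · exact c4 h
    · rw [← c2 t ht] at h
      exact c5 (c1 (hw' ht) (sε' hz) h ▸ him t)
  have hn' : ∀ z ∈ closedBall (m : ℂ) s, z.im ≠ 0 → (h1 ∘ φ) z ∈ V₁ ∪ V₂ := fun z hz =>
    hn _ hψ.inj fx z hz (hψ'.mp hz) (hN hz).1.2
  have hb : ball (m : ℂ) s ⊆ ball 0 ρ := ball_subset_closedBall.trans (sε.trans hBB)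
  have hm0 := h0 m (mem_closedBall_self hs.le) (Complex.ofReal_im m)
  have fin : ∃ (b : Bool) (h : ℂ → ℂ), Rel (ball 0 ρ) h ∧
      ∀ z ∈ ball (m : ℂ) s, h ((h1 ∘ φ) (qt 0 b z)) = z := by
    rcases germ_side (χ := id) hs n1.op n2.op hd (frontier_subset_closure hm0.2.1)
      (frontier_subset_closure hm0.2.2) continuousOn_id (by simp)
      (fun z hz => hn id (injOn_id _) (fun _ _ => rfl) z hz (hBB (sε hz)) (hN hz).1.1.2)
      (fun z a b => by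
        obtain ⟨-, e1, e2⟩ := h0 z a b
        rw [n1.op.frontier_eq] at e1
        rw [n2.op.frontier_eq] at e2
        exact ⟨e1.2, e2.2⟩) with ⟨p1, p2⟩ | ⟨p1, p2⟩
    · exact germ_main2 hR hM hs hψ' hb d1 d2 b1 b2 hd h0 hn' p1 p2
    · exact germ_main2 hR hM hs hψ' hb d2 d1 b2 b1 hd.symm
        (fun z a b => ⟨(h0 z a b).1, (h0 z a b).2.symm⟩) (fun z a b => (hn' z a b).symm) p1 p2
  obtain ⟨c, h, r, e⟩ := fin
  exact ⟨c, h ∘ h1, m, s, hR.2.1 _ _ _ r1 r, hs, ball_subset_closedBall.trans sε, e⟩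

theorem germSt (hA : ArcBasSt) (hD : DiscSt) (hR : RelSt) (hF : FrontSt) (hS : SplitSt)
    (hM : MoveSt) : GermSt := by
  intro φ ε ρ hε hρ c1 c2 c3 c4
  have hφ : GermEmb φ 0 ε ρ := ⟨c1, c2, c3, c4⟩
  have hI : ∀ t ∈ Icc (-(ε / 2)) (ε / 2), (t : ℂ) ∈ ball (0 : ℂ) ε := fun t ht => by
    rw [mem_ball_zero_iff, Complex.norm_real, Real.norm_eq_abs, abs_lt]
    exact ⟨by linarith [ht.1], by linarith [ht.2]⟩
  have il : -(ε / 2) ∈ Icc (-(ε / 2)) (ε / 2) := left_mem_Icc.2 (by linarith)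
  have ir : ε / 2 ∈ Icc (-(ε / 2)) (ε / 2) := right_mem_Icc.2 (by linarith)
  have hc : ContinuousOn (fun t : ℝ => φ t) (Icc (-(ε / 2)) (ε / 2)) :=
    c1.comp Complex.continuous_ofReal.continuousOn fun t ht => ball_subset_closedBall (hI t ht)
  obtain ⟨α, β, hu, hβ, hne⟩ : ∃ α β : ℝ, α ^ 2 + β ^ 2 = 1 ∧ β ≠ 0 ∧
      α * (φ (-(ε / 2) : ℝ)).re + β * (φ (-(ε / 2) : ℝ)).im ≠
        α * (φ (ε / 2 : ℝ)).re + β * (φ (ε / 2 : ℝ)).im := by
    by_cases h : (φ (-(ε / 2) : ℝ)).im = (φ (ε / 2 : ℝ)).im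
    · refine ⟨3 / 5, 4 / 5, by norm_num, by norm_num, fun h' => ?_⟩
      have := Complex.ofReal_injective (c2 (ball_subset_closedBall (hI _ il))
        (ball_subset_closedBall (hI _ ir)) (Complex.ext (by linarith) h))
      linarith
    · exact ⟨0, 1, by norm_num, by norm_num, fun h' => h (by linarith)⟩
  have hg : ContinuousOn (fun t : ℝ => α * (φ t).re + β * (φ t).im) (Icc (-(ε / 2)) (ε / 2)) :=
    (continuousOn_const.mul (Complex.continuous_re.comp_continuousOn hc)).add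
      (continuousOn_const.mul (Complex.continuous_im.comp_continuousOn hc))
  obtain ⟨am, ham, hmin⟩ := isCompact_Icc.exists_isMinOn ⟨_, il⟩ hg
  obtain ⟨ap, hap, hmax⟩ := isCompact_Icc.exists_isMaxOn ⟨_, il⟩ hg
  rw [isMinOn_iff] at hmin
  rw [isMaxOn_iff] at hmax
  have hs : ∀ t ∈ Icc (0 : ℝ) 1, ∃ w ∈ Icc (-(ε / 2)) (ε / 2), seg am ap t = (w : ℂ) :=
    fun t ht => ⟨am + t * (ap - am),
      ⟨by nlinarith [ht.1, ht.2, ham.1, hap.1], by nlinarith [ht.1, ht.2, ham.2, hap.2]⟩,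
      by simp [seg]⟩
  obtain ⟨b, h, m, s, r⟩ := germ_dir hA hD hR hF hS hM (am := am) (ap := ap) hε hρ hφ hu hβ
    (fun e => hne (by
      subst e
      linarith [hmin _ il, hmin _ ir, hmax _ il, hmax _ ir]))
    (fun t ht => by
      obtain ⟨w, hw, e⟩ := hs t ht
      rw [e]
      exact hI w hw)
    (fun t ht => by
      obtain ⟨w, hw, e⟩ := hs t ht
      rw [e]
      exact ⟨hmin w hw, hmax w hw⟩)
  exact ⟨0, b, h, m, s, r⟩

end

end Pool.Agent.PT
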