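import Pool.Agent.Lib.MP_c86c76_al.J.St2

/-!
One crosscut of a disc can be moved to another one with the same ends.
-/

set_option autoImplicit false

namespace Pool.Agent.PT

open Set Metric Complex Filter Topology

variable {U V V' J J' : Set ℂ} {κ κ' a b : ℝ → ℂ}

theorem move_two (hκ : Cut U κ) (hU : IsOpen U) (h : Two (frontier U) a b) (h0 : κ 0 = a 0)
    (h1 : κ 1 = a 1) : Two (κ '' Icc 0 1 ∪ a '' Icc 0 1) κ a :=
  ⟨hκ.arc, h.arc1, h0, h1, rfl, fun s hs t ht e => by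
    have k : a t ∈ frontier U := h.un ▸ Or.inl ⟨t, ht, rfl⟩
    exact (hU.frontier_eq ▸ k).2 (e ▸ hκ.mid hs)⟩

theorem move_jor {t : ℝ} (ht : t ∈ Icc (0 : ℝ) 1) : ∃ z ∈ sphere (0 : ℂ) 1, ∃ w ∈ sphere (0 : ℂ) 1,
    ∀ a b : ℝ → ℂ, a 0 = b 0 → a 1 = b 1 → jor a b z = a t ∧ jor a b w = b t := by
  have k : 0 ≤ 1 - (1 - 2 * t) ^ 2 := by nlinarith [ht.1, ht.2]
  have n : ∀ y : ℝ, y * y = 1 - (1 - 2 * t) ^ 2 → (⟨1 - 2 * t, y⟩ : ℂ) ∈ sphere (0 : ℂ) 1 :=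
    fun y hy => by
      rw [mem_sphere_zero_iff_norm, Complex.norm_def, normSq_mk, hy, Real.sqrt_eq_one]
      ring
  have e : (1 - (1 - 2 * t)) / 2 = t := by ring
  refine ⟨_, n _ (Real.mul_self_sqrt k), _, n (-_) ((neg_mul_neg _ _).trans (Real.mul_self_sqrt k)),
    fun a b h0 h1 => ⟨by simp only [jor, e, if_pos (Real.sqrt_nonneg _)], ?_⟩⟩
  simp only [jor, e]
  split_ifs with h
  · have := Real.mul_self_sqrt k
    rw [(neg_nonneg.1 h).antisymm (Real.sqrt_nonneg _)] at this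
    rcases mul_eq_zero.1 (show t * (t - 1) = 0 by linarith) with h | h
    exacts [h ▸ h0, sub_eq_zero.1 h ▸ h1]
  · rfl

theorem move_half (hA : ArcBasSt) (h : Two J κ a) (h' : Two J' κ' a) (i : Ins J V) (i' : Ins J' V') :
    IsClosed (V ∪ J) ∧ ∃ f : ℂ → ℂ, ContinuousOn f (V ∪ J) ∧ BijOn f V V' ∧
      ∀ t ∈ Icc (0 : ℝ) 1, f (κ t) = κ' t ∧ f (a t) = a t := by
  obtain ⟨-, c, n, e⟩ := hA.2.2.2.2.2.2 _ _ _ h
  obtain ⟨-, c', n', e'⟩ := hA.2.2.2.2.2.2 _ _ _ h'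
  obtain ⟨Φ, h1, h2, h3, h4⟩ := sch _ V c n (e ▸ i)
  obtain ⟨Φ', k1, k2, k3, k4⟩ := sch _ V' c' n' (e' ▸ i')
  have E : Φ '' closedBall 0 1 = V ∪ J := by
    rw [← ball_union_sphere, image_union, h4, h3.image_eq, e]
  have L := h2.leftInvOn_invFunOn
  have b : ball (0 : ℂ) 1 ⊆ closedBall 0 1 := ball_subset_closedBall
  refine ⟨E ▸ ((isCompact_closedBall 0 1).image_of_continuousOn h1).isClosed,
    Φ' ∘ Function.invFunOn Φ (closedBall 0 1), E ▸ k1.comp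
      (contOn_invFunOn (isCompact_closedBall 0 1) h1 h2) fun z hz => Function.invFunOn_mem hz,
    ?_, fun t ht => ?_⟩
  · rw [← h4, ← k4]
    refine (k2.mono b).bijOn_image.comp ⟨?_, ?_, fun z hz => ⟨_, ⟨z, hz, rfl⟩, L (b hz)⟩⟩
    · rintro _ ⟨z, hz, rfl⟩
      rwa [L (b hz)]
    · rintro _ ⟨z, hz, rfl⟩ _ ⟨w, hw, rfl⟩ k
      rw [L (b hz), L (b hw)] at k
      rw [k]
  · obtain ⟨z, hz, w, hw, k⟩ := move_jor ht
    have u := k κ a h.e0 h.e1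
    have v := k κ' a h'.e0 h'.e1
    constructor
    · rw [← u.1, ← h3 hz, Function.comp, L (sphere_subset_closedBall hz), k3 hz, v.1]
    · rw [← u.2, ← h3 hw, Function.comp, L (sphere_subset_closedBall hw), k3 hw, v.2, h3 hw, u.2]

theorem move_bij {f : ℂ → ℂ} {s t s' t' : Set ℂ} (h : BijOn f s t) (h' : BijOn f s' t')
    (d : Disjoint t t') : BijOn f (s ∪ s') (t ∪ t') := h.union h' (by
  rintro x (hx | hx) y (hy | hy) e
  exacts [h.injOn hx hy e, (disjoint_left.1 d (h.mapsTo hx) (e ▸ h'.mapsTo hy)).elim,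
    (disjoint_left.1 d (h.mapsTo hy) (e ▸ h'.mapsTo hx)).elim, h'.injOn hx hy e])

theorem move_un (hκ : Cut U κ) (hU : IsOpen U) : U \ κ '' Icc 0 1 ∪ κ '' Ioo 0 1 = U := by
  refine Subset.antisymm (union_subset sdiff_subset hκ.mid.image_subset) fun x hx => ?_
  by_cases k : x ∈ κ '' Icc 0 1
  · obtain ⟨t, ht, rfl⟩ := k
    rcases eq_endpoints_or_mem_Ioo_of_mem_Icc ht with rfl | rfl | k
    exacts [((hU.frontier_eq ▸ hκ.f0).2 hx).elim, ((hU.frontier_eq ▸ hκ.f1).2 hx).elim,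
      Or.inr ⟨t, k, rfl⟩]
  · exact Or.inl ⟨hx, k⟩

theorem moveSt (hA : ArcBasSt) (hD : DiscSt) (hF : FrontSt) (hS : SplitSt) : MoveSt := by
  classical
  intro U κ κ' hU hκ hκ' e0 e1
  obtain ⟨Φ, hΦ⟩ := id hU
  have op := hΦ.op
  obtain ⟨a, b, T, a0, a1⟩ := (hF _ (hD.1 Φ U hΦ).2.2.2.1).1 _ hκ.f0 _ hκ.f1
    fun e => zero_ne_one (hκ.arc.2 (by simp) (by simp) e)
  have T' := (hA.2.2.2.2.2.2 _ _ _ T).1
  obtain ⟨U₁, U₂, i1, i2, d, u⟩ := hS U a b κ hU T hκ a0.symm a1.symm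
  obtain ⟨V₁, V₂, j1, j2, d', v⟩ := hS U a b κ' hU T hκ' (e0 ▸ a0.symm) (e1 ▸ a1.symm)
  obtain ⟨c1, f, f1, f2, f3⟩ := move_half hA (move_two hκ op T a0.symm a1.symm)
    (move_two hκ' op T (e0 ▸ a0.symm) (e1 ▸ a1.symm)) i1 j1
  obtain ⟨c2, g, g1, g2, g3⟩ := move_half hA (move_two hκ op T' (T.e0 ▸ a0.symm) (T.e1 ▸ a1.symm))
    (move_two hκ' op T' (e0 ▸ T.e0 ▸ a0.symm) (e1 ▸ T.e1 ▸ a1.symm)) i2 j2
  have s1 : U₁ ⊆ U := fun x hx => (u.subset (Or.inl hx)).1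
  have s2 : U₂ ⊆ U := fun x hx => (u.subset (Or.inr hx)).1
  have fr : ∀ x ∈ a '' Icc 0 1 ∪ b '' Icc 0 1, x ∉ U := fun x hx =>
    (op.frontier_eq ▸ T.un ▸ hx : x ∈ closure U \ U).2
  set A := U₁ ∪ (κ '' Icc 0 1 ∪ a '' Icc 0 1)
  have p1 : EqOn (A.piecewise f g) f A := piecewise_eqOn A f g
  have p2 : EqOn (A.piecewise f g) g (U₂ ∪ (κ '' Icc 0 1 ∪ b '' Icc 0 1)) := fun x hx => by
    by_cases k : x ∈ A
    · obtain ⟨t, ht, rfl⟩ : x ∈ κ '' Icc 0 1 := by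
        rcases k with k | k | ⟨s, hs, rfl⟩
        · exact (hx.resolve_left (disjoint_left.1 d k)).resolve_right
            fun k' => fr x (Or.inr k') (s1 k)
        · exact k
        · rcases eq_endpoints_or_mem_Ioo_of_mem_Icc hs with rfl | rfl | k
          exacts [⟨0, hs, a0.symm⟩, ⟨1, hs, a1.symm⟩, (hx.resolve_left fun k' =>
            fr _ (Or.inl ⟨s, hs, rfl⟩) (s2 k')).resolve_right fun ⟨t, ht, e⟩ => T.ne s k t ht e.symm]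
      rw [p1 k, (f3 t ht).1, (g3 t ht).1]
    · exact piecewise_eq_of_notMem A f g k
  have p3 : ∀ t ∈ Icc (0 : ℝ) 1, A.piecewise f g (κ t) = κ' t := fun t ht =>
    (p1 (Or.inr (Or.inl ⟨t, ht, rfl⟩))).trans (f3 t ht).1
  refine ⟨A.piecewise f g, ⟨((f1.congr p1).union_of_isClosed (g1.congr p2) c1 c2).mono fun x hx => ?_,
    ?_, fun x hx => ?_⟩, p3⟩
  · by_cases k : x ∈ U
    · by_cases k' : x ∈ κ '' Icc 0 1
      exacts [Or.inl (Or.inr (Or.inl k')), (u.superset ⟨k, k'⟩).imp Or.inl Or.inl]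
    · exact (T.un.superset (op.frontier_eq.superset ⟨hx, k⟩)).imp (Or.inr ∘ Or.inr) (Or.inr ∘ Or.inr)
  · have k := move_bij (move_bij (f2.congr (p1.mono subset_union_left).symm)
      (g2.congr (p2.mono subset_union_left).symm) d') (s' := κ '' Ioo 0 1) (t' := κ' '' Ioo 0 1)
      ⟨?_, ?_, ?_⟩ (v ▸ disjoint_sdiff_left.mono_right (image_mono Ioo_subset_Icc_self))
    · rwa [u, v, move_un hκ op, move_un hκ' op] at k
    · rintro _ ⟨t, ht, rfl⟩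
      exact ⟨t, ht, (p3 t (Ioo_subset_Icc_self ht)).symm⟩
    · rintro _ ⟨s, hs, rfl⟩ _ ⟨t, ht, rfl⟩ e
      rw [p3 s (Ioo_subset_Icc_self hs), p3 t (Ioo_subset_Icc_self ht)] at e
      rw [hκ'.arc.2 (Ioo_subset_Icc_self hs) (Ioo_subset_Icc_self ht) e]
    · rintro _ ⟨t, ht, rfl⟩
      exact ⟨_, ⟨t, ht, rfl⟩, p3 t (Ioo_subset_Icc_self ht)⟩
  · rcases T.un.superset hx with ⟨t, ht, rfl⟩ | ⟨t, ht, rfl⟩
    exacts [(p1 (Or.inr (Or.inr ⟨t, ht, rfl⟩))).trans (f3 t ht).2,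
      (p2 (Or.inr (Or.inr ⟨t, ht, rfl⟩))).trans (g3 t ht).2]

end Pool.Agent.PT
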