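import Pool.Agent.Lib.MP_c86c76_al.J.St2

/-!
Homeomorphisms relative to the frontier: basic constructions.
-/

set_option autoImplicit false

namespace Pool.Agent.PT

open Set Metric Complex Filter Topology

noncomputable section

theorem rel_cases {U : Set ℂ} {z : ℂ} (hz : z ∈ closure U) : z ∈ U ∨ z ∈ frontier U := by
  rw [closure_eq_self_union_frontier] at hz
  exact hz

theorem rel_maps {U : Set ℂ} {h : ℂ → ℂ} (H : Rel U h) : MapsTo h (closure U) (closure U) := by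
  intro z hz
  rcases rel_cases hz with h1 | h1
  · exact subset_closure (H.bij.mapsTo h1)
  · rw [H.fix z h1]
    exact hz

theorem rel_comp {U : Set ℂ} {h h' : ℂ → ℂ} (H : Rel U h) (H' : Rel U h') : Rel U (h' ∘ h) :=
  ⟨H'.cont.comp H.cont (rel_maps H), H'.bij.comp H.bij, fun z hz => by
    rw [Function.comp_apply, H.fix z hz, H'.fix z hz]⟩

theorem rel_not {U : Set ℂ} (hU : IsOpen U) {z : ℂ} (hz : z ∈ frontier U) : z ∉ U := fun h => by
  have : z ∈ U ∩ frontier U := ⟨h, hz⟩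
  rw [hU.inter_frontier_eq] at this
  exact this

theorem rel_inj {U : Set ℂ} {h : ℂ → ℂ} (hU : IsOpen U) (H : Rel U h) : InjOn h (closure U) := by
  intro z hz w hw e
  rcases rel_cases hz with h1 | h1 <;> rcases rel_cases hw with h2 | h2
  · exact H.bij.injOn h1 h2 e
  · rw [H.fix w h2] at e
    exact absurd (e ▸ H.bij.mapsTo h1) (rel_not hU h2)
  · rw [H.fix z h1] at e
    exact absurd (e ▸ H.bij.mapsTo h2) (rel_not hU h1)
  · rwa [H.fix z h1, H.fix w h2] at e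

theorem rel_image {U : Set ℂ} {h : ℂ → ℂ} (H : Rel U h) : h '' closure U = closure U := by
  refine (rel_maps H).image_subset.antisymm fun w hw => ?_
  rcases rel_cases hw with h1 | h1
  · obtain ⟨z, hz, e⟩ := H.bij.surjOn h1
    exact ⟨z, subset_closure hz, e⟩
  · exact ⟨w, hw, H.fix w h1⟩

theorem rel_inv {U : Set ℂ} {h : ℂ → ℂ} (hU : IsOpen U) (hb : Bornology.IsBounded U)
    (H : Rel U h) : ∃ h', Rel U h' ∧ ∀ z ∈ closure U, h' (h z) = z ∧ h (h' z) = z := by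
  have hi := rel_inj hU H
  have hl : ∀ z ∈ closure U, Function.invFunOn h (closure U) (h z) = z :=
    fun z hz => hi.leftInvOn_invFunOn hz
  have hr : ∀ z ∈ closure U, h (Function.invFunOn h (closure U) z) = z := fun z hz => by
    rw [← rel_image H] at hz
    obtain ⟨w, hw, rfl⟩ := hz
    rw [hl w hw]
  refine ⟨Function.invFunOn h (closure U), ⟨?_, ⟨?_, ?_, ?_⟩, ?_⟩, fun z hz => ⟨hl z hz, hr z hz⟩⟩
  · have := contOn_invFunOn hb.isCompact_closure H.cont hi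
    rwa [rel_image H] at this
  · intro w hw
    obtain ⟨z, hz, rfl⟩ := H.bij.surjOn hw
    rw [hl z (subset_closure hz)]
    exact hz
  · intro z hz w hw e
    rw [← hr z (subset_closure hz), e, hr w (subset_closure hw)]
  · intro z hz
    exact ⟨h z, H.bij.mapsTo hz, hl z (subset_closure hz)⟩
  · intro z hz
    have := hl z (frontier_subset_closure hz)
    rwa [H.fix z hz] at this

theorem rel_ext {U V : Set ℂ} {h : ℂ → ℂ} (hU : IsOpen U) (hV : IsOpen V) (hVU : V ⊆ U)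
    (H : Rel V h) : ∃ h', Rel U h' ∧ EqOn h' h (closure V) ∧ ∀ z ∉ V, h' z = z := by
  classical
  have h1 : ∀ z ∈ V, V.piecewise h id z = h z := fun z hz => piecewise_eq_of_mem _ _ _ hz
  have h2 : ∀ z ∉ V, V.piecewise h id z = z := fun z hz => piecewise_eq_of_notMem _ _ _ hz
  have h3 : EqOn (V.piecewise h id) h (closure V) := fun z hz => by
    rcases rel_cases hz with h4 | h4
    · exact h1 z h4
    · rw [h2 z (rel_not hV h4), H.fix z h4]
  refine ⟨V.piecewise h id, ⟨?_, ⟨?_, ?_, ?_⟩, ?_⟩, h3, h2⟩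
  · have c1 : ContinuousOn (V.piecewise h id) (closure V) := H.cont.congr h3
    have c2 : ContinuousOn (V.piecewise h id) Vᶜ := continuousOn_id.congr fun z hz => h2 z hz
    refine (c1.union_of_isClosed c2 isClosed_closure hV.isClosed_compl).mono fun z _ => ?_
    by_cases hz : z ∈ V
    · exact Or.inl (subset_closure hz)
    · exact Or.inr hz
  · intro z hz
    by_cases hv : z ∈ V
    · rw [h1 z hv]
      exact hVU (H.bij.mapsTo hv)
    · rw [h2 z hv]
      exact hz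
  · intro z _ w _ e
    by_cases hv : z ∈ V <;> by_cases hw : w ∈ V
    · rw [h1 z hv, h1 w hw] at e
      exact H.bij.injOn hv hw e
    · rw [h1 z hv, h2 w hw] at e
      exact absurd (e ▸ H.bij.mapsTo hv) hw
    · rw [h2 z hv, h1 w hw] at e
      exact absurd (e ▸ H.bij.mapsTo hw) hv
    · rwa [h2 z hv, h2 w hw] at e
  · intro w hw
    by_cases hv : w ∈ V
    · obtain ⟨z, hz, e⟩ := H.bij.surjOn hv
      exact ⟨z, hVU hz, (h1 z hz).trans e⟩
    · exact ⟨w, hw, h2 w hv⟩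
  · intro z hz
    exact h2 z fun hv => rel_not hU hz (hVU hv)

theorem rel_front {ρ : ℝ} (hρ : 0 < ρ) {z : ℂ} (hz : z ∈ frontier (ball (0 : ℂ) ρ)) : ‖z‖ = ρ := by
  rw [frontier_ball _ hρ.ne'] at hz
  exact mem_sphere_zero_iff_norm.1 hz

theorem rel_rad {ρ : ℝ} {ν : ℝ → ℝ} (hρ : 0 < ρ) (hc : Continuous ν) (hm : Monotone ν)
    (hp : ∀ s, 0 < ν s) (h1 : ν ρ = 1) : Rel (ball 0 ρ) fun z => ν ‖z‖ * z := by
  have hn : ∀ z : ℂ, ‖(ν ‖z‖ : ℂ) * z‖ = ν ‖z‖ * ‖z‖ := fun z => by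
    rw [norm_mul, Complex.norm_real, Real.norm_eq_abs, abs_of_pos (hp _)]
  have hs : ∀ s t : ℝ, 0 ≤ s → s < t → ν s * s < ν t * t := fun s t h0 hst =>
    calc ν s * s ≤ ν t * s := mul_le_mul_of_nonneg_right (hm hst.le) h0
      _ < ν t * t := mul_lt_mul_of_pos_left hst (hp t)
  refine ⟨?_, ⟨?_, ?_, ?_⟩, ?_⟩
  · exact ((continuous_ofReal.comp (hc.comp continuous_norm)).mul continuous_id).continuousOn
  · intro z hz
    rw [mem_ball_zero_iff] at hz ⊢
    have := hs _ _ (norm_nonneg z) hz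
    rw [h1, one_mul] at this
    rwa [hn]
  · intro z _ w _ e
    have e' : (ν ‖z‖ : ℂ) * z = ν ‖w‖ * w := e
    have e1 : ν ‖z‖ * ‖z‖ = ν ‖w‖ * ‖w‖ := by rw [← hn, ← hn, e']
    have e2 : ‖z‖ = ‖w‖ := by
      rcases lt_trichotomy ‖z‖ ‖w‖ with h | h | h
      · exact absurd e1 (hs _ _ (norm_nonneg z) h).ne
      · exact h
      · exact absurd e1.symm (hs _ _ (norm_nonneg w) h).ne
    rw [e2] at e'
    exact mul_left_cancel₀ (ofReal_ne_zero.2 (hp _).ne') e'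
  · intro w hw
    rw [mem_ball_zero_iff] at hw
    have hg : ContinuousOn (fun s => ν s * s) (Icc 0 ρ) := (hc.mul continuous_id).continuousOn
    obtain ⟨s, hs0, e⟩ := intermediate_value_Ico hρ.le hg
      (show ‖w‖ ∈ Ico (ν 0 * 0) (ν ρ * ρ) by
        rw [mul_zero, h1, one_mul]
        exact ⟨norm_nonneg w, hw⟩)
    have e' : ν s * s = ‖w‖ := e
    have hz : ‖w / (ν s : ℂ)‖ = s := by
      rw [norm_div, Complex.norm_real, Real.norm_eq_abs, abs_of_pos (hp _), ← e',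
        mul_div_cancel_left₀ _ (hp s).ne']
    refine ⟨w / ν s, mem_ball_zero_iff.2 (hz.trans_lt hs0.2), ?_⟩
    show (ν ‖w / (ν s : ℂ)‖ : ℂ) * (w / ν s) = w
    rw [hz, mul_div_cancel₀ _ (ofReal_ne_zero.2 (hp s).ne')]
  · intro z hz
    show (ν ‖z‖ : ℂ) * z = z
    rw [rel_front hρ hz, h1, ofReal_one, one_mul]

theorem rel_rot {ρ : ℝ} {ν : ℝ → ℝ} (hρ : 0 < ρ) (hc : Continuous ν) (h0 : ν ρ = 0) :
    Rel (ball 0 ρ) fun z => z * exp (ν ‖z‖ * Complex.I) := by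
  have hn : ∀ (z : ℂ) (t : ℝ), ‖z * exp (t * Complex.I)‖ = ‖z‖ := fun z t => by
    rw [norm_mul, norm_exp_ofReal_mul_I, mul_one]
  refine ⟨?_, ⟨?_, ?_, ?_⟩, ?_⟩
  · exact (continuous_id.mul (continuous_exp.comp
      ((continuous_ofReal.comp (hc.comp continuous_norm)).mul continuous_const))).continuousOn
  · intro z hz
    rw [mem_ball_zero_iff] at hz ⊢
    rwa [hn]
  · intro z _ w _ e
    have e' : z * exp (ν ‖z‖ * Complex.I) = w * exp (ν ‖w‖ * Complex.I) := e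
    have e2 : ‖z‖ = ‖w‖ := by rw [← hn z (ν ‖z‖), e', hn]
    rw [e2] at e'
    exact mul_right_cancel₀ (exp_ne_zero _) e'
  · intro w hw
    have hz : ‖w * exp (((-ν ‖w‖ : ℝ) : ℂ) * Complex.I)‖ = ‖w‖ := hn w _
    refine ⟨w * exp (((-ν ‖w‖ : ℝ) : ℂ) * Complex.I), ?_, ?_⟩
    · rw [mem_ball_zero_iff] at hw ⊢
      rwa [hz]
    · show w * exp (((-ν ‖w‖ : ℝ) : ℂ) * Complex.I) *
        exp (ν ‖w * exp (((-ν ‖w‖ : ℝ) : ℂ) * Complex.I)‖ * Complex.I) = w
      rw [hz, mul_assoc, ← exp_add, ofReal_neg, neg_mul, neg_add_cancel, exp_zero, mul_one]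
  · intro z hz
    show z * exp (ν ‖z‖ * Complex.I) = z
    rw [rel_front hρ hz, h0, ofReal_zero, zero_mul, exp_zero, mul_one]

theorem rel_push {ρ : ℝ} {x : ℂ} (hx : ‖x‖ < ρ) : ∃ h, Rel (ball 0 ρ) h ∧ h 0 = x := by
  have hρ : 0 < ρ := (norm_nonneg x).trans_lt hx
  refine ⟨fun z => z + ((1 - ‖z‖ / ρ : ℝ) : ℂ) * x, ⟨?_, ⟨?_, ?_, ?_⟩, ?_⟩, by simp⟩
  · exact (continuous_id.add ((continuous_ofReal.comp
      (continuous_const.sub (continuous_norm.div_const ρ))).mul continuous_const)).continuousOn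
  · intro z hz
    rw [mem_ball_zero_iff] at hz ⊢
    have h1 : 0 < 1 - ‖z‖ / ρ := sub_pos.2 ((div_lt_one hρ).2 hz)
    calc ‖z + ((1 - ‖z‖ / ρ : ℝ) : ℂ) * x‖ ≤ ‖z‖ + (1 - ‖z‖ / ρ) * ‖x‖ := by
          refine (norm_add_le _ _).trans_eq ?_
          rw [norm_mul, Complex.norm_real, Real.norm_eq_abs, abs_of_pos h1]
      _ < ‖z‖ + (1 - ‖z‖ / ρ) * ρ := by gcongr
      _ = ρ := by field_simp; ring
  · intro z _ w _ e
    have e' : z + ((1 - ‖z‖ / ρ : ℝ) : ℂ) * x = w + ((1 - ‖w‖ / ρ : ℝ) : ℂ) * x := e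
    have e1 : z - w = (((‖z‖ - ‖w‖) / ρ : ℝ) : ℂ) * x := by
      push_cast at e' ⊢
      linear_combination e'
    have e2 : ‖z - w‖ = |‖z‖ - ‖w‖| / ρ * ‖x‖ := by
      rw [e1, norm_mul, Complex.norm_real, Real.norm_eq_abs, abs_div, abs_of_pos hρ]
    have e3 : ‖z - w‖ ≤ ‖z - w‖ / ρ * ‖x‖ := by
      conv_lhs => rw [e2]
      gcongr
      exact abs_norm_sub_norm_le z w
    rw [div_mul_eq_mul_div, le_div_iff₀ hρ] at e3
    have e4 : ‖z - w‖ ≤ 0 := by nlinarith [norm_nonneg (z - w)]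
    exact sub_eq_zero.1 (norm_le_zero_iff.1 e4)
  · intro w hw
    rw [mem_ball_zero_iff] at hw
    have hg : ContinuousOn (fun t : ℝ => t - 1 + ‖w - t * x‖ / ρ) (Icc 0 1) := by fun_prop
    obtain ⟨t, ht, e⟩ := intermediate_value_Ioc zero_le_one hg
      (show (0 : ℝ) ∈ Ioc ((0 : ℝ) - 1 + ‖w - (0 : ℝ) * x‖ / ρ) (1 - 1 + ‖w - (1 : ℝ) * x‖ / ρ) by
        refine ⟨?_, by positivity⟩
        have := (div_lt_one hρ).2 hw
        simp only [ofReal_zero, zero_mul, sub_zero]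
        linarith)
    have e' : 1 - ‖w - t * x‖ / ρ = t := by
      have : t - 1 + ‖w - t * x‖ / ρ = 0 := e
      linarith
    refine ⟨w - t * x, ?_, ?_⟩
    · rw [mem_ball_zero_iff, ← div_lt_one hρ]
      linarith [ht.1]
    · show w - t * x + ((1 - ‖w - t * x‖ / ρ : ℝ) : ℂ) * x = w
      rw [e', sub_add_cancel]
  · intro z hz
    show z + ((1 - ‖z‖ / ρ : ℝ) : ℂ) * x = z
    rw [rel_front hρ hz, div_self hρ.ne', sub_self, ofReal_zero, zero_mul, add_zero]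

theorem relSt : RelSt :=
  ⟨fun _ _ H => rel_maps H, fun _ _ _ H H' => rel_comp H H', fun _ _ hU hb H => rel_inv hU hb H,
    fun _ _ _ hU hV hVU H => rel_ext hU hV hVU H,
    fun _ _ hρ hc hm hp h1 => rel_rad hρ hc hm hp h1, fun _ _ hρ hc h0 => rel_rot hρ hc h0,
    fun _ _ hx => rel_push hx⟩

end

end Pool.Agent.PT
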