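import Pool.Agent.Lib.MP_c86c76_al.J.St2

/-!
A crosscut splits a disc in two pieces.
-/

set_option autoImplicit false

namespace Pool.Agent.PT

open Set Metric Complex Filter Topology

theorem split_fs : frontier (ball (0 : ℂ) 1) = sphere 0 1 := frontier_ball 0 one_ne_zero

theorem split_cb : closure (ball (0 : ℂ) 1) = closedBall 0 1 := closure_ball 0 one_ne_zero

theorem split_cpt {a : ℝ → ℂ} (h : IsArc a) : IsCompact (a '' Icc 0 1) :=
  isCompact_Icc.image_of_continuousOn h.1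

theorem split_cases {t : ℝ} (ht : t ∈ Icc (0 : ℝ) 1) : t = 0 ∨ t = 1 ∨ t ∈ Ioo (0 : ℝ) 1 := by
  rcases ht.1.eq_or_lt with h | h
  · exact Or.inl h.symm
  · rcases ht.2.eq_or_lt with h' | h'
    · exact Or.inr (Or.inl h')
    · exact Or.inr (Or.inr ⟨h, h'⟩)

theorem split_in {Z : Set ℂ} {y : ℂ} (hy : y ∈ ball (0 : ℂ) 1) (hZ : y ∉ Z ∪ sphere 0 1) :
    connectedComponentIn (Z ∪ sphere 0 1)ᶜ y ⊆ ball 0 1 := by
  refine isPreconnected_connectedComponentIn.subset_left_of_subset_union isOpen_ball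
    (isClosed_closedBall (x := (0 : ℂ)) (ε := 1)).isOpen_compl
    (disjoint_compl_right.mono_left ball_subset_closedBall) (fun z hz => ?_)
    ⟨y, mem_connectedComponentIn hZ, hy⟩
  by_cases h : z ∈ closedBall (0 : ℂ) 1
  · exact Or.inl (lt_of_le_of_ne h fun e => connectedComponentIn_subset _ _ hz (Or.inr e))
  · exact Or.inr h

theorem split_side {a b κ : ℝ → ℂ} (hT : Two (sphere 0 1) a b) (hκ : Cut (ball 0 1) κ)
    (h0 : κ 0 = a 0) (h1 : κ 1 = a 1) :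
    ∃ y ∈ ball (0 : ℂ) 1, y ∉ κ '' Icc 0 1 ∧ NSep (κ '' Icc 0 1 ∪ b '' Icc 0 1) y 2 ∧
      ∀ t ∈ Ioo (0 : ℝ) 1, ∃ e > 0, ball (a t) e ∩ ball 0 1 ⊆
        connectedComponentIn (κ '' Icc 0 1 ∪ sphere 0 1)ᶜ y := by
  have hS : ∀ t ∈ Icc (0 : ℝ) 1, a t ∈ sphere (0 : ℂ) 1 := fun t ht =>
    hT.un ▸ Or.inl ⟨t, ht, rfl⟩
  have hcl : ∀ t ∈ Ioo (0 : ℝ) 1, a t ∈ closure (ball (0 : ℂ) 1) := fun t ht =>
    split_cb ▸ sphere_subset_closedBall (hS t (Ioo_subset_Icc_self ht))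
  have hX : IsClosed (κ '' Icc 0 1 ∪ b '' Icc 0 1) :=
    ((split_cpt hκ.arc).union (split_cpt hT.arc2)).isClosed
  have hN : ∀ t ∈ Ioo (0 : ℝ) 1, ∃ e > 0, ∃ y ∈ ball (a t) e ∩ ball 0 1,
      ball (a t) e ⊆ (κ '' Icc 0 1 ∪ b '' Icc 0 1)ᶜ ∧ ball (a t) e ∩ ball 0 1 ⊆
        connectedComponentIn (κ '' Icc 0 1 ∪ sphere 0 1)ᶜ y := by
    intro t ht
    have ht' := Ioo_subset_Icc_self ht
    obtain ⟨e, he, hb⟩ := Metric.isOpen_iff.1 hX.isOpen_compl (a t) (by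
      rintro (⟨s, hs, h⟩ | ⟨s, hs, h⟩)
      · rcases split_cases hs with rfl | rfl | hs'
        · exact ht.1.ne (hT.arc1.2 hs ht' (h0.symm.trans h))
        · exact ht.2.ne' (hT.arc1.2 hs ht' (h1.symm.trans h))
        · exact (mem_ball.1 (h ▸ hκ.mid hs')).ne (hS t ht')
      · exact hT.ne t ht s hs h.symm)
    obtain ⟨y, hy⟩ := mem_closure_iff.1 (hcl t ht) _ isOpen_ball (mem_ball_self he)
    refine ⟨e, he, y, hy, hb, ((convex_ball _ _).inter (convex_ball _ _)).isPreconnected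
      |>.subset_connectedComponentIn hy ?_⟩
    rintro z hz (h | h)
    · exact hb hz.1 (Or.inl h)
    · exact (mem_ball.1 hz.2).ne h
  choose! e he y hy hb hc using hN
  have hh : (1 / 2 : ℝ) ∈ Ioo (0 : ℝ) 1 := by constructor <;> norm_num
  refine ⟨y (1 / 2), (hy _ hh).2, fun h => hb _ hh (hy _ hh).1 (Or.inl h), ?_, fun t ht => ?_⟩
  · have hne : (ball (a (1 / 2)) (e (1 / 2)) ∩ (closedBall (0 : ℂ) 1)ᶜ).Nonempty := by
      refine mem_closure_iff.1 ?_ _ isOpen_ball (mem_ball_self (he _ hh))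
      rw [closure_compl, interior_closedBall _ one_ne_zero]
      exact fun h => (mem_ball.1 h).ne (hS _ (Ioo_subset_Icc_self hh))
    refine ((convex_ball _ _).isPreconnected.union' hne
      (car_out 0 one_pos)).subset_connectedComponentIn (Or.inl (hy _ hh).1)
      (union_subset (hb _ hh) ?_) (Or.inr (by simp))
    rintro z hz (⟨s, hs, rfl⟩ | ⟨s, hs, rfl⟩)
    · refine hz ?_
      rcases split_cases hs with rfl | rfl | hs'
      · exact sphere_subset_closedBall (split_fs ▸ hκ.f0)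
      · exact sphere_subset_closedBall (split_fs ▸ hκ.f1)
      · exact ball_subset_closedBall (hκ.mid hs')
    · exact hz (sphere_subset_closedBall (hT.un ▸ Or.inr ⟨s, hs, rfl⟩))
  · refine ⟨e t, he t ht, (hc t ht).trans (subset_of_eq ?_)⟩
    refine isPreconnected_Ioo.induction₂' (fun s t =>
      connectedComponentIn (κ '' Icc 0 1 ∪ sphere 0 1)ᶜ (y s) =
        connectedComponentIn (κ '' Icc 0 1 ∪ sphere 0 1)ᶜ (y t)) (fun s hs => ?_)
      (fun _ _ _ _ _ _ => Eq.trans) ht hh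
    have h3 : ∀ᶠ s' in 𝓝[Ioo 0 1] s, a s' ∈ ball (a s) (e s) :=
      (hT.arc1.1.mono Ioo_subset_Icc_self s hs).eventually (ball_mem_nhds _ (he s hs))
    filter_upwards [h3, self_mem_nhdsWithin] with s' h4 hs'
    obtain ⟨w, ⟨h5, h6⟩, h7⟩ := mem_closure_iff.1 (hcl s' hs') _ (isOpen_ball.inter isOpen_ball)
      ⟨h4, mem_ball_self (he s' hs')⟩
    have h8 := (connectedComponentIn_eq (hc s hs ⟨h5, h7⟩)).trans
      (connectedComponentIn_eq (hc s' hs' ⟨h6, h7⟩)).symm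
    exact ⟨h8, h8.symm⟩

theorem split_ball (hA : ArcBasSt) {a b κ : ℝ → ℂ} (hT : Two (sphere 0 1) a b)
    (hκ : Cut (ball 0 1) κ) (h0 : κ 0 = a 0) (h1 : κ 1 = a 1) :
    ∃ U₁ U₂ : Set ℂ, Ins (κ '' Icc 0 1 ∪ a '' Icc 0 1) U₁ ∧
      Ins (κ '' Icc 0 1 ∪ b '' Icc 0 1) U₂ ∧ Disjoint U₁ U₂ ∧
      U₁ ∪ U₂ = ball 0 1 \ κ '' Icc 0 1 := by
  obtain ⟨y₁, hy₁, hk₁, hn₁, hc₁⟩ := split_side hT hκ h0 h1
  obtain ⟨y₂, hy₂, hk₂, hn₂, hc₂⟩ := split_side (hA.2.2.2.2.2.2 _ a b hT).1 hκ (h0.trans hT.e0)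
    (h1.trans hT.e1)
  set K := κ '' Icc 0 1 with hK
  set Z := K ∪ sphere (0 : ℂ) 1 with hZ
  have m0 : (0 : ℝ) ∈ Icc (0 : ℝ) 1 := left_mem_Icc.2 zero_le_one
  have m1 : (1 : ℝ) ∈ Icc (0 : ℝ) 1 := right_mem_Icc.2 zero_le_one
  have hKc : IsCompact K := split_cpt hκ.arc
  have hZc : IsClosed Z := hKc.isClosed.union isClosed_sphere
  have hz : ∀ y ∈ ball (0 : ℂ) 1, y ∉ K → y ∉ Z := fun y hy hk h =>
    h.elim hk fun h => (mem_ball.1 hy).ne h
  have h2 : (2 : ℂ) ∉ closedBall (0 : ℂ) 1 := by simp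
  have ha : a '' Icc 0 1 ⊆ sphere 0 1 := hT.un ▸ subset_union_left
  have hb : b '' Icc 0 1 ⊆ sphere 0 1 := hT.un ▸ subset_union_right
  have hne : connectedComponentIn Zᶜ y₁ ≠ connectedComponentIn Zᶜ y₂ := by
    intro h
    have h3 : y₂ ∈ connectedComponentIn (K ∪ a '' Icc 0 1)ᶜ y₁ :=
      connectedComponentIn_mono _ (compl_subset_compl.2 (union_subset_union_right _ ha))
        (h ▸ mem_connectedComponentIn (hz _ hy₂ hk₂))
    have h4 : (K ∪ b '' Icc 0 1) ∩ (K ∪ a '' Icc 0 1) = K := by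
      rw [← union_inter_distrib_left, union_eq_left]
      rintro _ ⟨⟨s, hs, rfl⟩, t, ht, h⟩
      rcases split_cases ht with rfl | rfl | ht'
      · exact ⟨0, m0, h0.trans h⟩
      · exact ⟨1, m1, h1.trans h⟩
      · exact absurd h (hT.ne t ht' s hs)
    have h5 := jan _ _ y₁ 2 (hKc.union (split_cpt hT.arc2)) (hKc.union (split_cpt hT.arc1))
      (h4.symm ▸ isPreconnected_Icc.image _ hκ.arc.1) hn₁
      (by unfold NSep; rw [connectedComponentIn_eq h3]; exact hn₂)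
    rw [← union_union_distrib_left, union_comm (b '' _), hT.un] at h5
    exact h2 (ball_subset_closedBall (split_in hy₁ (hz _ hy₁ hk₁) h5))
  have hfr : ∀ y ∈ ball (0 : ℂ) 1, y ∉ K → ∀ w ∈ closure (connectedComponentIn Zᶜ y),
      w ∉ connectedComponentIn Zᶜ y → w ∈ K ∨
      (w ∈ a '' Icc 0 1 ∧ connectedComponentIn Zᶜ y = connectedComponentIn Zᶜ y₁) ∨
      (w ∈ b '' Icc 0 1 ∧ connectedComponentIn Zᶜ y = connectedComponentIn Zᶜ y₂) := by
    intro y hy hk w hw hw'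
    have key : ∀ y' : ℂ, (∃ e > 0, ball w e ∩ ball 0 1 ⊆ connectedComponentIn Zᶜ y') →
        connectedComponentIn Zᶜ y = connectedComponentIn Zᶜ y' := by
      rintro y' ⟨e, he, h⟩
      obtain ⟨v, h3, h4⟩ := mem_closure_iff.1 hw _ isOpen_ball (mem_ball_self he)
      exact (connectedComponentIn_eq h4).trans
        (connectedComponentIn_eq (h ⟨h3, split_in hy (hz y hy hk) h4⟩)).symm
    rcases (Lib.MP_65c801_co.EilenAux.closure_sub hZc y hw).resolve_left hw' with h | h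
    · exact Or.inl h
    rcases hT.un ▸ h with ⟨t, ht, rfl⟩ | ⟨t, ht, rfl⟩
    · rcases split_cases ht with rfl | rfl | ht'
      · exact Or.inl ⟨0, m0, h0⟩
      · exact Or.inl ⟨1, m1, h1⟩
      · exact Or.inr (Or.inl ⟨⟨t, ht, rfl⟩, key _ (hc₁ t ht')⟩)
    · rcases split_cases ht with rfl | rfl | ht'
      · exact Or.inl ⟨0, m0, h0.trans hT.e0⟩
      · exact Or.inl ⟨1, m1, h1.trans hT.e1⟩
      · exact Or.inr (Or.inr ⟨⟨t, ht, rfl⟩, key _ (hc₂ t ht')⟩)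
  have hins : ∀ y ∈ ball (0 : ℂ) 1, y ∉ K → ∀ J ⊆ sphere (0 : ℂ) 1,
      (∀ w ∈ closure (connectedComponentIn Zᶜ y), w ∉ connectedComponentIn Zᶜ y → w ∈ K ∪ J) →
      Ins (K ∪ J) (connectedComponentIn Zᶜ y) := fun y hy hk J hJ h =>
    have ho := hZc.isOpen_compl.connectedComponentIn (x := y)
    ⟨ho, ⟨y, mem_connectedComponentIn (hz y hy hk)⟩, isPreconnected_connectedComponentIn,
      isBounded_ball.subset (split_in hy (hz y hy hk)),
      disjoint_left.2 fun z h3 h4 =>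
        connectedComponentIn_subset _ _ h3 (union_subset_union_right _ hJ h4),
      fun w hw => h w hw.1 fun h3 => hw.2 (ho.interior_eq.symm ▸ h3)⟩
  refine ⟨_, _, hins y₁ hy₁ hk₁ _ ha fun w hw hw' => ?_, hins y₂ hy₂ hk₂ _ hb fun w hw hw' => ?_,
    disjoint_left.2 fun z h3 h4 =>
      hne ((connectedComponentIn_eq h3).trans (connectedComponentIn_eq h4).symm),
    Subset.antisymm (union_subset ?_ ?_) fun z hz' => ?_⟩
  · rcases hfr y₁ hy₁ hk₁ w hw hw' with h | h | h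
    exacts [Or.inl h, Or.inr h.1, absurd h.2 hne]
  · rcases hfr y₂ hy₂ hk₂ w hw hw' with h | h | h
    exacts [Or.inl h, absurd h.2.symm hne, Or.inr h.1]
  · exact fun z h => ⟨split_in hy₁ (hz _ hy₁ hk₁) h,
      fun h' => connectedComponentIn_subset _ _ h (Or.inl h')⟩
  · exact fun z h => ⟨split_in hy₂ (hz _ hy₂ hk₂) h,
      fun h' => connectedComponentIn_subset _ _ h (Or.inl h')⟩
  · by_contra hn
    have hm : z ∈ connectedComponentIn Zᶜ z := mem_connectedComponentIn (hz z hz'.1 hz'.2)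
    have h3 : connectedComponentIn Kᶜ z ⊆ connectedComponentIn Zᶜ z := by
      refine isPreconnected_connectedComponentIn.subset_of_closure_inter_subset
        hZc.isOpen_compl.connectedComponentIn ⟨z, mem_connectedComponentIn hz'.2, hm⟩ ?_
      rintro w ⟨h3, h4⟩
      by_contra h5
      rcases hfr z hz'.1 hz'.2 w h3 h5 with h | h | h
      · exact connectedComponentIn_subset _ _ h4 h
      · exact hn (Or.inl (h.2 ▸ hm))
      · exact hn (Or.inr (h.2 ▸ hm))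
    refine h2 (ball_subset_closedBall (split_in hz'.1 (hz z hz'.1 hz'.2)
      (h3 (hA.2.2.2.2.2.1 κ z 2 hκ.arc hz'.2 ?_))))
    rintro ⟨s, hs, h⟩
    refine h2 (h ▸ ?_)
    rcases split_cases hs with rfl | rfl | hs'
    · exact sphere_subset_closedBall (split_fs ▸ hκ.f0)
    · exact sphere_subset_closedBall (split_fs ▸ hκ.f1)
    · exact ball_subset_closedBall (hκ.mid hs')

theorem split_push (hD : DiscSt) {Φ : ℂ → ℂ} {U J V : Set ℂ} (h : DChart Φ U)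
    (hJ : J ⊆ closedBall 0 1) (hV : V ⊆ ball 0 1) (hI : Ins J V) : Ins (Φ '' J) (Φ '' V) := by
  obtain ⟨e1, -, hc, -, -, ho, -⟩ := hD.1 Φ U h
  have hV' := hV.trans ball_subset_closedBall
  have hcl : closure V ⊆ closedBall 0 1 := closure_minimal hV' isClosed_closedBall
  refine ⟨ho V hV hI.op, hI.ne.image _, hI.con.image _ (h.cont.mono hV'),
    hc.isBounded.subset (e1 ▸ image_mono hV'), ?_, fun w hw => ?_⟩
  · rw [disjoint_left]
    rintro _ ⟨z, hz, rfl⟩ ⟨z', hz', e⟩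
    exact disjoint_left.1 hI.dis hz (h.inj (hJ hz') (hV' hz) e ▸ hz')
  · obtain ⟨z, hz, rfl⟩ := closure_minimal (image_mono subset_closure)
      (((isCompact_closedBall 0 1).of_isClosed_subset isClosed_closure hcl).image_of_continuousOn
        (h.cont.mono hcl)).isClosed hw.1
    refine ⟨z, hI.fr ⟨hz, fun h3 => hw.2 ?_⟩, rfl⟩
    rw [(ho V hV hI.op).interior_eq]
    exact ⟨z, interior_subset h3, rfl⟩

theorem splitSt (hA : ArcBasSt) (hD : DiscSt) : SplitSt := by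
  rintro U a b κ ⟨Φ, h⟩ hT hκ h0 h1
  obtain ⟨e1, e2, -, -, -, -, Ψ, hΨ, hl⟩ := hD.1 Φ U h
  have hr : ∀ z ∈ closure U, Ψ z ∈ closedBall (0 : ℂ) 1 ∧ Φ (Ψ z) = z := by
    rw [e1]
    rintro _ ⟨z, hz, rfl⟩
    rw [hl z hz]
    exact ⟨hz, rfl⟩
  have hi : InjOn Ψ (closure U) := fun z hz z' hz' e =>
    (hr z hz).2.symm.trans (e ▸ (hr z' hz').2)
  have hf : Ψ '' frontier U = sphere 0 1 := by
    rw [e2, image_image]
    exact (image_congr fun z hz => hl z (sphere_subset_closedBall hz)).trans (image_id' _)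
  have harc : ∀ c : ℝ → ℂ, IsArc c → MapsTo c (Icc 0 1) (closure U) → IsArc (Ψ ∘ c) ∧
      Φ '' ((Ψ ∘ c) '' Icc 0 1) = c '' Icc 0 1 ∧ (Ψ ∘ c) '' Icc 0 1 ⊆ closedBall 0 1 :=
    fun c hc hm => ⟨⟨hΨ.comp hc.1 hm, hi.comp hc.2 hm⟩,
      (image_image _ _ _).trans (image_congr fun t ht => (hr _ (hm ht)).2),
      image_subset_iff.2 fun t ht => (hr _ (hm ht)).1⟩
  have ma : MapsTo a (Icc 0 1) (closure U) := fun t ht =>
    frontier_subset_closure (hT.un ▸ Or.inl ⟨t, ht, rfl⟩)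
  have mb : MapsTo b (Icc 0 1) (closure U) := fun t ht =>
    frontier_subset_closure (hT.un ▸ Or.inr ⟨t, ht, rfl⟩)
  have mk : MapsTo κ (Icc 0 1) (closure U) := fun t ht => by
    rcases split_cases ht with rfl | rfl | ht'
    exacts [frontier_subset_closure hκ.f0, frontier_subset_closure hκ.f1,
      subset_closure (hκ.mid ht')]
  obtain ⟨a1, a2, a3⟩ := harc a hT.arc1 ma
  obtain ⟨b1, b2, b3⟩ := harc b hT.arc2 mb
  obtain ⟨k1, k2, k3⟩ := harc κ hκ.arc mk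
  obtain ⟨V₁, V₂, i1, i2, hd, hu⟩ := split_ball hA (a := Ψ ∘ a) (b := Ψ ∘ b) (κ := Ψ ∘ κ)
    ⟨a1, b1, congrArg Ψ hT.e0, congrArg Ψ hT.e1, by
      rw [image_comp, image_comp, ← image_union, hT.un, hf],
      fun s hs t ht e => hT.ne s hs t ht (hi (ma (Ioo_subset_Icc_self hs)) (mb ht) e)⟩
    ⟨k1, by rw [split_fs, ← hf]; exact ⟨_, hκ.f0, rfl⟩, by rw [split_fs, ← hf]; exact ⟨_, hκ.f1, rfl⟩,
      fun t ht => by
        obtain ⟨z, hz, e⟩ := h.im.symm ▸ hκ.mid ht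
        rw [Function.comp, ← e, hl z (ball_subset_closedBall hz)]
        exact hz⟩ (congrArg Ψ h0) (congrArg Ψ h1)
  have s1 : V₁ ⊆ ball 0 1 := subset_union_left.trans (hu.subset.trans diff_subset)
  have s2 : V₂ ⊆ ball 0 1 := subset_union_right.trans (hu.subset.trans diff_subset)
  have j1 := split_push hD h (union_subset k3 a3) s1 i1
  have j2 := split_push hD h (union_subset k3 b3) s2 i2
  rw [image_union, k2] at j1 j2
  refine ⟨_, _, a2 ▸ j1, b2 ▸ j2, ?_, ?_⟩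
  · rw [disjoint_left]
    rintro _ ⟨z, hz, rfl⟩ ⟨z', hz', e⟩
    exact disjoint_left.1 hd hz
      (h.inj (ball_subset_closedBall (s2 hz')) (ball_subset_closedBall (s1 hz)) e ▸ hz')
  · rw [← image_union, hu, ← k2, ← h.im]
    ext w
    constructor
    · rintro ⟨z, hz, rfl⟩
      exact ⟨⟨z, hz.1, rfl⟩, fun ⟨z', hz', e⟩ =>
        hz.2 (h.inj (k3 hz') (ball_subset_closedBall hz.1) e ▸ hz')⟩
    · rintro ⟨⟨z, hz, rfl⟩, hn⟩
      exact ⟨z, ⟨hz, fun h3 => hn ⟨z, h3, rfl⟩⟩, rfl⟩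

end Pool.Agent.PT
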