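import Pool.Agent.Lib.MP_c86c76_al.J.St2

/-!
Transfer of isotopies and homeomorphisms along a chart.
-/

set_option autoImplicit false

namespace Pool.Agent.PT

open Set Metric Complex Filter Topology

noncomputable section

theorem trans_cases {U : Set ℂ} (hU : IsOpen U) {z : ℂ} (hz : z ∈ closure U) :
    z ∈ U ∨ z ∈ frontier U := by
  by_cases h : z ∈ U
  · exact Or.inl h
  · exact Or.inr (hU.frontier_eq ▸ ⟨hz, h⟩)

theorem trans_maps {U : Set ℂ} (hU : IsOpen U) {h : ℂ → ℂ} (hh : Rel U h) :
    MapsTo h (closure U) (closure U) := fun z hz => by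
  rcases trans_cases hU hz with a | a
  · exact subset_closure (hh.bij.mapsTo a)
  · rw [hh.fix z a]
    exact hz

open Classical in
/-- The map of the space induced by a map of the domain of the chart. -/
def transF {S : Type} (q : ℂ → S) (U : Set ℂ) (h : ℂ → ℂ) (x : S) : S :=
  if x ∈ q '' U then q (h (Function.invFunOn q U x)) else x

section

variable {S : Type} [TopologicalSpace S] {q : ℂ → S} {U : Set ℂ}

omit [TopologicalSpace S] in
theorem trans_out (h : ℂ → ℂ) {x : S} (hx : x ∉ q '' U) : transF q U h x = x := if_neg hx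

theorem trans_front (hq : Chart q U) {z : ℂ} (hz : z ∈ frontier U) : q z ∉ q '' U := fun a =>
  disjoint_left.1 hq.dis a (mem_image_of_mem q hz)

theorem trans_in (hU : IsOpen U) (hq : Chart q U) {h : ℂ → ℂ} (hh : Rel U h) {z : ℂ}
    (hz : z ∈ closure U) : transF q U h (q z) = q (h z) := by
  rcases trans_cases hU hz with a | a
  · rw [transF, if_pos (mem_image_of_mem q a), hq.inj.leftInvOn_invFunOn a]
  · rw [trans_out h (trans_front hq a), hh.fix z a]

theorem trans_bij (hU : IsOpen U) (hq : Chart q U) {h : ℂ → ℂ} (hh : Rel U h) :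
    Function.Bijective (transF q U h) := by
  constructor
  · intro x y e
    by_cases a : x ∈ q '' U
    · obtain ⟨z, hz, rfl⟩ := a
      rw [trans_in hU hq hh (subset_closure hz)] at e
      by_cases b : y ∈ q '' U
      · obtain ⟨w, hw, rfl⟩ := b
        rw [trans_in hU hq hh (subset_closure hw)] at e
        rw [hh.bij.injOn hz hw (hq.inj (hh.bij.mapsTo hz) (hh.bij.mapsTo hw) e)]
      · rw [trans_out h b] at e
        exact (b ⟨_, hh.bij.mapsTo hz, e⟩).elim
    · rw [trans_out h a] at e
      by_cases b : y ∈ q '' U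
      · obtain ⟨w, hw, rfl⟩ := b
        rw [trans_in hU hq hh (subset_closure hw)] at e
        exact (a ⟨_, hh.bij.mapsTo hw, e.symm⟩).elim
      · rwa [trans_out h b] at e
  · intro y
    by_cases b : y ∈ q '' U
    · obtain ⟨w, hw, rfl⟩ := b
      obtain ⟨z, hz, rfl⟩ := hh.bij.surjOn hw
      exact ⟨q z, trans_in hU hq hh (subset_closure hz)⟩
    · exact ⟨y, trans_out h b⟩

theorem trans_cont [T2Space S] (hU : IsOpen U) (hb : Bornology.IsBounded U) (hq : Chart q U)
    {η : unitInterval → ℂ → ℂ} (hη : Iso U η) :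
    Continuous fun p : unitInterval × S => transF q U (η p.1) p.2 := by
  have hK : IsCompact ((univ : Set unitInterval) ×ˢ closure U) :=
    isCompact_univ.prod hb.isCompact_closure
  have c1 : ContinuousOn (fun p : unitInterval × ℂ => q (η p.1 p.2)) (univ ×ˢ closure U) :=
    hq.cont.comp hη.cont fun p hp => trans_maps hU (hη.rel p.1) hp.2
  have c2 : ContinuousOn (fun p : unitInterval × ℂ => (p.1, q p.2)) (univ ×ˢ closure U) :=
    continuousOn_fst.prodMk (hq.cont.comp continuousOn_snd fun p hp => hp.2)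
  rw [continuous_iff_isClosed]
  intro C hC
  have k1 : IsClosed ((univ : Set unitInterval) ×ˢ closure U ∩
      (fun p : unitInterval × ℂ => q (η p.1 p.2)) ⁻¹' C) :=
    c1.preimage_isClosed_of_isClosed hK.isClosed hC
  have k2 := ((hK.of_isClosed_subset k1 inter_subset_left).image_of_continuousOn
    (c2.mono inter_subset_left)).isClosed
  have k3 : IsClosed (Prod.snd ⁻¹' ((q '' U)ᶜ ∩ C) : Set (unitInterval × S)) :=
    (hq.op.isClosed_compl.inter hC).preimage continuous_snd
  convert k3.union k2 using 1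
  ext ⟨t, x⟩
  constructor
  · intro hx
    by_cases a : x ∈ q '' U
    · obtain ⟨z, hz, rfl⟩ := a
      refine Or.inr ⟨(t, z), ⟨⟨mem_univ _, subset_closure hz⟩, ?_⟩, rfl⟩
      rw [mem_preimage, ← trans_in hU hq (hη.rel t) (subset_closure hz)]
      exact hx
    · refine Or.inl ⟨a, ?_⟩
      rw [mem_preimage, trans_out _ a] at hx
      exact hx
  · rintro (⟨a, b⟩ | ⟨⟨s, z⟩, ⟨⟨-, a⟩, b⟩, e⟩)
    · rw [mem_preimage, trans_out _ a]
      exact b
    · obtain ⟨rfl, rfl⟩ := Prod.mk.inj e
      rw [mem_preimage, trans_in hU hq (hη.rel s) a]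
      exact b

theorem trans_back [T2Space S] (hU : IsOpen U) (hb : Bornology.IsBounded U) (hq : Chart q U)
    (f : S ≃ₜ S) (hi : InjOn q (closure U)) (hf : ∀ x ∉ q '' U, f x = x) :
    ∃ h, Rel U h ∧ ∀ z ∈ closure U, f (q z) = q (h z) := by
  have m1 : ∀ x ∈ q '' U, f x ∈ q '' U := fun x hx => by
    by_contra a
    exact a ((f.injective (hf _ a)).symm ▸ hx)
  have m2 : ∀ z ∈ closure U, f (q z) ∈ q '' closure U := fun z hz => by
    rcases trans_cases hU hz with a | a
    · exact image_mono subset_closure (m1 _ (mem_image_of_mem q a))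
    · rw [hf _ (trans_front hq a)]
      exact mem_image_of_mem q hz
  have e : ∀ z ∈ closure U, q (Function.invFunOn q (closure U) (f (q z))) = f (q z) :=
    fun z hz => Function.invFunOn_eq (m2 z hz)
  refine ⟨fun z => Function.invFunOn q (closure U) (f (q z)), ⟨?_, ⟨?_, ?_, ?_⟩, ?_⟩,
    fun z hz => (e z hz).symm⟩
  · exact (contOn_invFunOn hb.isCompact_closure hq.cont hi).comp
      (f.continuous.comp_continuousOn hq.cont) m2
  · intro z hz
    obtain ⟨w, hw, a⟩ := m1 _ (mem_image_of_mem q hz)
    simp only [← a, hi.leftInvOn_invFunOn (subset_closure hw)]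
    exact hw
  · intro z hz w hw a
    refine hq.inj hz hw (f.injective ?_)
    rw [← e z (subset_closure hz), ← e w (subset_closure hw)]
    exact congrArg q a
  · intro w hw
    have : f.symm (q w) ∈ q '' U := by
      by_contra a
      have b := hf _ a
      rw [f.apply_symm_apply] at b
      exact a (b ▸ mem_image_of_mem q hw)
    obtain ⟨z, hz, a⟩ := this
    refine ⟨z, hz, ?_⟩
    simp only [a, f.apply_symm_apply]
    exact hi.leftInvOn_invFunOn (subset_closure hw)
  · intro z hz
    simp only [hf _ (trans_front hq hz)]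
    exact hi.leftInvOn_invFunOn (frontier_subset_closure hz)

end

theorem transSt : TransSt := by
  intro S _ _ _ q U hU hb hq
  refine ⟨fun η hη => ?_, trans_back hU hb hq⟩
  have c := trans_cont hU hb hq hη
  refine ⟨fun t => Continuous.homeoOfEquivCompactToT2
    (f := Equiv.ofBijective _ (trans_bij hU hq (hη.rel t))) (c.comp (Continuous.prodMk_right t)),
    c, Homeomorph.ext fun x => ?_, fun t => ⟨fun x hx => trans_out _ hx,
      fun z hz => trans_in hU hq (hη.rel t) hz⟩⟩
  change transF q U (η 0) x = x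
  by_cases a : x ∈ q '' U
  · obtain ⟨z, hz, rfl⟩ := a
    rw [trans_in hU hq (hη.rel 0) (subset_closure hz), hη.zero z (subset_closure hz)]
  · exact trans_out _ a

end

end Pool.Agent.PT
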