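import Pool.Agent.Lib.MP_c86c76_al.J.ArcBas
import Pool.Agent.Lib.MP_c86c76_al.J.Disc
import Pool.Agent.Lib.MP_c86c76_al.J.Rel
import Pool.Agent.Lib.MP_c86c76_al.J.Alex
import Pool.Agent.Lib.MP_c86c76_al.J.Arc
import Pool.Agent.Lib.MP_c86c76_al.J.Front
import Pool.Agent.Lib.MP_c86c76_al.J.Split
import Pool.Agent.Lib.MP_c86c76_al.J.Move
import Pool.Agent.Lib.MP_c86c76_al.J.Cut
import Pool.Agent.Lib.MP_c86c76_al.J.Germ
import Pool.Agent.Lib.MP_c86c76_al.J.Trans

/-!
Discs, crosscuts and isotopies.
-/

set_option autoImplicit false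

namespace Pool.Agent.PT

theorem alex : AlexSt := alexSt discSt relSt

theorem arcA : ArcSt := arcSt arcBasSt

theorem front : FrontSt := frontSt arcBasSt

theorem splitA : SplitSt := splitSt arcBasSt discSt

theorem move : MoveSt := moveSt arcBasSt discSt front splitA

theorem cut : CutSt := cutSt arcBasSt discSt front arcA

theorem germ : GermSt := germSt arcBasSt discSt relSt front splitA move

end Pool.Agent.PT
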