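import Pool.Agent.Lib.MP_c86c76_al.J.St2

/-!
Basic facts on arcs.
-/

set_option autoImplicit false

namespace Pool.Agent.PT

open Set Metric Complex Filter Topology

theorem arcbas_seg (p q : ℂ) : seg p q = fun t : ℝ => p + t • (q - p) := rfl

theorem arcbas_l (a b : ℝ → ℂ) {t : ℝ} (h : t ≤ 1) : cat a b (t / 2) = a t := by
  rw [cat, if_pos (by linarith)]
  congr 1
  ring

theorem arcbas_r {a b : ℝ → ℂ} (e : a 1 = b 0) {t : ℝ} (h : 0 ≤ t) :
    cat a b ((t + 1) / 2) = b t := by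
  rcases h.eq_or_lt with rfl | h
  · rw [zero_add, arcbas_l a b le_rfl, e]
  · rw [cat, if_neg (by linarith)]
    congr 1
    ring

theorem arcbas_cases (t : ℝ) :
    (∃ s, s ≤ 1 ∧ t = s / 2) ∨ ∃ s, 0 < s ∧ t = (s + 1) / 2 :=
  (le_or_gt t (1 / 2)).imp (fun h => ⟨2 * t, by linarith, by ring⟩)
    fun h => ⟨2 * t - 1, by linarith, by ring⟩

theorem arcbas_cat {a b : ℝ → ℂ} (ha : IsArc a) (hb : IsArc b) (e : a 1 = b 0)
    (h : ∀ s ∈ Icc (0 : ℝ) 1, ∀ t ∈ Icc (0 : ℝ) 1, a s = b t → s = 1) : IsArc (cat a b) := by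
  have k : ∀ s t : ℝ, s / 2 ∈ Icc (0 : ℝ) 1 → (t + 1) / 2 ∈ Icc (0 : ℝ) 1 → s ≤ 1 → 0 < t →
      a s ≠ b t := fun s t hs ht s1 t0 c => by
    have m : t ∈ Icc (0 : ℝ) 1 := ⟨t0.le, by linarith [ht.2]⟩
    rw [h s ⟨by linarith [hs.1], s1⟩ t m c, e] at c
    exact t0.ne (hb.2 ⟨le_rfl, zero_le_one⟩ m c)
  refine ⟨ContinuousOn.if (fun t m => ?_) (ha.1.comp (by fun_prop) fun t m => ?_)
    (hb.1.comp (by fun_prop) fun t m => ?_), fun s hs t ht c => ?_⟩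
  · have : t = 1 / 2 := frontier_le_subset_eq continuous_id continuous_const m.2
    rw [this]
    norm_num [e]
  · have : t ≤ 1 / 2 := closure_minimal Subset.rfl (isClosed_le continuous_id continuous_const) m.2
    exact ⟨by linarith [m.1.1], by linarith⟩
  · have : 1 / 2 ≤ t := closure_minimal (fun x hx => (not_le.1 hx).le)
      (isClosed_le continuous_const continuous_id) m.2
    exact ⟨by linarith, by linarith [m.1.2]⟩
  · rcases arcbas_cases s with ⟨s, s1, rfl⟩ | ⟨s, s1, rfl⟩ <;>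
      rcases arcbas_cases t with ⟨t, t1, rfl⟩ | ⟨t, t1, rfl⟩
    · rw [arcbas_l a b s1, arcbas_l a b t1] at c
      rw [ha.2 ⟨by linarith [hs.1], s1⟩ ⟨by linarith [ht.1], t1⟩ c]
    · rw [arcbas_l a b s1, arcbas_r e t1.le] at c
      exact absurd c (k s t hs ht s1 t1)
    · rw [arcbas_l a b t1, arcbas_r e s1.le] at c
      exact absurd c.symm (k t s ht hs t1 s1)
    · rw [arcbas_r e s1.le, arcbas_r e t1.le] at c
      rw [hb.2 ⟨s1.le, by linarith [hs.2]⟩ ⟨t1.le, by linarith [ht.2]⟩ c]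

theorem arcbas_icc {a b : ℝ → ℂ} (e : a 1 = b 0) :
    cat a b '' Icc 0 1 = a '' Icc 0 1 ∪ b '' Icc 0 1 := by
  refine Subset.antisymm ?_ ?_
  · rintro _ ⟨t, m, rfl⟩
    rcases arcbas_cases t with ⟨t, t1, rfl⟩ | ⟨t, t1, rfl⟩
    · exact Or.inl ⟨t, ⟨by linarith [m.1], t1⟩, (arcbas_l a b t1).symm⟩
    · exact Or.inr ⟨t, ⟨t1.le, by linarith [m.2]⟩, (arcbas_r e t1.le).symm⟩
  · rintro _ (⟨t, m, rfl⟩ | ⟨t, m, rfl⟩)
    · exact ⟨t / 2, ⟨by linarith [m.1], by linarith [m.2]⟩, arcbas_l a b m.2⟩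
    · exact ⟨(t + 1) / 2, ⟨by linarith [m.1], by linarith [m.2]⟩, arcbas_r e m.1⟩

theorem arcbas_ioo {a b : ℝ → ℂ} (e : a 1 = b 0) :
    cat a b '' Ioo 0 1 = a '' Ioc 0 1 ∪ b '' Ico 0 1 := by
  refine Subset.antisymm ?_ ?_
  · rintro _ ⟨t, m, rfl⟩
    rcases arcbas_cases t with ⟨t, t1, rfl⟩ | ⟨t, t1, rfl⟩
    · exact Or.inl ⟨t, ⟨by linarith [m.1], t1⟩, (arcbas_l a b t1).symm⟩
    · exact Or.inr ⟨t, ⟨t1.le, by linarith [m.2]⟩, (arcbas_r e t1.le).symm⟩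
  · rintro _ (⟨t, m, rfl⟩ | ⟨t, m, rfl⟩)
    · exact ⟨t / 2, ⟨by linarith [m.1], by linarith [m.2]⟩, arcbas_l a b m.2⟩
    · exact ⟨(t + 1) / 2, ⟨by linarith [m.1], by linarith [m.2]⟩, arcbas_r e m.1⟩

theorem arcbas_nsep {a : ℝ → ℂ} {p q : ℂ} (ha : IsArc a) (hp : p ∉ a '' Icc 0 1)
    (hq : q ∉ a '' Icc 0 1) : NSep (a '' Icc 0 1) p q := by
  have c : Continuous fun z : ℂ => a (projIcc 0 1 zero_le_one z.re) :=
    ha.1.comp_continuous (by fun_prop) fun z => Subtype.prop _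
  have n : ∀ {x : ℂ}, x ∉ a '' Icc 0 1 → ∀ z : ℂ, a (projIcc 0 1 zero_le_one z.re) - x ≠ 0 :=
    fun h z e => h ⟨_, Subtype.prop _, sub_eq_zero.1 e⟩
  obtain ⟨l, hl, e⟩ := Lib.MP_65c801_co.EilenAux.exists_log
    ((c.sub continuous_const).div (c.sub continuous_const) (n hq)) fun z => div_ne_zero (n hp z) (n hq z)
  refine (eil _ p q (isCompact_Icc.image_of_continuousOn ha.1) hp hq).2
    ⟨fun z => l (Function.invFunOn a (Icc 0 1) z : ℝ), (hl.comp continuous_ofReal).comp_continuousOn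
      (contOn_invFunOn isCompact_Icc ha.1 ha.2), ?_⟩
  rintro _ ⟨t, m, rfl⟩
  simp only [ha.2.leftInvOn_invFunOn m, e, Pi.div_apply, Pi.sub_apply, ofReal_re,
    projIcc_of_mem _ m]

theorem arcbas_symm {J : Set ℂ} {a b : ℝ → ℂ} (h : Two J a b) : Two J b a := by
  refine ⟨h.arc2, h.arc1, h.e0.symm, h.e1.symm, union_comm _ _ ▸ h.un, fun s hs t ht c => ?_⟩
  have m := Ioo_subset_Icc_self hs
  rcases ht.1.eq_or_lt with rfl | t0
  · exact hs.1.ne' (h.arc2.2 m ht (c.trans h.e0))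
  rcases ht.2.eq_or_lt with rfl | t1
  · exact hs.2.ne (h.arc2.2 m ht (c.trans h.e1))
  exact h.ne t ⟨t0, t1⟩ s m c.symm

theorem arcbas_sq {z : ℂ} : z ∈ sphere (0 : ℂ) 1 ↔ z.re ^ 2 + z.im ^ 2 = 1 := by
  rw [mem_sphere_zero_iff_norm, ← pow_eq_one_iff_of_nonneg (norm_nonneg z) two_ne_zero,
    Complex.sq_norm, normSq_apply, sq, sq]

theorem arcbas_mem {z : ℂ} (h : z ∈ sphere (0 : ℂ) 1) : (1 - z.re) / 2 ∈ Icc (0 : ℝ) 1 := by
  have := arcbas_sq.1 h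
  constructor <;> nlinarith [sq_nonneg z.im]

theorem arcbas_low {J : Set ℂ} {a b : ℝ → ℂ} (h : Two J a b) {z : ℂ} (m : z ∈ sphere (0 : ℂ) 1)
    (e : z.im = 0) : a ((1 - z.re) / 2) = b ((1 - z.re) / 2) := by
  have := arcbas_sq.1 m
  rw [e, zero_pow two_ne_zero, add_zero, sq_eq_one_iff] at this
  rcases this with c | c <;> rw [c] <;> norm_num [h.e0, h.e1]

theorem arcbas_jor {J : Set ℂ} {a b : ℝ → ℂ} (h : Two J a b) :
    ContinuousOn (jor a b) (sphere 0 1) ∧ InjOn (jor a b) (sphere 0 1) ∧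
      jor a b '' sphere 0 1 = J := by
  have k : ∀ z ∈ sphere (0 : ℂ) 1, ∀ w ∈ sphere (0 : ℂ) 1, ¬ 0 ≤ w.im →
      a ((1 - z.re) / 2) ≠ b ((1 - w.re) / 2) := fun z hz w hw c e => by
    have := arcbas_sq.1 hw
    have := sq_pos_of_neg (not_le.1 c)
    exact (arcbas_symm h).ne _ ⟨by nlinarith, by nlinarith⟩ _ (arcbas_mem hz) e.symm
  have s : ∀ t ∈ Icc (0 : ℝ) 1, √(1 - (1 - 2 * t) ^ 2) ^ 2 = 1 - (1 - 2 * t) ^ 2 := fun t m =>
    Real.sq_sqrt (by nlinarith [m.1, m.2])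
  refine ⟨ContinuousOn.if (fun z m => arcbas_low h m.1
      (frontier_le_subset_eq continuous_const continuous_im m.2).symm)
    (h.arc1.1.comp (by fun_prop) fun z m => arcbas_mem m.1)
    (h.arc2.1.comp (by fun_prop) fun z m => arcbas_mem m.1), fun z hz w hw c => ?_, ?_⟩
  · have e1 := arcbas_sq.1 hz
    have e2 := arcbas_sq.1 hw
    unfold jor at c
    split_ifs at c with c1 c2 c2
    · have e : z.re = w.re := by linarith [h.arc1.2 (arcbas_mem hz) (arcbas_mem hw) c]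
      exact Complex.ext e ((sq_eq_sq₀ c1 c2).1 (by rw [e] at e1; linarith))
    · exact absurd c (k z hz w hw c2)
    · exact absurd c.symm (k w hw z hz c1)
    · have e : z.re = w.re := by linarith [h.arc2.2 (arcbas_mem hz) (arcbas_mem hw) c]
      refine Complex.ext e (neg_injective ((sq_eq_sq₀ ?_ ?_).1 ?_))
      · linarith [not_le.1 c1]
      · linarith [not_le.1 c2]
      · rw [e] at e1
        linarith
  · rw [← h.un]
    refine Subset.antisymm ?_ ?_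
    · rintro _ ⟨z, m, rfl⟩
      unfold jor
      split_ifs
      exacts [Or.inl ⟨_, arcbas_mem m, rfl⟩, Or.inr ⟨_, arcbas_mem m, rfl⟩]
    · rintro _ (⟨t, m, rfl⟩ | ⟨t, m, rfl⟩)
      · refine ⟨⟨1 - 2 * t, √(1 - (1 - 2 * t) ^ 2)⟩, arcbas_sq.2 (by simp only [s t m]; ring), ?_⟩
        rw [jor, if_pos (Real.sqrt_nonneg _)]
        congr 1
        ring
      · have m' : (⟨1 - 2 * t, -√(1 - (1 - 2 * t) ^ 2)⟩ : ℂ) ∈ sphere (0 : ℂ) 1 :=
          arcbas_sq.2 (by simp only [neg_sq, s t m]; ring)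
        refine ⟨_, m', ?_⟩
        rw [jor]
        split_ifs with c
        · rw [arcbas_low h m' (le_antisymm (neg_nonpos.2 (Real.sqrt_nonneg _)) c)]
          congr 1
          ring
        · congr 1
          ring

theorem arcBasSt : ArcBasSt := by
  refine ⟨fun p q h => ⟨by rw [arcbas_seg]; fun_prop, fun s _ t _ e => ?_⟩,
    fun p q => (segment_eq_image' ℝ p q).symm, fun p q => (openSegment_eq_image' ℝ p q).symm,
    fun a b => arcbas_cat, fun a b e => ⟨arcbas_icc e, arcbas_ioo e, ?_, ?_,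
      fun t m => ⟨arcbas_l a b m.2, arcbas_r e m.1⟩⟩, fun a p q => arcbas_nsep,
    fun J a b h => ⟨arcbas_symm h, arcbas_jor h⟩⟩
  · exact ofReal_injective (mul_right_cancel₀ (sub_ne_zero.2 h.symm) (add_left_cancel e))
  · simpa using arcbas_l a b zero_le_one
  · simpa using arcbas_r e zero_le_one

end Pool.Agent.PT
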