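import Pool.Agent.Lib.MP_c86c76_al.J.St

/-!
Continuous logarithms: homotopy invariance and exhaustion by compact sets.
-/

set_option autoImplicit false

namespace Pool.Agent.PT

open Set Metric Complex Filter Topology

theorem log_near {K : Set ℂ} {g : ℂ → ℂ} (hg : ContinuousOn g K) (h : ∀ z ∈ K, ‖g z - 1‖ < 1) :
    HasLog K g := by
  have h1 : ∀ z ∈ K, g z ∈ slitPlane := fun z hz => by
    have h2 := mem_slitPlane_of_norm_lt_one (h z hz)
    rwa [add_sub_cancel] at h2
  exact ⟨fun z => log (g z), hg.clog h1, fun z hz => exp_log (slitPlane_ne_zero (h1 z hz))⟩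

theorem logHtpSt : LogHtpSt := by
  intro T _ S K u hS hK hu h0 s hs t ht
  have hc : ∀ t ∈ S, ContinuousOn (u t) K := fun t ht =>
    hu.comp (Continuous.prodMk_right t).continuousOn fun z hz => ⟨ht, hz⟩
  refine hS.induction₂' (fun s t => HasLog K fun z => u s z / u t z) (fun a ha => ?_) ?_ hs ht
  · have h1 : ∀ᶠ b in 𝓝 a, ∀ z ∈ K, b ∈ S → z ∈ K → ‖u b z / u a z - 1‖ < 1 := by
      refine hK.eventually_forall_of_forall_eventually
        (P := fun b z => b ∈ S → z ∈ K → ‖u b z / u a z - 1‖ < 1) fun y hy => ?_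
      have h2 : ContinuousOn (fun p : T × ℂ => ‖u p.1 p.2 / u a p.2 - 1‖) (S ×ˢ K) :=
        ((hu.div ((hc a ha).comp continuous_snd.continuousOn fun p hp => hp.2)
          fun p hp => h0 a ha p.2 hp.2).sub continuousOn_const).norm
      have h3 : ∀ᶠ p in 𝓝[S ×ˢ K] (a, y), ‖u p.1 p.2 / u a p.2 - 1‖ < 1 := by
        refine (h2 (a, y) ⟨ha, hy⟩).eventually_lt_const ?_
        simp [div_self (h0 a ha y hy)]
      filter_upwards [eventually_nhdsWithin_iff.1 h3] with p hp h4 h5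
      exact hp ⟨h4, h5⟩
    filter_upwards [nhdsWithin_le_nhds h1, self_mem_nhdsWithin] with b hb hbS
    obtain ⟨l, hl, hl'⟩ := log_near ((hc b hbS).div (hc a ha) (h0 a ha))
      fun z hz => hb z hz hbS hz
    refine ⟨⟨fun z => -l z, hl.neg, fun z hz => ?_⟩, l, hl, hl'⟩
    rw [exp_neg, hl' z hz]
    exact inv_div _ _
  · rintro a b c - hb - ⟨l, hl, hl'⟩ ⟨m, hm, hm'⟩
    refine ⟨fun z => l z + m z, hl.add hm, fun z hz => ?_⟩
    rw [exp_add, hl' z hz, hm' z hz]
    exact div_mul_div_cancel₀ (h0 b hb z hz)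

theorem log_uniq {K : Set ℂ} {l m : ℂ → ℂ} (hK : IsPreconnected K) (hl : ContinuousOn l K)
    (hm : ContinuousOn m K) (h : ∀ z ∈ K, exp (l z) = exp (m z)) {a : ℂ} (ha : a ∈ K)
    (e : l a = m a) : EqOn l m K :=
  isCoveringMap_exp.eqOn_of_comp_eqOn hK hl hm (fun z hz => Subtype.ext (h z hz)) ha e

theorem logOpenSt : LogOpenSt := by
  intro U u hU hc h
  rcases U.eq_empty_or_nonempty with rfl | ⟨a, ha⟩
  · exact ⟨fun _ => 0, continuousOn_const, fun z hz => hz.elim⟩
  obtain ⟨l0, -, hl0⟩ := h {a} (singleton_subset_iff.2 ha) isCompact_singleton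
  have h0 : exp (l0 a) = u a := hl0 a rfl
  have h1 : ∀ K ⊆ U, IsCompact K → a ∈ K →
      ∃ l : ℂ → ℂ, ContinuousOn l K ∧ (∀ z ∈ K, exp (l z) = u z) ∧ l a = l0 a := by
    intro K hKU hK haK
    obtain ⟨l, hl, hl'⟩ := h K hKU hK
    refine ⟨fun z => l z + (l0 a - l a), hl.add continuousOn_const, fun z hz => ?_, by ring⟩
    rw [exp_add, exp_sub, h0, ← hl' a haK, div_self (exp_ne_zero _), mul_one, hl' z hz]
  have hp : IsPathConnected U := hU.isConnected_iff_isPathConnected.1 ⟨⟨a, ha⟩, hc⟩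
  have h2 : ∀ z ∈ U, ∃ K ⊆ U, IsCompact K ∧ IsPreconnected K ∧ a ∈ K ∧ z ∈ K := by
    intro z hz
    obtain ⟨γ, hγ⟩ := hp.joinedIn a ha z hz
    exact ⟨range γ, range_subset_iff.2 hγ, isCompact_range γ.continuous,
      isPreconnected_range γ.continuous, γ.source_mem_range, γ.target_mem_range⟩
  choose! C hCU hC hCc hCa hCz using h2
  choose! L hL hL' hLa using h1
  have h3 : ∀ K ⊆ U, IsCompact K → IsPreconnected K → a ∈ K → ∀ z ∈ K, L (C z) z = L K z := by
    intro K hKU hK hKc haK z hz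
    have hz' := hKU hz
    have e1 : K ∪ C z ⊆ U := union_subset hKU (hCU z hz')
    have e2 : IsCompact (K ∪ C z) := hK.union (hC z hz')
    have e3 : a ∈ K ∪ C z := Or.inl haK
    have key : ∀ K' ⊆ K ∪ C z, IsCompact K' → IsPreconnected K' → a ∈ K' →
        EqOn (L K') (L (K ∪ C z)) K' := fun K' h4 h5 h6 h7 =>
      log_uniq h6 (hL K' (h4.trans e1) h5 h7) ((hL _ e1 e2 e3).mono h4)
        (fun w hw => (hL' K' (h4.trans e1) h5 h7 w hw).trans (hL' _ e1 e2 e3 w (h4 hw)).symm) h7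
        ((hLa K' (h4.trans e1) h5 h7).trans (hLa _ e1 e2 e3).symm)
    exact (key (C z) subset_union_right (hC z hz') (hCc z hz') (hCa z hz') (hCz z hz')).trans
      (key K subset_union_left hK hKc haK hz).symm
  refine ⟨fun z => L (C z) z, fun z hz => ?_,
    fun z hz => hL' _ (hCU z hz) (hC z hz) (hCa z hz) z (hCz z hz)⟩
  obtain ⟨r, hr, hrU⟩ := nhds_basis_closedBall.mem_iff.1 (hU.mem_nhds hz)
  have e1 : C z ∪ closedBall z r ⊆ U := union_subset (hCU z hz) hrU
  have e2 : IsCompact (C z ∪ closedBall z r) := (hC z hz).union (isCompact_closedBall z r)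
  have e3 : IsPreconnected (C z ∪ closedBall z r) :=
    (hCc z hz).union z (hCz z hz) (mem_closedBall_self hr.le) (convex_closedBall z r).isPreconnected
  have e4 : a ∈ C z ∪ closedBall z r := Or.inl (hCa z hz)
  have e5 : C z ∪ closedBall z r ∈ 𝓝 z :=
    mem_of_superset (closedBall_mem_nhds z hr) subset_union_right
  refine (((hL _ e1 e2 e4).continuousAt e5).congr ?_).continuousWithinAt
  filter_upwards [e5] with w hw
  exact (h3 _ e1 e2 e3 e4 w hw).symm

end Pool.Agent.PT
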