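import Mathlib

/-!
Plane topology: definitions and the statements of the steps that lead to the Schoenflies theorem
(through the Riemann mapping theorem and the boundary correspondence), and to isotopies of discs.
-/

set_option autoImplicit false

namespace Pool.Agent.PT

open Set Metric Complex Filter Topology

/-- `u` has a continuous logarithm on `K`. -/
def HasLog (K : Set ℂ) (u : ℂ → ℂ) : Prop :=
  ∃ l : ℂ → ℂ, ContinuousOn l K ∧ ∀ z ∈ K, exp (l z) = u z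

/-- `X` does not separate `p` from `q`. -/
def NSep (X : Set ℂ) (p q : ℂ) : Prop := q ∈ connectedComponentIn Xᶜ p

/-- A Jordan curve. -/
def IsJ (J : Set ℂ) : Prop :=
  ∃ γ : ℂ → ℂ, ContinuousOn γ (sphere 0 1) ∧ InjOn γ (sphere 0 1) ∧ γ '' sphere 0 1 = J

/-- `U` is a bounded component of the complement of `J`. -/
structure Ins (J U : Set ℂ) : Prop where
  op : IsOpen U
  ne : U.Nonempty
  con : IsPreconnected U
  bd : Bornology.IsBounded U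
  dis : Disjoint U J
  fr : frontier U ⊆ J

/-- `F` is a conformal map of the unit disc onto `U`. -/
structure Conf (F : ℂ → ℂ) (U : Set ℂ) : Prop where
  hol : DifferentiableOn ℂ F (ball 0 1)
  inj : InjOn F (ball 0 1)
  im : F '' ball 0 1 = U
  inv : ∃ G : ℂ → ℂ, ContinuousOn G U ∧ ∀ z ∈ ball (0 : ℂ) 1, G (F z) = z

/-- The competitors in the extremal problem. -/
structure Adm (U : Set ℂ) (a : ℂ) (f : ℂ → ℂ) : Prop where
  hol : DifferentiableOn ℂ f U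
  inj : InjOn f U
  der : ∀ z ∈ U, deriv f z ≠ 0
  mp : MapsTo f U (ball 0 1)
  zero : f a = 0

/-- Close points of `J` lie in a small continuum in `J`. -/
def ULC (J : Set ℂ) : Prop := ∀ η > 0, ∃ ε > 0, ∀ p ∈ J, ∀ q ∈ J, dist p q ≤ ε →
  ∃ α ⊆ J, IsCompact α ∧ IsPreconnected α ∧ p ∈ α ∧ q ∈ α ∧ α ⊆ ball p η

/-! ### Logarithms and separation -/

def LogHtpSt : Prop := ∀ (T : Type) [TopologicalSpace T] (S : Set T) (K : Set ℂ) (u : T → ℂ → ℂ),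
  IsPreconnected S → IsCompact K → ContinuousOn (fun p : T × ℂ => u p.1 p.2) (S ×ˢ K) →
  (∀ t ∈ S, ∀ z ∈ K, u t z ≠ 0) → ∀ s ∈ S, ∀ t ∈ S, HasLog K fun z => u s z / u t z

def LogOpenSt : Prop := ∀ (U : Set ℂ) (u : ℂ → ℂ), IsOpen U → IsPreconnected U →
  (∀ K ⊆ U, IsCompact K → HasLog K u) → HasLog U u

def EilSt : Prop := ∀ (K : Set ℂ) (p q : ℂ), IsCompact K → p ∉ K → q ∉ K →
  (NSep K p q ↔ HasLog K fun z => (z - p) / (z - q))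

def JanSt : Prop := ∀ (X Y : Set ℂ) (p q : ℂ), IsCompact X → IsCompact Y →
  IsPreconnected (X ∩ Y) → NSep X p q → NSep Y p q → NSep (X ∪ Y) p q

/-! ### The Riemann mapping theorem -/

def SqrtSt : Prop := ∀ (U : Set ℂ) (f : ℂ → ℂ) (w : ℂ), IsOpen U → IsPreconnected U →
  Bornology.IsBounded U → IsPreconnected Uᶜ → DifferentiableOn ℂ f U → InjOn f U →
  (∀ z ∈ U, deriv f z ≠ 0) → w ∉ f '' U → HasLog U fun z => f z - w

def MontelSt : Prop := ∀ (U : Set ℂ) (F : ℕ → ℂ → ℂ) (l : Ultrafilter ℕ), IsOpen U →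
  (∀ n, DifferentiableOn ℂ (F n) U) → (∀ n, MapsTo (F n) U (ball 0 1)) →
  ∃ f : ℂ → ℂ, TendstoLocallyUniformlyOn F f l U

def HurSt : Prop := ∀ (U : Set ℂ) (F : ℕ → ℂ → ℂ) (f : ℂ → ℂ) (l : Ultrafilter ℕ), IsOpen U →
  IsPreconnected U → (∀ n, DifferentiableOn ℂ (F n) U) → TendstoLocallyUniformlyOn F f l U →
  ((∀ n, ∀ z ∈ U, F n z ≠ 0) → (∀ z ∈ U, f z = 0) ∨ ∀ z ∈ U, f z ≠ 0) ∧
  ((∀ n, InjOn (F n) U) → (∃ c, ∀ z ∈ U, f z = c) ∨ InjOn f U)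

def KoebeSt : Prop := ∀ (U : Set ℂ) (a w : ℂ) (f : ℂ → ℂ), IsOpen U → a ∈ U → Adm U a f →
  w ∈ ball (0 : ℂ) 1 → w ∉ f '' U → (HasLog U fun z => f z - w) →
  ∃ f' : ℂ → ℂ, Adm U a f' ∧ ‖deriv f a‖ < ‖deriv f' a‖

def RMTSt : Prop := ∀ U : Set ℂ, IsOpen U → U.Nonempty → IsPreconnected U →
  Bornology.IsBounded U → IsPreconnected Uᶜ → ∃ F, Conf F U

/-! ### The boundary correspondence -/

def LenSt : Prop := ∀ F : ℂ → ℂ, DifferentiableOn ℂ F (ball 0 1) → InjOn F (ball 0 1) →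
  Bornology.IsBounded (F '' ball 0 1) → ∀ ε > 0, ∃ δ > 0, ∀ ζ : ℂ, ‖ζ‖ = 1 →
  ∃ r : ℝ, δ < r ∧ r < 1 ∧
    (∃ p q : ℂ, closure (F '' (ball 0 1 ∩ sphere ζ r)) ⊆ F '' (ball 0 1 ∩ sphere ζ r) ∪ {p, q}) ∧
    ∀ z ∈ ball (0 : ℂ) 1 ∩ sphere ζ r, ∀ w ∈ ball (0 : ℂ) 1 ∩ sphere ζ r, dist (F z) (F w) ≤ ε

def CarContSt : Prop := ∀ (J U : Set ℂ) (F : ℂ → ℂ), IsCompact J → ULC J → Ins J U → Conf F U →
  ∃ Φ : ℂ → ℂ, ContinuousOn Φ (closedBall 0 1) ∧ EqOn Φ F (ball 0 1) ∧ MapsTo Φ (sphere 0 1) J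

def BdConstSt : Prop := ∀ (Φ : ℂ → ℂ) (ξ p : ℂ) (ε : ℝ), ContinuousOn Φ (closedBall 0 1) →
  DifferentiableOn ℂ Φ (ball 0 1) → InjOn Φ (ball 0 1) → ‖ξ‖ = 1 → 0 < ε →
  ∃ ζ : ℂ, ‖ζ‖ = 1 ∧ dist ζ ξ < ε ∧ Φ ζ ≠ p

def CarInjSt : Prop := ∀ (J U : Set ℂ) (F Φ : ℂ → ℂ), IsCompact J →
  (∀ p, IsPreconnected (J \ {p})) → Ins J U → Conf F U → ContinuousOn Φ (closedBall 0 1) →
  EqOn Φ F (ball 0 1) → MapsTo Φ (sphere 0 1) J → InjOn Φ (closedBall 0 1)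

def JPropSt : Prop := ∀ J : Set ℂ, IsJ J → IsCompact J ∧ IsPreconnected J ∧ ULC J ∧
  (∀ p, IsPreconnected (J \ {p})) ∧ ∀ J' ⊆ J, IsJ J' → J' = J

def ComplSt : Prop := ∀ J U : Set ℂ, IsPreconnected J → Ins J U → IsPreconnected Uᶜ

/-- The Schoenflies theorem with prescribed boundary values. -/
def SchSt : Prop := ∀ (γ : ℂ → ℂ) (U : Set ℂ), ContinuousOn γ (sphere 0 1) →
  InjOn γ (sphere 0 1) → Ins (γ '' sphere 0 1) U →
  ∃ Φ : ℂ → ℂ, ContinuousOn Φ (closedBall 0 1) ∧ InjOn Φ (closedBall 0 1) ∧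
    EqOn Φ γ (sphere 0 1) ∧ Φ '' ball 0 1 = U

end Pool.Agent.PT
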